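import Pool.Agent.Lib.MP_1e1427_nt.LG.Stm

set_option autoImplicit false

namespace Pool.Agent.Lib.MP1e1427.LG

open Finset

private theorem bcd_sq (r : ℕ) (hr : r.Prime) (c s : ℕ) :
    ((range r).filter fun t => c ≡ s ^ 2 + t ^ 2 [MOD r]).card ≤ 2 := by
  rcases ((range r).filter fun t => c ≡ s ^ 2 + t ^ 2 [MOD r]).eq_empty_or_nonempty with h | ⟨t₀, h⟩
  · rw [h]; simp
  · have hsub : ((range r).filter fun t => c ≡ s ^ 2 + t ^ 2 [MOD r]) ⊆ {t₀, r - t₀} := by
      intro t ht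
      rw [mem_filter, mem_range] at ht h
      have h1 : s ^ 2 + t ^ 2 ≡ s ^ 2 + t₀ ^ 2 [MOD r] := ht.2.symm.trans h.2
      have h2 : t ^ 2 ≡ t₀ ^ 2 [MOD r] := Nat.ModEq.add_left_cancel' _ h1
      have h3 : ((r : ℕ) : ℤ) ∣ ((t : ℤ) - t₀) * (t + t₀) := by
        have h4 := (Nat.modEq_iff_dvd.mp h2.symm)
        have h5 : ((t ^ 2 : ℕ) : ℤ) - ((t₀ ^ 2 : ℕ) : ℤ) = ((t : ℤ) - t₀) * (t + t₀) := by
          push_cast; ring
        rwa [h5] at h4
      rw [mem_insert, mem_singleton]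
      rcases (Nat.prime_iff_prime_int.mp hr).dvd_or_dvd h3 with h4 | h4
      · left
        have h5 : (t : ℤ) - t₀ = 0 := by
          apply Int.eq_zero_of_abs_lt_dvd h4
          rw [abs_lt]
          constructor <;> omega
        omega
      · obtain ⟨c', hc'⟩ := h4
        have h6 : c' < 2 := by
          by_contra hcon
          push Not at hcon
          nlinarith [ht.1, h.1]
        have h7 : 0 ≤ c' := by
          by_contra hcon
          push Not at hcon
          have : (0 : ℤ) < r := by exact_mod_cast hr.pos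
          nlinarith
        have h8 : c' = 0 ∨ c' = 1 := by omega
        rcases h8 with rfl | rfl
        · left; omega
        · right; omega
    refine (card_le_card hsub).trans (card_le_two)

private theorem bcd_two (n r : ℕ) (hr : r.Prime) :
    ((range r ×ˢ range r).filter fun st : ℕ × ℕ => 2 * n ≡ st.1 ^ 2 + st.2 ^ 2 [MOD r]).card ≤
      2 * r := by
  rw [card_filter, sum_product]
  have h1 : ∀ s ∈ range r, (∑ t ∈ range r, if 2 * n ≡ s ^ 2 + t ^ 2 [MOD r] then 1 else 0) ≤ 2 := by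
    intro s _
    rw [← card_filter]
    exact bcd_sq r hr (2 * n) s
  refine (sum_le_sum h1).trans ?_
  rw [sum_const, card_range, smul_eq_mul, mul_comm]

/-- for a fixed prime `p` and `s` there is at most one `t` -/
private theorem bcd_inj (W α r p : ℕ) (hr : r.Prime) (hrW : ¬ r ∣ W) (hp : p.Prime) (hp2 : p ≠ 2)
    (hro : r ∣ orderOf (2 : ZMod p)) (hoW : orderOf (2 : ZMod p) ∣ W * r) (s t t' a b a' b' : ℕ)
    (ht : t < r) (ht' : t' < r)
    (h1 : a ≡ α [MOD W]) (h3 : a ≡ s [MOD r]) (h4 : b ≡ t [MOD r])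
    (h5 : p ∣ 2 ^ a + 2 ^ b + 1)
    (h1' : a' ≡ α [MOD W]) (h3' : a' ≡ s [MOD r]) (h4' : b' ≡ t' [MOD r])
    (h5' : p ∣ 2 ^ a' + 2 ^ b' + 1) : t = t' := by
  have : Fact p.Prime := ⟨hp⟩
  have hcop : Nat.Coprime W r := ((Nat.Prime.coprime_iff_not_dvd hr).mpr hrW).symm
  have ha : a ≡ a' [MOD W * r] :=
    (Nat.modEq_and_modEq_iff_modEq_mul hcop).mp ⟨h1.trans h1'.symm, h3.trans h3'.symm⟩
  have ha2 : a % orderOf (2 : ZMod p) = a' % orderOf (2 : ZMod p) := ha.of_dvd hoW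
  have hpow : (2 : ZMod p) ^ a = 2 ^ a' := by
    rw [← pow_mod_orderOf (2 : ZMod p) a, ha2, pow_mod_orderOf]
  have e1 : (2 : ZMod p) ^ a + 2 ^ b + 1 = 0 := by
    have := (ZMod.natCast_eq_zero_iff (2 ^ a + 2 ^ b + 1) p).mpr h5
    push_cast at this
    exact this
  have e2 : (2 : ZMod p) ^ a' + 2 ^ b' + 1 = 0 := by
    have := (ZMod.natCast_eq_zero_iff (2 ^ a' + 2 ^ b' + 1) p).mpr h5'
    push_cast at this
    exact this
  have hb : (2 : ZMod p) ^ b = 2 ^ b' := by
    rw [hpow] at e1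
    linear_combination e1 - e2
  have h20 : (2 : ZMod p) ≠ 0 := by
    intro h
    have h' : ((2 : ℕ) : ZMod p) = 0 := by exact_mod_cast h
    rw [ZMod.natCast_eq_zero_iff] at h'
    exact hp2 ((Nat.prime_dvd_prime_iff_eq hp Nat.prime_two).mp h')
  obtain ⟨u, hu⟩ : ∃ u : (ZMod p)ˣ, (u : ZMod p) = 2 := ⟨Units.mk0 2 h20, rfl⟩
  have hord : orderOf (2 : ZMod p) = orderOf u := by rw [← hu, orderOf_units]
  have hbu : u ^ b = u ^ b' := by
    apply Units.ext
    rw [Units.val_pow_eq_pow_val, Units.val_pow_eq_pow_val, hu]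
    exact hb
  have hb3 : b ≡ b' [MOD orderOf u] := pow_eq_pow_iff_modEq.mp hbu
  rw [← hord] at hb3
  have hb4 : b ≡ b' [MOD r] := hb3.of_dvd hro
  have hb5 : t ≡ t' [MOD r] := h4.symm.trans (hb4.trans h4')
  exact Nat.ModEq.eq_of_lt_of_lt hb5 ht ht'

open Classical in
/-- the size of the bad sets -/
theorem p_bcd : S_bcd := by
  intro n z W α r hW hr hrW
  let Pz : Finset ℕ := (range (z + 1)).filter fun p => p.Prime ∧ p ≠ 2 ∧ r ∣ orderOf (2 : ZMod p)
  let A : ℕ → Finset (ℕ × ℕ) := fun p => (range r ×ˢ range r).filter fun st =>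
    ∃ a b : ℕ, orderOf (2 : ZMod p) ∣ W * r ∧ a ≡ α [MOD W] ∧ b ≡ 0 [MOD W] ∧
      a ≡ st.1 [MOD r] ∧ b ≡ st.2 [MOD r] ∧ p ∣ 2 ^ a + 2 ^ b + 1
  let B : Finset (ℕ × ℕ) := (range r ×ˢ range r).filter fun st : ℕ × ℕ =>
    2 * n ≡ st.1 ^ 2 + st.2 ^ 2 [MOD r]
  have hsub : bad n z W α r ⊆ Pz.biUnion A ∪ B := by
    intro st hst
    unfold bad at hst
    rw [mem_filter] at hst
    obtain ⟨h1, h2 | h2⟩ := hst
    · obtain ⟨p, a, b, h3, h4, h5, h6, h7, h8, h9, h10, h11, h12⟩ := h2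
      rw [mem_union, mem_biUnion]
      left
      exact ⟨p, mem_filter.mpr ⟨mem_range.mpr (by omega), h3, h5, h6⟩,
        mem_filter.mpr ⟨h1, a, b, h7, h8, h9, h10, h11, h12⟩⟩
    · rw [mem_union]
      right
      exact mem_filter.mpr ⟨h1, h2⟩
  have hA : ∀ p ∈ Pz, (A p).card ≤ r := by
    intro p hp
    obtain ⟨-, hpp, hp2, hro⟩ := mem_filter.mp hp
    have h1 : (A p).card ≤ (range r).card := by
      apply card_le_card_of_injOn Prod.fst
      · intro st hst
        exact (mem_product.mp (mem_filter.mp hst).1).1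
      · rintro ⟨s, t⟩ hst ⟨s', t'⟩ hst' hs
        obtain ⟨g1, a, b, g2, g3, g4, g5, g6, g7⟩ := mem_filter.mp hst
        obtain ⟨g1', a', b', -, g3', g4', g5', g6', g7'⟩ := mem_filter.mp hst'
        have hs' : s = s' := hs
        subst hs'
        have := bcd_inj W α r p hr hrW hpp hp2 hro g2 s t t' a b a' b'
          (mem_range.mp (mem_product.mp g1).2) (mem_range.mp (mem_product.mp g1').2)
          g3 g5 g6 g7 g3' g5' g6' g7'
        rw [this]
    rwa [card_range] at h1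
  have hP : Pz.card ≤ z / r := by
    have h1 : Pz ⊆ (Ioc 0 (z / r)).image fun k => r * k + 1 := by
      intro p hp
      obtain ⟨hpz, hpp, hp2, hro⟩ := mem_filter.mp hp
      have : Fact p.Prime := ⟨hpp⟩
      have h20 : (2 : ZMod p) ≠ 0 := by
        intro h
        have h' : ((2 : ℕ) : ZMod p) = 0 := by exact_mod_cast h
        rw [ZMod.natCast_eq_zero_iff] at h'
        exact hp2 ((Nat.prime_dvd_prime_iff_eq hpp Nat.prime_two).mp h')
      have h2 : r ∣ p - 1 := hro.trans (orderOf_dvd_of_pow_eq_one (ZMod.pow_card_sub_one_eq_one h20))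
      obtain ⟨k, hk⟩ := h2
      have hp1 := hpp.one_lt
      have hpz' := mem_range.mp hpz
      refine mem_image.mpr ⟨k, mem_Ioc.mpr ⟨?_, ?_⟩, by omega⟩
      · rcases Nat.eq_zero_or_pos k with h | h
        · rw [h, mul_zero] at hk; omega
        · exact h
      · rw [Nat.le_div_iff_mul_le hr.pos, mul_comm]
        omega
    refine (card_le_card h1).trans (card_image_le.trans ?_)
    rw [Nat.card_Ioc]
    exact Nat.sub_le _ _
  have h1 : (Pz.biUnion A).card ≤ z := by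
    calc (Pz.biUnion A).card ≤ ∑ p ∈ Pz, (A p).card := card_biUnion_le
      _ ≤ ∑ p ∈ Pz, r := sum_le_sum hA
      _ = Pz.card * r := by rw [sum_const, smul_eq_mul]
      _ ≤ z / r * r := Nat.mul_le_mul_right _ hP
      _ ≤ z := Nat.div_mul_le_self z r
  have h2 : B.card ≤ 2 * r := bcd_two n r hr
  calc (bad n z W α r).card ≤ (Pz.biUnion A ∪ B).card := card_le_card hsub
    _ ≤ (Pz.biUnion A).card + B.card := card_union_le _ _
    _ ≤ z + 2 * r := by omega

end Pool.Agent.Lib.MP1e1427.LG
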