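import Pool.Agent.Lib.MP_1e1427_nt.LG.Stm

set_option autoImplicit false

namespace Pool.Agent.Lib.MP1e1427.LG

open Finset ArithmeticFunction
open Pool.Agent.Lib.MP1e1427

theorem blk_one (D : ℕ) (f : ℕ → ℝ) : ∀ K : ℕ,
    ∑ i ∈ range (D * K), f i = ∑ i₀ ∈ range D, ∑ i₁ ∈ range K, f (i₀ + D * i₁) := by
  intro K
  induction K with
  | zero => simp
  | succ K ih =>
    rw [Nat.mul_succ, Finset.sum_range_add, ih, ← Finset.sum_add_distrib]
    refine Finset.sum_congr rfl fun i₀ _ => ?_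
    rw [Finset.sum_range_succ, Nat.add_comm (D * K) i₀]

theorem blk_pair (D K : ℕ) (f : ℕ × ℕ → ℝ) :
    ∑ p ∈ range (D * K) ×ˢ range (D * K), f p =
      ∑ v ∈ range D ×ˢ range D, ∑ w ∈ range K ×ˢ range K, f (v.1 + D * w.1, v.2 + D * w.2) := by
  rw [Finset.sum_product, blk_one D _ K, Finset.sum_product]
  refine Finset.sum_congr rfl fun i₀ _ => ?_
  have h : ∀ i₁ ∈ range K, ∑ j ∈ range (D * K), f (i₀ + D * i₁, j) =
      ∑ j₀ ∈ range D, ∑ j₁ ∈ range K, f (i₀ + D * i₁, j₀ + D * j₁) :=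
    fun i₁ _ => blk_one D _ K
  rw [Finset.sum_congr rfl h, Finset.sum_comm]
  refine Finset.sum_congr rfl fun j₀ _ => ?_
  rw [Finset.sum_product]

theorem blk_quad (D K : ℕ) (g : (ℕ × ℕ) × (ℕ × ℕ) → ℝ) :
    ∑ w ∈ ibox (D * K), g w =
      ∑ v ∈ ibox D, ∑ w ∈ ibox K,
        g ((v.1.1 + D * w.1.1, v.1.2 + D * w.1.2), (v.2.1 + D * w.2.1, v.2.2 + D * w.2.2)) := by
  unfold ibox
  rw [Finset.sum_product, blk_pair D K]
  conv_rhs => rw [Finset.sum_product]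
  refine Finset.sum_congr rfl fun (v₁ : ℕ × ℕ) _ => ?_
  have h : ∀ w₁ ∈ range K ×ˢ range K,
      ∑ q ∈ range (D * K) ×ˢ range (D * K), g ((v₁.1 + D * w₁.1, v₁.2 + D * w₁.2), q) =
      ∑ v₂ ∈ range D ×ˢ range D, ∑ w₂ ∈ range K ×ˢ range K,
        g ((v₁.1 + D * w₁.1, v₁.2 + D * w₁.2), (v₂.1 + D * w₂.1, v₂.2 + D * w₂.2)) :=
    fun w₁ _ => blk_pair D K (fun q => g ((v₁.1 + D * w₁.1, v₁.2 + D * w₁.2), q))
  refine (Finset.sum_congr rfl h).trans ?_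
  rw [Finset.sum_comm]
  refine Finset.sum_congr rfl fun (v₂ : ℕ × ℕ) _ => ?_
  conv_rhs => rw [Finset.sum_product]

theorem blk_bpt (a W D i₀ i₁ j₀ j₁ : ℕ) :
    bpt a W (i₀ + D * i₁, j₀ + D * j₁) = bpt (bpt a W (i₀, j₀)) (W * D) (i₁, j₁) := by
  simp only [bpt]
  ring

theorem blk_card (n : ℕ) : (ibox n).card = n ^ 4 := by
  simp only [ibox, Finset.card_product, Finset.card_range]
  ring

theorem blk_real (D K : ℕ) (hD : 0 < D) :
    (K : ℝ) ^ 4 - ((D * (K / D) : ℕ) : ℝ) ^ 4 ≤ 4 * (K : ℝ) ^ 3 * D := by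
  have h1 : D * (K / D) ≤ K := Nat.mul_div_le K D
  have h2 : K ≤ D * (K / D) + D := by
    have h := Nat.div_add_mod K D
    have h' := Nat.mod_lt K hD
    omega
  set n := D * (K / D) with hn
  clear_value n
  have h1' : (n : ℝ) ≤ K := by exact_mod_cast h1
  have h2' : (K : ℝ) - n ≤ D := by
    have : (K : ℝ) ≤ n + D := by exact_mod_cast h2
    linarith
  have hn0 : (0 : ℝ) ≤ n := Nat.cast_nonneg n
  have hK0 : (0 : ℝ) ≤ K := Nat.cast_nonneg K
  have e : (K : ℝ) ^ 4 - (n : ℝ) ^ 4 =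
      ((K : ℝ) - n) * (K ^ 3 + K ^ 2 * n + K * n ^ 2 + n ^ 3) := by ring
  rw [e]
  have h3 : (K : ℝ) ^ 3 + K ^ 2 * n + K * n ^ 2 + n ^ 3 ≤ 4 * K ^ 3 := by
    have a1 : (K : ℝ) ^ 2 * n ≤ K ^ 2 * K := mul_le_mul_of_nonneg_left h1' (by positivity)
    have a2 : (K : ℝ) * n ^ 2 ≤ K * K ^ 2 :=
      mul_le_mul_of_nonneg_left (pow_le_pow_left₀ hn0 h1' 2) hK0
    have a3 : (n : ℝ) ^ 3 ≤ K ^ 3 := pow_le_pow_left₀ hn0 h1' 3
    nlinarith
  have h4 : (0 : ℝ) ≤ (K : ℝ) ^ 3 + K ^ 2 * n + K * n ^ 2 + n ^ 3 := by positivity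
  calc ((K : ℝ) - n) * (K ^ 3 + K ^ 2 * n + K * n ^ 2 + n ^ 3)
      ≤ D * (K ^ 3 + K ^ 2 * n + K * n ^ 2 + n ^ 3) := mul_le_mul_of_nonneg_right h2' h4
    _ ≤ D * (4 * K ^ 3) := mul_le_mul_of_nonneg_left h3 (Nat.cast_nonneg D)
    _ = 4 * (K : ℝ) ^ 3 * D := by ring

theorem blk_sub (D K : ℕ) : ibox (D * (K / D)) ⊆ ibox K := by
  have h : range (D * (K / D)) ⊆ range K := by
    intro x hx
    rw [Finset.mem_range] at hx ⊢
    exact lt_of_lt_of_le hx (Nat.mul_div_le K D)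
  unfold ibox
  exact Finset.product_subset_product (Finset.product_subset_product h h)
    (Finset.product_subset_product h h)

theorem blk_rest (D K : ℕ) (hD : 0 < D) :
    (ibox K \ ibox (D * (K / D))).card ≤ 4 * K ^ 3 * D := by
  have h := blk_real D K hD
  rw [Finset.card_sdiff_of_subset (blk_sub D K), blk_card, blk_card]
  have h' : (K : ℝ) ^ 4 ≤ 4 * (K : ℝ) ^ 3 * D + ((D * (K / D) : ℕ) : ℝ) ^ 4 := by linarith
  have h2 : K ^ 4 ≤ 4 * K ^ 3 * D + (D * (K / D)) ^ 4 := by exact_mod_cast h'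
  omega

theorem blk_uniq (D W a s i : ℕ) (hD : 0 < D) (hc : Nat.Coprime W D) :
    ((range D).filter (fun j => bpt a W (i, j) ≡ s [MOD D])).card = 1 := by
  have : NeZero D := ⟨hD.ne'⟩
  have hu : IsUnit ((W : ℕ) : ZMod D) := (ZMod.isUnit_iff_coprime W D).mpr hc
  obtain ⟨u, hu⟩ := hu
  rw [Finset.card_eq_one]
  refine ⟨ZMod.val ((↑u⁻¹ : ZMod D) * ((s : ZMod D) - (a : ZMod D)) - (i : ZMod D)), ?_⟩
  ext j
  simp only [Finset.mem_filter, Finset.mem_range, Finset.mem_singleton]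
  have key : (bpt a W (i, j) ≡ s [MOD D]) ↔
      ((j : ℕ) : ZMod D) = (↑u⁻¹ : ZMod D) * ((s : ZMod D) - (a : ZMod D)) - (i : ZMod D) := by
    rw [← ZMod.natCast_eq_natCast_iff]
    simp only [bpt]
    push_cast
    rw [← hu]
    constructor
    · intro h
      have h1 : (s : ZMod D) - (a : ZMod D) = ↑u * ((i : ZMod D) + j) := by rw [← h]; ring
      rw [h1, ← mul_assoc, Units.inv_mul, one_mul]
      ring
    · intro h
      rw [h]
      have : (↑u : ZMod D) * ((i : ZMod D) + ((↑u⁻¹ : ZMod D) * ((s : ZMod D) - (a : ZMod D)) - (i : ZMod D))) =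
          (↑u * ↑u⁻¹ : ZMod D) * ((s : ZMod D) - (a : ZMod D)) := by ring
      rw [this, Units.mul_inv, one_mul]
      ring
  constructor
  · rintro ⟨hj, h⟩
    rw [key] at h
    rw [← h, ZMod.val_natCast, Nat.mod_eq_of_lt hj]
  · intro h
    have hj : j < D := by rw [h]; exact ZMod.val_lt _
    refine ⟨hj, ?_⟩
    rw [key, h, ZMod.natCast_zmod_val]

theorem blk_cl (D W a s : ℕ) (hD : 0 < D) (hc : Nat.Coprime W D) :
    ((range D ×ˢ range D).filter (fun v => bpt a W v ≡ s [MOD D])).card = D := by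
  rw [Finset.card_filter, Finset.sum_product]
  have h : ∀ i ∈ range D, (∑ j ∈ range D, if bpt a W (i, j) ≡ s [MOD D] then 1 else 0) = 1 := by
    intro i _
    rw [← Finset.card_filter]
    exact blk_uniq D W a s i hD hc
  rw [Finset.sum_congr rfl h]
  simp

theorem p_blk : S_blk := by
  intro D hD
  refine ⟨?_, ?_, ?_⟩
  · intro K₁ W a₀ b₀ G
    rw [blk_quad D K₁ (fun w => G (bpt a₀ W w.1) (bpt b₀ W w.2))]
    refine Finset.sum_congr rfl fun v _ => Finset.sum_congr rfl fun w _ => ?_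
    simp only [blk_bpt]
  · intro K
    exact ⟨blk_sub D K, blk_rest D K hD, blk_real D K hD⟩
  · intro W a₀ b₀ s t hc
    have e : (ibox D).filter (fun v => bpt a₀ W v.1 ≡ s [MOD D] ∧ bpt b₀ W v.2 ≡ t [MOD D]) =
        ((range D ×ˢ range D).filter (fun v => bpt a₀ W v ≡ s [MOD D])) ×ˢ
          ((range D ×ˢ range D).filter (fun v => bpt b₀ W v ≡ t [MOD D])) := by
      unfold ibox
      rw [← Finset.filter_product]
    rw [e, Finset.card_product, blk_cl D W a₀ s hD hc, blk_cl D W b₀ t hD hc]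
    ring

end Pool.Agent.Lib.MP1e1427.LG
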