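import Mathlib
import Pool.Agent.Lib.MP_1e1427_nt.LG.Stm

/-!
Piece `bon`: Bonferroni inequality in product form.
-/

set_option autoImplicit false

namespace Pool.Agent.Lib.MP1e1427.LG

open Finset

/-- weighted sum over the subsets -/
noncomputable def bon_G (x : ℕ → ℝ) (φ : ℕ → ℝ) (R : Finset ℕ) : ℝ :=
  ∑ D ∈ R.powerset, φ D.card * ∏ r ∈ D, x r

theorem bon_insert (x : ℕ → ℝ) (φ : ℕ → ℝ) (R : Finset ℕ) (a : ℕ) (ha : a ∉ R) :
    bon_G x φ (insert a R) = bon_G x φ R + x a * bon_G x (fun n => φ (n + 1)) R := by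
  unfold bon_G
  rw [Finset.sum_powerset_insert ha, Finset.mul_sum]
  congr 1
  refine Finset.sum_congr rfl fun t ht => ?_
  have hat : a ∉ t := fun h => ha (Finset.mem_powerset.1 ht h)
  rw [Finset.card_insert_of_notMem hat, Finset.prod_insert hat]
  ring

theorem bon_F (x : ℕ → ℝ) (k : ℕ) (R : Finset ℕ) :
    ∑ D ∈ R.powerset.filter (fun D => D.card ≤ k), (-1 : ℝ) ^ D.card * ∏ r ∈ D, x r =
      bon_G x (fun n => if n ≤ k then (-1 : ℝ) ^ n else 0) R := by
  unfold bon_G
  rw [Finset.sum_filter]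
  refine Finset.sum_congr rfl fun t _ => ?_
  by_cases h : t.card ≤ k
  · rw [if_pos h]
    simp only [if_pos h]
  · rw [if_neg h]
    simp only [if_neg h, zero_mul]

theorem bon_e (x : ℕ → ℝ) (k : ℕ) (R : Finset ℕ) :
    ∑ D ∈ R.powersetCard k, ∏ r ∈ D, x r =
      bon_G x (fun n => if n = k then (1 : ℝ) else 0) R := by
  unfold bon_G
  rw [Finset.powersetCard_eq_filter, Finset.sum_filter]
  refine Finset.sum_congr rfl fun t _ => ?_
  by_cases h : t.card = k
  · rw [if_pos h]
    simp only [if_pos h, one_mul]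
  · rw [if_neg h]
    simp only [if_neg h, zero_mul]

theorem bon_neg (x : ℕ → ℝ) (k : ℕ) (R : Finset ℕ) :
    bon_G x (fun n => if n + 1 ≤ k + 1 then (-1 : ℝ) ^ (n + 1) else 0) R =
      - bon_G x (fun n => if n ≤ k then (-1 : ℝ) ^ n else 0) R := by
  unfold bon_G
  rw [← Finset.sum_neg_distrib]
  refine Finset.sum_congr rfl fun t _ => ?_
  simp only [Nat.add_le_add_iff_right]
  split_ifs
  · rw [pow_succ]; ring
  · ring

theorem bon_zero (x : ℕ → ℝ) (R : Finset ℕ) :
    bon_G x (fun n => if n ≤ 0 then (-1 : ℝ) ^ n else 0) R = 1 := by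
  rw [← bon_F]
  have h : R.powerset.filter (fun D => D.card ≤ 0) = {∅} := by
    ext t
    simp only [mem_filter, mem_powerset, Nat.le_zero, card_eq_zero, mem_singleton]
    constructor
    · exact fun h => h.2
    · intro h
      subst h
      simp
  rw [h]
  simp

theorem bon_main (x : ℕ → ℝ) (R : Finset ℕ) : (∀ r ∈ R, 0 ≤ x r ∧ x r ≤ 1) → ∀ k : ℕ,
    0 ≤ (-1 : ℝ) ^ k * (bon_G x (fun n => if n ≤ k then (-1 : ℝ) ^ n else 0) R -
        ∏ r ∈ R, (1 - x r)) ∧
    (-1 : ℝ) ^ k * (bon_G x (fun n => if n ≤ k then (-1 : ℝ) ^ n else 0) R -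
        ∏ r ∈ R, (1 - x r)) ≤ bon_G x (fun n => if n = k + 1 then (1 : ℝ) else 0) R := by
  induction R using Finset.induction_on with
  | empty =>
    intro _ k
    simp [bon_G]
  | insert a R ha ih =>
    intro hx k
    have hx' : ∀ r ∈ R, 0 ≤ x r ∧ x r ≤ 1 := fun r hr => hx r (Finset.mem_insert_of_mem hr)
    obtain ⟨ha0, ha1⟩ := hx a (Finset.mem_insert_self a R)
    have hP0 : 0 ≤ ∏ r ∈ R, (1 - x r) :=
      Finset.prod_nonneg fun r hr => by linarith [(hx' r hr).2]
    have hP1 : ∏ r ∈ R, (1 - x r) ≤ 1 :=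
      Finset.prod_le_one (fun r hr => by linarith [(hx' r hr).2])
        (fun r hr => by linarith [(hx' r hr).1])
    have he : bon_G x (fun n => if n = k + 1 then (1 : ℝ) else 0) (insert a R) =
        bon_G x (fun n => if n = k + 1 then (1 : ℝ) else 0) R +
          x a * bon_G x (fun n => if n = k then (1 : ℝ) else 0) R := by
      rw [bon_insert x _ R a ha]
      simp only [Nat.add_right_cancel_iff]
    rw [Finset.prod_insert ha, he]
    rcases k with _ | k
    · have h0 := ih hx' 0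
      rw [bon_zero] at h0 ⊢
      have he0 : bon_G x (fun n => if n = 0 then (1 : ℝ) else 0) R = 1 := by
        rw [← bon_e]
        simp
      rw [he0]
      simp only [pow_zero, one_mul] at h0 ⊢
      constructor
      · nlinarith [mul_nonneg ha0 hP0, h0.1]
      · nlinarith [mul_le_mul_of_nonneg_left hP1 ha0, h0.2]
    · have h1 := ih hx' (k + 1)
      have h2 := ih hx' k
      rw [bon_insert x _ R a ha, bon_neg]
      set A := bon_G x (fun n => if n ≤ k + 1 then (-1 : ℝ) ^ n else 0) R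
      set B := bon_G x (fun n => if n ≤ k then (-1 : ℝ) ^ n else 0) R
      set P := ∏ r ∈ R, (1 - x r)
      have hid : (-1 : ℝ) ^ (k + 1) * (A + x a * -B - (1 - x a) * P) =
          (-1 : ℝ) ^ (k + 1) * (A - P) + x a * ((-1 : ℝ) ^ k * (B - P)) := by
        rw [pow_succ]; ring
      rw [hid]
      constructor
      · exact add_nonneg h1.1 (mul_nonneg ha0 h2.1)
      · exact add_le_add h1.2 (mul_le_mul_of_nonneg_left h2.2 ha0)

theorem p_bon : S_bon := by
  intro R x k hx
  rw [bon_F, bon_e]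
  obtain ⟨h1, h2⟩ := bon_main x R hx k
  have h3 : |(-1 : ℝ) ^ k * (bon_G x (fun n => if n ≤ k then (-1 : ℝ) ^ n else 0) R -
        ∏ r ∈ R, (1 - x r))| = |bon_G x (fun n => if n ≤ k then (-1 : ℝ) ^ n else 0) R -
        ∏ r ∈ R, (1 - x r)| := by
    rw [abs_mul]
    simp
  rw [← h3, abs_of_nonneg h1]
  exact h2

end Pool.Agent.Lib.MP1e1427.LG
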