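import Pool.Agent.Lib.MP_1e1427_nt.LG.Stm

/-!
# MP_1e1427_nt, project LG, piece `cls` (helper48)
-/

set_option autoImplicit false

namespace Pool.Agent.Lib.MP1e1427.LG

open Finset ArithmeticFunction
open Pool.Agent.Lib.MP1e1427

lemma cls_mem_ibox {K : ℕ} {w : (ℕ × ℕ) × (ℕ × ℕ)} :
    w ∈ ibox K ↔ (w.1.1 < K ∧ w.1.2 < K) ∧ (w.2.1 < K ∧ w.2.2 < K) := by
  unfold ibox
  simp only [mem_product, mem_range]

lemma cls_abs_gs_le (F : ℕ → ℝ) (N Q : ℕ) (T : ℝ) (hF : ∀ d, |F d| ≤ 1) (hQ : 0 < Q)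
    (hT : (Q.divisors.card : ℝ) ≤ T) : |gs F N Q| ≤ T := by
  unfold gs
  calc |∑ d ∈ (Ioc 0 N).filter (fun d => d ∣ Q), F d| ≤
      ∑ d ∈ (Ioc 0 N).filter (fun d => d ∣ Q), |F d| := Finset.abs_sum_le_sum_abs _ _
    _ ≤ ∑ d ∈ (Ioc 0 N).filter (fun d => d ∣ Q), (1 : ℝ) := Finset.sum_le_sum (fun d _ => hF d)
    _ = (((Ioc 0 N).filter (fun d => d ∣ Q)).card : ℝ) := by simp
    _ ≤ (Q.divisors.card : ℝ) := by
        exact_mod_cast Finset.card_le_card (fun d hd => by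
          rw [mem_filter] at hd
          exact Nat.mem_divisors.mpr ⟨hd.2, hQ.ne'⟩)
    _ ≤ T := hT

/-- The sum over one block. -/
lemma cls_block (m N W D K₁ a b : ℕ) (F : ℕ → ℝ) (T : ℝ) (hm : 0 < m)
    (hWD2 : (W * D) % 2 = 0) (hF : ∀ d, |F d| ≤ 1)
    (hFV : ∀ d, ¬ Nat.Coprime d (W * D) → F d = 0)
    (hle : ∀ w ∈ ibox K₁, bpt a (W * D) w.1 ^ 2 + bpt b (W * D) w.2 ^ 2 ≤ m)
    (hT : ∀ k, 0 < k → k ≤ m * N → (k.divisors.card : ℝ) ≤ T) :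
    |∑ w ∈ ibox K₁, gs F N (Qw m a b (W * D) w) - (K₁ : ℝ) ^ 4 * MT F m N| ≤
      T ^ 6 * (2 * (K₁ : ℝ) ^ 3 + (K₁ : ℝ) ^ 2 * N) * (4 / 3 * r4 N ^ 3 * C32) := by
  have h1 : ∑ w ∈ ibox K₁, gs F N (Qw m a b (W * D) w) =
      ∑ d ∈ Ioc 0 N, F d * (cnt m d (W * D) K₁ a b : ℝ) := by
    unfold gs
    simp_rw [Finset.sum_filter]
    rw [Finset.sum_comm]
    apply Finset.sum_congr rfl
    intro d _
    rw [← Finset.sum_filter, Finset.sum_const, nsmul_eq_mul, cnt_eq_card hle, mul_comm]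
  have h2 : ∑ w ∈ ibox K₁, gs F N (Qw m a b (W * D) w) - (K₁ : ℝ) ^ 4 * MT F m N =
      ∑ d ∈ Ioc 0 N, F d * ((cnt m d (W * D) K₁ a b : ℝ) -
        (K₁ : ℝ) ^ 4 * ((rfun m d : ℤ) : ℝ) / (d : ℝ) ^ 2) := by
    rw [h1]
    unfold MT
    rw [Finset.mul_sum, ← Finset.sum_sub_distrib]
    apply Finset.sum_congr rfl
    intro d _
    ring
  rw [h2]
  refine le_trans (Finset.abs_sum_le_sum_abs _ _) (le_trans ?_
    (sum_error_le m N (W * D) K₁ a b T hm hWD2 hT))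
  apply Finset.sum_le_sum
  intro d _
  rw [abs_mul]
  split_ifs with hc
  · calc _ ≤ 1 * |(cnt m d (W * D) K₁ a b : ℝ) -
        (K₁ : ℝ) ^ 4 * ((rfun m d : ℤ) : ℝ) / (d : ℝ) ^ 2| :=
        mul_le_mul_of_nonneg_right (hF d) (abs_nonneg _)
      _ = _ := one_mul _
  · rw [hFV d hc]; simp

theorem p_cls (hb : S_blk) : S_cls := by
  classical
  intro m N W K D a₀ b₀ F T hm hW hW2 hN hD hWD hF hFV hlt hT s t
  obtain ⟨hblk, hlft, hcnd⟩ := hb D hD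
  obtain ⟨K₁, hK₁⟩ : ∃ K₁, K₁ = K / D := ⟨_, rfl⟩
  obtain ⟨hsub, hcard, hpow⟩ := hlft K
  rw [← hK₁] at hsub hcard hpow
  have hD0 : (0 : ℝ) < D := by exact_mod_cast hD
  have hD1 : (1 : ℝ) ≤ D := by exact_mod_cast hD
  have hT1 : (1 : ℝ) ≤ T := by
    have := hT 1 one_pos (Nat.mul_pos hm hN)
    simpa using this
  have hT0 : (0 : ℝ) ≤ T := by linarith
  have hK0 : (0 : ℝ) ≤ K := by positivity
  have hWD2 : (W * D) % 2 = 0 := by rw [Nat.mul_mod, hW2]; simp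
  have hgs : ∀ w ∈ ibox K, |gs F N (Qw m a₀ b₀ W w)| ≤ T := by
    intro w hw
    have h1 := hlt w hw
    have hQ0 : 0 < Qw m a₀ b₀ W w := by unfold Qw; omega
    apply cls_abs_gs_le F N _ T hF hQ0
    apply hT _ hQ0
    calc Qw m a₀ b₀ W w ≤ m := Nat.sub_le _ _
      _ ≤ m * N := Nat.le_mul_of_pos_right m hN
  -- the class predicate
  set pr : (ℕ × ℕ) × (ℕ × ℕ) → Prop := fun w =>
    bpt a₀ W w.1 ≡ s [MOD D] ∧ bpt b₀ W w.2 ≡ t [MOD D] with hpr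
  set G : ℕ → ℕ → ℝ := fun a b =>
    if a ≡ s [MOD D] ∧ b ≡ t [MOD D] then gs F N (m - (a ^ 2 + b ^ 2)) else 0 with hG
  have hsplit : ∑ w ∈ (ibox K).filter pr, gs F N (Qw m a₀ b₀ W w) =
      ∑ w ∈ (ibox (D * K₁)).filter pr, gs F N (Qw m a₀ b₀ W w) +
      ∑ w ∈ (ibox K \ ibox (D * K₁)).filter pr, gs F N (Qw m a₀ b₀ W w) := by
    rw [← Finset.sum_union]
    · congr 1
      ext w
      simp only [mem_filter, mem_union, mem_sdiff]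
      constructor
      · rintro ⟨h1, h2⟩
        by_cases h3 : w ∈ ibox (D * K₁)
        · exact Or.inl ⟨h3, h2⟩
        · exact Or.inr ⟨⟨h1, h3⟩, h2⟩
      · rintro (⟨h1, h2⟩ | ⟨⟨h1, _⟩, h2⟩)
        · exact ⟨hsub h1, h2⟩
        · exact ⟨h1, h2⟩
    · rw [Finset.disjoint_left]
      intro w h1 h2
      simp only [mem_filter, mem_sdiff] at h1 h2
      exact h2.1.2 h1.1
  have hrest : |∑ w ∈ (ibox K \ ibox (D * K₁)).filter pr, gs F N (Qw m a₀ b₀ W w)| ≤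
      4 * (K : ℝ) ^ 3 * D * T := by
    calc _ ≤ ∑ w ∈ (ibox K \ ibox (D * K₁)).filter pr, |gs F N (Qw m a₀ b₀ W w)| :=
          Finset.abs_sum_le_sum_abs _ _
      _ ≤ ∑ w ∈ (ibox K \ ibox (D * K₁)).filter pr, T := by
          apply Finset.sum_le_sum
          intro w hw
          exact hgs w (mem_sdiff.mp (mem_filter.mp hw).1).1
      _ = (((ibox K \ ibox (D * K₁)).filter pr).card : ℝ) * T := by
          rw [Finset.sum_const, nsmul_eq_mul]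
      _ ≤ (4 * (K : ℝ) ^ 3 * D) * T := by
          apply mul_le_mul_of_nonneg_right _ hT0
          have h1 : ((ibox K \ ibox (D * K₁)).filter pr).card ≤ 4 * K ^ 3 * D :=
            (Finset.card_filter_le _ _).trans hcard
          exact_mod_cast h1
  -- the main part
  have hmain1 : ∑ w ∈ (ibox (D * K₁)).filter pr, gs F N (Qw m a₀ b₀ W w) =
      ∑ v ∈ (ibox D).filter pr, ∑ w ∈ ibox K₁,
        gs F N (Qw m (bpt a₀ W v.1) (bpt b₀ W v.2) (W * D) w) := by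
    have h1 : ∑ w ∈ (ibox (D * K₁)).filter pr, gs F N (Qw m a₀ b₀ W w) =
        ∑ w ∈ ibox (D * K₁), G (bpt a₀ W w.1) (bpt b₀ W w.2) := by
      rw [Finset.sum_filter]
      apply Finset.sum_congr rfl
      intro w _
      simp only [hG, hpr]
      rfl
    rw [h1, hblk K₁ W a₀ b₀ G, Finset.sum_filter]
    apply Finset.sum_congr rfl
    intro v _
    have h2 : ∀ (c : ℕ) (u w : ℕ × ℕ), bpt (bpt c W u) (W * D) w ≡ bpt c W u [MOD D] := by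
      intro c u w
      exact (bpt_modEq (bpt c W u) (W * D) w).of_dvd (dvd_mul_left D W)
    by_cases hv : pr v
    · rw [if_pos hv]
      apply Finset.sum_congr rfl
      intro w _
      simp only [hG]
      rw [if_pos ⟨(h2 a₀ v.1 w.1).trans hv.1, (h2 b₀ v.2 w.2).trans hv.2⟩]
      rfl
    · rw [if_neg hv]
      apply Finset.sum_eq_zero
      intro w _
      simp only [hG]
      rw [if_neg]
      rintro ⟨h3, h4⟩
      exact hv ⟨(h2 a₀ v.1 w.1).symm.trans h3, (h2 b₀ v.2 w.2).symm.trans h4⟩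
  have hle : ∀ v ∈ ibox D, ∀ w ∈ ibox K₁,
      bpt (bpt a₀ W v.1) (W * D) w.1 ^ 2 + bpt (bpt b₀ W v.2) (W * D) w.2 ^ 2 ≤ m := by
    intro v hv w hw
    rw [cls_mem_ibox] at hv hw
    have key : ∀ i₀ i₁ : ℕ, i₀ < D → i₁ < K₁ → i₀ + D * i₁ < D * K₁ := by
      intro i₀ i₁ h1 h2
      calc i₀ + D * i₁ < D + D * i₁ := by omega
        _ = D * (i₁ + 1) := by ring
        _ ≤ D * K₁ := Nat.mul_le_mul_left D h2
    have hu : ((v.1.1 + D * w.1.1, v.1.2 + D * w.1.2), (v.2.1 + D * w.2.1, v.2.2 + D * w.2.2)) ∈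
        ibox K := by
      apply hsub
      rw [cls_mem_ibox]
      exact ⟨⟨key _ _ hv.1.1 hw.1.1, key _ _ hv.1.2 hw.1.2⟩,
        ⟨key _ _ hv.2.1 hw.2.1, key _ _ hv.2.2 hw.2.2⟩⟩
    have h1 := (hlt _ hu).le
    have e : ∀ (c : ℕ) (p q : ℕ × ℕ), bpt (bpt c W p) (W * D) q =
        bpt c W (p.1 + D * q.1, p.2 + D * q.2) := by
      intro c p q
      unfold bpt
      ring
    rw [e, e]
    exact h1
  have hcnt := hcnd W a₀ b₀ s t hWD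
  set E0 : ℝ := T ^ 6 * (2 * (K₁ : ℝ) ^ 3 + (K₁ : ℝ) ^ 2 * N) * (4 / 3 * r4 N ^ 3 * C32) with hE0
  have hmain2 : |∑ v ∈ (ibox D).filter pr, ∑ w ∈ ibox K₁,
        gs F N (Qw m (bpt a₀ W v.1) (bpt b₀ W v.2) (W * D) w) -
        (D : ℝ) ^ 2 * ((K₁ : ℝ) ^ 4 * MT F m N)| ≤ (D : ℝ) ^ 2 * E0 := by
    have h1 : (D : ℝ) ^ 2 * ((K₁ : ℝ) ^ 4 * MT F m N) =
        ∑ v ∈ (ibox D).filter pr, ((K₁ : ℝ) ^ 4 * MT F m N) := by
      rw [Finset.sum_const, nsmul_eq_mul, hcnt]; push_cast; ring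
    have h2 : (D : ℝ) ^ 2 * E0 = ∑ v ∈ (ibox D).filter pr, E0 := by
      rw [Finset.sum_const, nsmul_eq_mul, hcnt]; push_cast; ring
    rw [h1, h2, ← Finset.sum_sub_distrib]
    refine (Finset.abs_sum_le_sum_abs _ _).trans ?_
    apply Finset.sum_le_sum
    intro v hv
    exact cls_block m N W D K₁ _ _ F T hm hWD2 hF hFV (hle v (mem_filter.mp hv).1) hT
  have hK1D : (D : ℝ) * K₁ ≤ K := by
    have : D * K₁ ≤ K := by rw [hK₁]; exact Nat.mul_div_le K D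
    exact_mod_cast this
  have hK10 : (0 : ℝ) ≤ K₁ := by positivity
  have hr : 0 ≤ 4 / 3 * r4 (N : ℝ) ^ 3 * C32 := by
    have h1 : 0 ≤ r4 (N : ℝ) := r4_nonneg (by positivity)
    have h2 := C32_nonneg
    positivity
  have hE : (D : ℝ) ^ 2 * E0 ≤
      T ^ 6 * (2 * (K : ℝ) ^ 3 + (K : ℝ) ^ 2 * N) * (4 / 3 * r4 N ^ 3 * C32) := by
    have h1 : (D : ℝ) ^ 2 * (K₁ : ℝ) ^ 2 ≤ (K : ℝ) ^ 2 := by
      rw [← mul_pow]; gcongr
    have h2 : (D : ℝ) ^ 2 * (K₁ : ℝ) ^ 3 ≤ (K : ℝ) ^ 3 := by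
      have h3 : (D : ℝ) ^ 3 * (K₁ : ℝ) ^ 3 ≤ (K : ℝ) ^ 3 := by rw [← mul_pow]; gcongr
      refine le_trans ?_ h3
      gcongr
      norm_num
    have h4 : (D : ℝ) ^ 2 * (2 * (K₁ : ℝ) ^ 3 + (K₁ : ℝ) ^ 2 * N) ≤
        2 * (K : ℝ) ^ 3 + (K : ℝ) ^ 2 * N := by
      have h5 : (D : ℝ) ^ 2 * (K₁ : ℝ) ^ 2 * N ≤ (K : ℝ) ^ 2 * N :=
        mul_le_mul_of_nonneg_right h1 (by positivity)
      linarith
    have h6 : (D : ℝ) ^ 2 * E0 = T ^ 6 * ((D : ℝ) ^ 2 * (2 * (K₁ : ℝ) ^ 3 + (K₁ : ℝ) ^ 2 * N)) *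
        (4 / 3 * r4 N ^ 3 * C32) := by rw [hE0]; ring
    rw [h6]
    apply mul_le_mul_of_nonneg_right _ hr
    apply mul_le_mul_of_nonneg_left h4 (by positivity)
  have hMU : |MT F m N| ≤ UU m N := by
    unfold MT UU
    refine (Finset.abs_sum_le_sum_abs _ _).trans ?_
    apply Finset.sum_le_sum
    intro d _
    rw [abs_div, abs_mul, abs_of_nonneg (by positivity : (0 : ℝ) ≤ (d : ℝ) ^ 2)]
    apply div_le_div_of_nonneg_right _ (by positivity)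
    calc _ ≤ 1 * |((rfun m d : ℤ) : ℝ)| := mul_le_mul_of_nonneg_right (hF d) (abs_nonneg _)
      _ = _ := one_mul _
  have hU0 : 0 ≤ UU m N := (abs_nonneg _).trans hMU
  have hround : |(D : ℝ) ^ 2 * ((K₁ : ℝ) ^ 4 * MT F m N) - (K : ℝ) ^ 4 / (D : ℝ) ^ 2 * MT F m N| ≤
      4 * (K : ℝ) ^ 3 * D * UU m N := by
    have h1 : (D : ℝ) ^ 2 * ((K₁ : ℝ) ^ 4 * MT F m N) - (K : ℝ) ^ 4 / (D : ℝ) ^ 2 * MT F m N =
        -(((K : ℝ) ^ 4 - ((D * K₁ : ℕ) : ℝ) ^ 4) / (D : ℝ) ^ 2) * MT F m N := by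
      push_cast
      field_simp
      ring
    rw [h1, abs_mul, abs_neg]
    have h2 : 0 ≤ (K : ℝ) ^ 4 - ((D * K₁ : ℕ) : ℝ) ^ 4 := by
      push_cast
      have : ((D : ℝ) * K₁) ^ 4 ≤ (K : ℝ) ^ 4 := by gcongr
      linarith
    rw [abs_of_nonneg (by positivity)]
    apply mul_le_mul _ hMU (abs_nonneg _) (by positivity)
    calc ((K : ℝ) ^ 4 - ((D * K₁ : ℕ) : ℝ) ^ 4) / (D : ℝ) ^ 2 ≤
        (K : ℝ) ^ 4 - ((D * K₁ : ℕ) : ℝ) ^ 4 := div_le_self h2 (one_le_pow₀ hD1)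
      _ ≤ _ := hpow
  unfold EB
  rw [hsplit, hmain1]
  have hfin : ∀ A B C X Y Z e1 e2 e3 : ℝ, |A - X| ≤ e1 → |B| ≤ e2 → |X - Y| ≤ e3 →
      |A + B - Y| ≤ e1 + (e2 + e3) := by
    intro A B C X Y Z e1 e2 e3 h1 h2 h3
    rw [abs_le] at *
    constructor <;> linarith [h1.1, h1.2, h2.1, h2.2, h3.1, h3.2]
  have h9 := hfin _ _ 0 _ _ 0 _ _ _ (hmain2.trans hE) hrest hround
  refine h9.trans (le_of_eq ?_)
  ring

end Pool.Agent.Lib.MP1e1427.LG
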