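import Pool.Agent.Lib.MP_1e1427_nt.LG.Stm

/-!
# MP_1e1427_nt, project LG, piece `cor` (helper18): upper bound by the sums of two squares
-/

set_option autoImplicit false

namespace Pool.Agent.Lib.MP1e1427.LG

open Finset ArithmeticFunction
open Pool.Agent.Lib.MP1e1427

lemma cor_coprime {m W K a₀ b₀ : ℕ} {R : Finset ℕ} {B : ℕ → Finset (ℕ × ℕ)}
    (hR : ∀ r ∈ R, r.Prime)
    (hB : ∀ r ∈ R, ∀ a b : ℕ, m ≡ a ^ 2 + b ^ 2 [MOD r] → (a % r, b % r) ∈ B r)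
    (hlt : ∀ w ∈ ibox K, bpt a₀ W w.1 ^ 2 + bpt b₀ W w.2 ^ 2 < m)
    (hQW : ∀ w ∈ ibox K, Nat.Coprime (Qw m a₀ b₀ W w) W) {w : (ℕ × ℕ) × (ℕ × ℕ)}
    (hw : w ∈ gbox R B K a₀ b₀ W) : Nat.Coprime (Qw m a₀ b₀ W w) (VV W R) := by
  unfold gbox at hw
  rw [mem_filter] at hw
  unfold VV
  rw [Nat.coprime_mul_iff_right]
  refine ⟨hQW w hw.1, ?_⟩
  rw [Nat.coprime_prod_right_iff]
  intro r hr
  rw [Nat.coprime_comm, (hR r hr).coprime_iff_not_dvd]
  intro hd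
  apply hw.2 r hr
  apply hB r hr
  unfold Qw at hd
  exact ((Nat.modEq_iff_dvd' (hlt w hw.1).le).2 hd).symm

theorem p_cor : S_cor := by
  intro m N N' W K a₀ b₀ T R B hm hW hW2 hN hNN' hR hB hlt hQ4 hQW hD hD' hT
  classical
  have hsub : gbox R B K a₀ b₀ W ⊆ ibox K := Finset.filter_subset _ _
  have hle : ∀ w ∈ ibox K, bpt a₀ W w.1 ^ 2 + bpt b₀ W w.2 ^ 2 ≤ m :=
    fun w hw => (hlt w hw).le
  -- pointwise bound
  have h1 : ∑ w ∈ gbox R B K a₀ b₀ W, gs (Fchi (VV W R)) N (Qw m a₀ b₀ W w) ≤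
      T * (((gbox R B K a₀ b₀ W).filter
        (fun w => ∃ u v : ℕ, Qw m a₀ b₀ W w = u ^ 2 + v ^ 2)).card : ℝ) +
      ∑ w ∈ gbox R B K a₀ b₀ W, (((Ioc N N').filter (fun d => d ∣ Qw m a₀ b₀ W w)).card : ℝ) := by
    have e1 : T * (((gbox R B K a₀ b₀ W).filter
        (fun w => ∃ u v : ℕ, Qw m a₀ b₀ W w = u ^ 2 + v ^ 2)).card : ℝ) =
        ∑ w ∈ gbox R B K a₀ b₀ W,
          (if ∃ u v : ℕ, Qw m a₀ b₀ W w = u ^ 2 + v ^ 2 then T else 0) := by
      rw [← Finset.sum_filter, Finset.sum_const, nsmul_eq_mul, mul_comm]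
    rw [e1, ← sum_add_distrib]
    apply Finset.sum_le_sum
    intro w hw
    have hwK := hsub hw
    have e2 : gs (Fchi (VV W R)) N (Qw m a₀ b₀ W w) =
        ∑ d ∈ (Ioc 0 N).filter (fun d => d ∣ Qw m a₀ b₀ W w), (chi d : ℝ) := by
      unfold gs
      apply Finset.sum_congr rfl
      intro d hd
      rw [mem_filter] at hd
      unfold Fchi
      rw [if_pos]
      exact Nat.Coprime.coprime_dvd_left hd.2 (cor_coprime hR hB hlt hQW hw)
    rw [e2]
    refine (small_div_le (hQ4 w hwK) (hD w hwK) (hD' w hwK)).trans ?_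
    apply add_le_add_left
    by_cases h : ∃ u v : ℕ, Qw m a₀ b₀ W w = u ^ 2 + v ^ 2
    · rw [if_pos h, if_pos h]
      apply hT
      · have := hD w hwK; omega
      · calc Qw m a₀ b₀ W w ≤ m := Nat.sub_le _ _
          _ ≤ m * N' := Nat.le_mul_of_pos_right m (by omega)
    · rw [if_neg h, if_neg h]
  have h2 : ∑ w ∈ gbox R B K a₀ b₀ W,
        (((Ioc N N').filter (fun d => d ∣ Qw m a₀ b₀ W w)).card : ℝ) ≤
      ∑ w ∈ ibox K, (((Ioc N N').filter (fun d => d ∣ Qw m a₀ b₀ W w)).card : ℝ) := by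
    apply Finset.sum_le_sum_of_subset_of_nonneg hsub
    intros; positivity
  have hcop : ∀ w ∈ ibox K, ∀ d, d ∣ Qw m a₀ b₀ W w → Nat.Coprime d W :=
    fun w hw d hd => Nat.Coprime.coprime_dvd_left hd (hQW w hw)
  have h3 : ∑ w ∈ ibox K, (((Ioc N N').filter (fun d => d ∣ Qw m a₀ b₀ W w)).card : ℝ) =
      ∑ d ∈ Ioc N N', (if Nat.Coprime d W then (cnt m d W K a₀ b₀ : ℝ) else 0) := by
    have : ∀ w ∈ ibox K, (((Ioc N N').filter (fun d => d ∣ Qw m a₀ b₀ W w)).card : ℝ) =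
        ∑ d ∈ Ioc N N', if d ∣ Qw m a₀ b₀ W w then (1 : ℝ) else 0 := by
      intro w _
      rw [← Finset.sum_filter]; simp
    rw [Finset.sum_congr rfl this, Finset.sum_comm]
    apply Finset.sum_congr rfl
    intro d _
    rw [← Finset.sum_filter, Finset.sum_const, nsmul_eq_mul, cnt_eq_card hle, mul_one]
    split_ifs with hc
    · rfl
    · rw [Finset.filter_eq_empty_iff.mpr, card_empty]
      · simp
      · intro w hw hd
        exact hc (hcop w hw d hd)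
  have h5 : ∑ d ∈ Ioc N N', (if Nat.Coprime d W then (cnt m d W K a₀ b₀ : ℝ) else 0) ≤
      (K : ℝ) ^ 4 * ∑ d ∈ Ioc N N', |((rfun m d : ℤ) : ℝ)| / (d : ℝ) ^ 2 +
      ∑ d ∈ Ioc N N', (if Nat.Coprime d W then |Err m W K a₀ b₀ d| else 0) := by
    rw [mul_sum, ← sum_add_distrib]
    apply Finset.sum_le_sum
    intro d _
    split_ifs
    · have e1 : (cnt m d W K a₀ b₀ : ℝ) =
          (K : ℝ) ^ 4 * (((rfun m d : ℤ) : ℝ) / (d : ℝ) ^ 2) + Err m W K a₀ b₀ d := by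
        unfold Err; ring
      rw [e1]
      have e2 := le_abs_self ((rfun m d : ℤ) : ℝ)
      have e3 := le_abs_self (Err m W K a₀ b₀ d)
      gcongr
    · positivity
  have h6 : ∑ d ∈ Ioc N N', (if Nat.Coprime d W then |Err m W K a₀ b₀ d| else 0) ≤
      ∑ d ∈ Ioc 0 N', (if Nat.Coprime d W then |Err m W K a₀ b₀ d| else 0) := by
    apply Finset.sum_le_sum_of_subset_of_nonneg
    · intro x hx
      rw [mem_Ioc] at hx ⊢
      omega
    · intro d _ _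
      split_ifs
      · positivity
      · exact le_rfl
  have h7 := sum_error_le m N' W K a₀ b₀ T hm hW2 hT
  have hN0 : (0 : ℝ) < N := by exact_mod_cast hN
  have h4 : ∑ d ∈ Ioc N N', |((rfun m d : ℤ) : ℝ)| / (d : ℝ) ^ 2 ≤ (N' - N : ℝ) * (T ^ 2 / N) := by
    have h5 : ∀ d ∈ Ioc N N', |((rfun m d : ℤ) : ℝ)| / (d : ℝ) ^ 2 ≤ T ^ 2 / N := by
      intro d hd
      rw [mem_Ioc] at hd
      have hd1 : 0 < d := by omega
      have hd0 : (0 : ℝ) < d := by exact_mod_cast hd1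
      have hDd : (N : ℝ) ≤ d := by exact_mod_cast hd.1.le
      have h6 : (d.divisors.card : ℝ) ≤ T :=
        hT d hd1 (hd.2.trans (Nat.le_mul_of_pos_left N' hm))
      calc _ ≤ (d * (d.divisors.card : ℝ) ^ 2) / (d : ℝ) ^ 2 :=
            div_le_div_of_nonneg_right (abs_rfun_le m d) (by positivity)
        _ = (d.divisors.card : ℝ) ^ 2 / d := by field_simp
        _ ≤ T ^ 2 / N := by gcongr
    calc _ ≤ ∑ d ∈ Ioc N N', T ^ 2 / N := Finset.sum_le_sum h5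
      _ = _ := by
        rw [sum_const, Nat.card_Ioc, nsmul_eq_mul, Nat.cast_sub hNN']
  have h8 := mul_le_mul_of_nonneg_left h4 (by positivity : (0 : ℝ) ≤ (K : ℝ) ^ 4)
  unfold Err at h5 h6
  linarith

end Pool.Agent.Lib.MP1e1427.LG
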