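import Pool.Agent.Lib.MP_1e1427_nt.LG.Stm

/-!
# Piece crt: Chinese remainder count
-/

set_option autoImplicit false

namespace Pool.Agent.Lib.MP1e1427.LG

open Finset

private theorem crt_lt (M r : ℕ) (h : M.Coprime r) (hM : 0 < M) (hr : 0 < r) (x y : ℕ) :
    (Nat.chineseRemainder h x y : ℕ) < M * r :=
  Nat.chineseRemainder_lt_mul h x y hM.ne' hr.ne'

private theorem crt_left (M r : ℕ) (h : M.Coprime r) (x y : ℕ) (hx : x < M) :
    (Nat.chineseRemainder h x y : ℕ) % M = x := by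
  have h1 : (Nat.chineseRemainder h x y : ℕ) ≡ x [MOD M] := (Nat.chineseRemainder h x y).2.1
  have h2 : (Nat.chineseRemainder h x y : ℕ) % M = x % M := h1
  rw [h2, Nat.mod_eq_of_lt hx]

private theorem crt_right (M r : ℕ) (h : M.Coprime r) (x y : ℕ) (hy : y < r) :
    (Nat.chineseRemainder h x y : ℕ) % r = y := by
  have h1 : (Nat.chineseRemainder h x y : ℕ) ≡ y [MOD r] := (Nat.chineseRemainder h x y).2.2
  have h2 : (Nat.chineseRemainder h x y : ℕ) % r = y % r := h1
  rw [h2, Nat.mod_eq_of_lt hy]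

private theorem crt_inv (M r : ℕ) (h : M.Coprime r) (hM : 0 < M) (hr : 0 < r) (s : ℕ)
    (hs : s < M * r) : (Nat.chineseRemainder h (s % M) (s % r) : ℕ) = s := by
  have h1 : s ≡ Nat.chineseRemainder h (s % M) (s % r) [MOD M * r] :=
    Nat.chineseRemainder_modEq_unique h (Nat.mod_modEq s M).symm (Nat.mod_modEq s r).symm
  exact (Nat.ModEq.eq_of_lt_of_lt h1 hs (crt_lt M r h hM hr _ _)).symm

theorem p_crt : S_crt := by
  intro D
  induction D using Finset.induction_on with
  | empty =>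
    intro B _ _
    simp
  | insert r D hrD ih =>
    intro B hp hB
    have hpD : ∀ p ∈ D, p.Prime := fun p h => hp p (mem_insert_of_mem h)
    have hr : r.Prime := hp r (mem_insert_self _ _)
    have ih' := ih B hpD (fun p h => hB p (mem_insert_of_mem h))
    have hM : 0 < ∏ p ∈ D, p := prod_pos (fun p h => (hpD p h).pos)
    have hcop : (∏ p ∈ D, p).Coprime r := by
      apply Nat.Coprime.prod_left
      intro p h
      rw [Nat.coprime_primes (hpD p h) hr]
      rintro rfl
      exact hrD h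
    have hdvd : ∀ p ∈ D, p ∣ ∏ p ∈ D, p := fun p h => dvd_prod_of_mem _ h
    rw [prod_insert hrD, prod_insert hrD, ← ih', mul_comm (B r).card, ← card_product]
    obtain ⟨M, hMd⟩ : ∃ M, M = ∏ p ∈ D, p := ⟨_, rfl⟩
    rw [← hMd] at hM hcop hdvd ⊢
    have hBr : ∀ q ∈ B r, q.1 < r ∧ q.2 < r := by
      intro q hq
      have := hB r (mem_insert_self _ _) hq
      rw [mem_product, mem_range, mem_range] at this
      exact this
    have hmod : ∀ (x y p : ℕ), p ∈ D → x < M →
        (Nat.chineseRemainder hcop x y : ℕ) % p = x % p := by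
      intro x y p h hx
      rw [← Nat.mod_mod_of_dvd _ (hdvd p h), crt_left M r hcop x y hx]
    refine Finset.card_bij'
      (fun st _ => ((st.1 % M, st.2 % M), (st.1 % r, st.2 % r)))
      (fun q _ => ((Nat.chineseRemainder hcop q.1.1 q.2.1 : ℕ),
        (Nat.chineseRemainder hcop q.1.2 q.2.2 : ℕ))) ?_ ?_ ?_ ?_
    · rintro ⟨s, t⟩ h
      rw [mem_filter, mem_product, mem_range, mem_range] at h
      obtain ⟨_, h2⟩ := h
      rw [mem_product, mem_filter, mem_product, mem_range, mem_range]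
      refine ⟨⟨⟨Nat.mod_lt _ hM, Nat.mod_lt _ hM⟩, ?_⟩, h2 r (mem_insert_self _ _)⟩
      intro p hpm
      show (s % M % p, t % M % p) ∈ B p
      rw [Nat.mod_mod_of_dvd _ (hdvd p hpm), Nat.mod_mod_of_dvd _ (hdvd p hpm)]
      exact h2 p (mem_insert_of_mem hpm)
    · rintro ⟨⟨s1, t1⟩, ⟨s2, t2⟩⟩ h
      rw [mem_product, mem_filter, mem_product, mem_range, mem_range] at h
      obtain ⟨⟨⟨hs, ht⟩, h2⟩, h3⟩ := h
      obtain ⟨h4, h5⟩ := hBr _ h3
      rw [mem_filter, mem_product, mem_range, mem_range, mul_comm r M]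
      refine ⟨⟨crt_lt M r hcop hM hr.pos _ _, crt_lt M r hcop hM hr.pos _ _⟩, ?_⟩
      intro p hpm
      rw [mem_insert] at hpm
      rcases hpm with rfl | hpm
      · show ((Nat.chineseRemainder hcop s1 s2 : ℕ) % p, (Nat.chineseRemainder hcop t1 t2 : ℕ) % p) ∈ B p
        rw [crt_right M p hcop _ _ h4, crt_right M p hcop _ _ h5]
        exact h3
      · show ((Nat.chineseRemainder hcop s1 s2 : ℕ) % p, (Nat.chineseRemainder hcop t1 t2 : ℕ) % p) ∈ B p
        rw [hmod s1 s2 p hpm hs, hmod t1 t2 p hpm ht]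
        exact h2 p hpm
    · rintro ⟨s, t⟩ h
      rw [mem_filter, mem_product, mem_range, mem_range, mul_comm r M] at h
      obtain ⟨⟨hs, ht⟩, _⟩ := h
      show ((Nat.chineseRemainder hcop (s % M) (s % r) : ℕ),
        (Nat.chineseRemainder hcop (t % M) (t % r) : ℕ)) = (s, t)
      rw [crt_inv M r hcop hM hr.pos s hs, crt_inv M r hcop hM hr.pos t ht]
    · rintro ⟨⟨s1, t1⟩, ⟨s2, t2⟩⟩ h
      rw [mem_product, mem_filter, mem_product, mem_range, mem_range] at h
      obtain ⟨⟨⟨hs, ht⟩, _⟩, h3⟩ := h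
      obtain ⟨h4, h5⟩ := hBr _ h3
      show (((Nat.chineseRemainder hcop s1 s2 : ℕ) % M, (Nat.chineseRemainder hcop t1 t2 : ℕ) % M),
        ((Nat.chineseRemainder hcop s1 s2 : ℕ) % r, (Nat.chineseRemainder hcop t1 t2 : ℕ) % r)) = _
      rw [crt_left M r hcop _ _ hs, crt_left M r hcop _ _ ht, crt_right M r hcop _ _ h4,
        crt_right M r hcop _ _ h5]

end Pool.Agent.Lib.MP1e1427.LG
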