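import Pool.Agent.Lib.MP_1e1427_nt.LG.Stm

/-!
# MP_1e1427_nt, project LG, piece dst: the sieve engine
-/

set_option autoImplicit false

namespace Pool.Agent.Lib.MP1e1427.LG

open Finset ArithmeticFunction
open Pool.Agent.Lib.MP1e1427

/-- the main term -/
private lemma dst_mt (C c : ℝ) (hC : 1 ≤ C) (hc : 0 ≤ c) :
    ∃ y₁ : ℝ, 2 ≤ y₁ ∧ ∀ y : ℝ, y₁ ≤ y → ∀ t : ℝ, y ^ 100 ≤ t → ∀ N ρ A L q τ MT : ℝ,
      t ^ 4 / 2 ≤ N → t / 2 ≤ ρ → 0 ≤ A → A ≤ y → 1 ≤ q → q ≤ y → 3 / (4 * q) ≤ L →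
      0 ≤ τ → τ ≤ C * y →
      L / 2 - A * c / ρ - 4 * A * ((2 * A * c / L) ^ 4 + 1) * τ / N ≤ MT →
      3 / (16 * q) ≤ MT := by
  refine ⟨max 2 (max (64 * c) (512 * C)), le_max_left _ _, ?_⟩
  intro y hy t ht N ρ A L q τ MT hN hρ hA0 hA hq1 hq hL hτ0 hτ hmain
  have hy2 : 2 ≤ y := le_trans (le_max_left _ _) hy
  have hyc : 64 * c ≤ y := le_trans (le_trans (le_max_left _ _) (le_max_right _ _)) hy
  have hyC : 512 * C ≤ y := le_trans (le_trans (le_max_right _ _) (le_max_right _ _)) hy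
  have hy0 : 0 < y := by linarith
  have hy1 : 1 ≤ y := by linarith
  have ht0 : 0 < t := lt_of_lt_of_le (by positivity) ht
  have hpow : ∀ i : ℕ, i ≤ 100 → y ^ i ≤ t := fun i hi => (pow_le_pow_right₀ hy1 hi).trans ht
  have ht1 : 1 ≤ t := le_trans (by simp) (hpow 0 (by norm_num))
  have hq0 : 0 < q := by linarith
  have hN0 : 0 < N := lt_of_lt_of_le (by positivity) hN
  have hρ0 : 0 < ρ := lt_of_lt_of_le (by positivity) hρ
  have hL0 : 0 < L := lt_of_lt_of_le (by positivity) hL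
  have hLy : 3 / (4 * y) ≤ L := by
    refine le_trans ?_ hL
    apply div_le_div_of_nonneg_left (by norm_num) (by positivity)
    linarith
  have e1 : A * c / ρ ≤ L / 8 := by
    calc A * c / ρ ≤ y * c / (t / 2) := by
          apply div_le_div₀ (by positivity) (by gcongr) (by positivity) hρ
      _ = 2 * y * c / t := by field_simp
      _ ≤ 3 / (4 * y) / 8 := by
          rw [div_div, div_le_div_iff₀ (by positivity) (by positivity)]
          have h3 : y ^ 3 ≤ t := hpow 3 (by norm_num)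
          calc 2 * y * c * (4 * y * 8) = (64 * c) * y ^ 2 := by ring
            _ ≤ y * y ^ 2 := by gcongr
            _ = y ^ 3 := by ring
            _ ≤ 3 * t := by linarith
      _ ≤ L / 8 := by linarith
  have e2 : 2 * A * c / L ≤ y ^ 3 := by
    rw [div_le_iff₀ hL0]
    have h1 : y ^ 3 * (3 / (4 * y)) ≤ y ^ 3 * L := mul_le_mul_of_nonneg_left hLy (by positivity)
    have h2 : y ^ 3 * (3 / (4 * y)) = 3 / 4 * y ^ 2 := by field_simp
    rw [h2] at h1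
    have h3 : 2 * A * c ≤ 2 * y * (y / 64) := by
      have : c ≤ y / 64 := by linarith
      gcongr
    have h4 : 0 ≤ y ^ 2 := by positivity
    linarith
  have e3 : (2 * A * c / L) ^ 4 + 1 ≤ 2 * y ^ 12 := by
    have h1 : (2 * A * c / L) ^ 4 ≤ (y ^ 3) ^ 4 := pow_le_pow_left₀ (by positivity) e2 4
    have h2 : (y ^ 3) ^ 4 = y ^ 12 := by ring
    have h3 : 1 ≤ y ^ 12 := one_le_pow₀ hy1
    linarith
  have e4 : 4 * A * ((2 * A * c / L) ^ 4 + 1) * τ / N ≤ L / 8 := by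
    calc 4 * A * ((2 * A * c / L) ^ 4 + 1) * τ / N
        ≤ 4 * y * (2 * y ^ 12) * (C * y) / (t ^ 4 / 2) := by
          apply div_le_div₀ (by positivity) _ (by positivity) hN
          gcongr
      _ = 16 * C * y ^ 14 / t ^ 4 := by field_simp; norm_num
      _ ≤ 3 / (4 * y) / 8 := by
          rw [div_div, div_le_div_iff₀ (by positivity) (by positivity)]
          have h3 : y ^ 16 ≤ t := hpow 16 (by norm_num)
          have h4 : t ≤ t ^ 4 := le_self_pow₀ ht1 (by norm_num)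
          calc 16 * C * y ^ 14 * (4 * y * 8) = (512 * C) * y ^ 15 := by ring
            _ ≤ y * y ^ 15 := by gcongr
            _ = y ^ 16 := by ring
            _ ≤ 3 * t ^ 4 := by linarith
      _ ≤ L / 8 := by linarith
  have e5 : 3 / (16 * q) = 3 / (4 * q) / 4 := by field_simp; norm_num
  rw [e5]
  linarith

/-- the numerical inequality -/
private lemma dst_num (C c : ℝ) (hC : 1 ≤ C) (hc : 0 ≤ c) :
    ∃ y₂ : ℝ, 2 ≤ y₂ ∧ ∀ y : ℝ, y₂ ≤ y → ∀ t : ℝ, y ^ 100 ≤ t →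
      ∀ K W N N' G r r' q U u M p e S MT : ℝ,
      t ^ 4 / (2 * y ^ 10) ≤ K → K ≤ t ^ 4 / y ^ 10 → 1 ≤ W → W ≤ y → t ^ 4 / 2 ≤ N →
      N ≤ N' → N' ≤ t ^ 4 → N' - N ≤ 9 * K * W → 0 ≤ r → r ≤ t → 0 ≤ r' → r' ≤ t →
      1 ≤ q → q ≤ y → 0 ≤ U → U ≤ u → u ≤ y → 0 ≤ M → M ≤ y → 1 / y ≤ p → 0 ≤ e →
      0 ≤ S → S ≤ y → 64 * u * e * q ≤ p → 3 / (16 * q) ≤ MT →
      K ^ 4 * (MT * p - 2 * U * e) -
        ((C * y) ^ 6 * (2 * K ^ 3 + K ^ 2 * N) * (4 / 3 * r ^ 3 * c) +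
          4 * K ^ 3 * M * (C * y + U)) * S ≤
        (C * y) * G + (K ^ 4 * ((N' - N) * ((C * y) ^ 2 / N)) +
          (C * y) ^ 6 * (2 * K ^ 3 + K ^ 2 * N') * (4 / 3 * r' ^ 3 * c)) →
      t ^ 8 / y ^ 30 ≤ G / K ^ 2 := by
  obtain ⟨M0, hM0d⟩ : ∃ M0 : ℝ, M0 = 32 * C ^ 6 * c + 8 * (C + 1) + 18 * C ^ 2 := ⟨_, rfl⟩
  have hM0 : 0 < M0 := by rw [hM0d]; positivity
  refine ⟨max 2 (max (16 * M0) (64 * C)), le_max_left _ _, ?_⟩
  intro y hy t ht K W N N' G r r' q U u M p e S MT hK1 hK2 hW1 hW2 hN hNN hN' hNs hr0 hr hr0'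
    hr' hq1 hq hU0 hUu huy hM hMy hp he hS0 hS hep hMT hmain
  have hy2 : 2 ≤ y := le_trans (le_max_left _ _) hy
  have hyM : 16 * M0 ≤ y := le_trans (le_trans (le_max_left _ _) (le_max_right _ _)) hy
  have hyC : 64 * C ≤ y := le_trans (le_trans (le_max_right _ _) (le_max_right _ _)) hy
  have hy0 : 0 < y := by linarith
  have hy1 : 1 ≤ y := by linarith
  have ht0 : 0 < t := lt_of_lt_of_le (by positivity) ht
  have hK0 : 0 < K := lt_of_lt_of_le (by positivity) hK1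
  have hN0 : 0 < N := lt_of_lt_of_le (by positivity) hN
  have hq0 : 0 < q := by linarith
  have hp0 : 0 < p := lt_of_lt_of_le (by positivity) hp
  have hpow : ∀ i : ℕ, i ≤ 100 → y ^ i ≤ t := fun i hi => (pow_le_pow_right₀ hy1 hi).trans ht
  have ht1 : 1 ≤ t := le_trans (by simp) (hpow 0 (by norm_num))
  have hKt : t ^ 8 / (4 * y ^ 20) ≤ K ^ 2 := by
    calc t ^ 8 / (4 * y ^ 20) = (t ^ 4 / (2 * y ^ 10)) ^ 2 := by field_simp; norm_num
      _ ≤ K ^ 2 := pow_le_pow_left₀ (by positivity) hK1 2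
  have hK3 : K ≤ t ^ 4 := hK2.trans (div_le_self (by positivity) (one_le_pow₀ hy1))
  -- the error term of a divisor sum
  have hE : ∀ X ρ : ℝ, 0 ≤ X → X ≤ t ^ 4 → 0 ≤ ρ → ρ ≤ t →
      (C * y) ^ 6 * (2 * K ^ 3 + K ^ 2 * X) * (4 / 3 * ρ ^ 3 * c) ≤
        K ^ 4 * (16 * C ^ 6 * c / y ^ 4) := by
    intro X ρ hX0 hX hρ0 hρ
    have h1 : 2 * K ^ 3 + K ^ 2 * X ≤ K ^ 2 * (3 * t ^ 4) := by
      calc 2 * K ^ 3 + K ^ 2 * X = K ^ 2 * (2 * K + X) := by ring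
        _ ≤ K ^ 2 * (3 * t ^ 4) := by
            apply mul_le_mul_of_nonneg_left _ (by positivity)
            linarith
    have h2 : (C * y) ^ 6 * (2 * K ^ 3 + K ^ 2 * X) * (4 / 3 * ρ ^ 3 * c) ≤
        (C * y) ^ 6 * (K ^ 2 * (3 * t ^ 4)) * (4 / 3 * t ^ 3 * c) := by
      apply mul_le_mul
      · exact mul_le_mul_of_nonneg_left h1 (by positivity)
      · gcongr
      · positivity
      · positivity
    refine h2.trans ?_
    have h4 : (C * y) ^ 6 * (K ^ 2 * (3 * t ^ 4)) * (4 / 3 * t ^ 3 * c) =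
        K ^ 2 * (4 * C ^ 6 * c * (y ^ 6 * t ^ 7)) := by ring
    rw [h4]
    have h5 : y ^ 6 * t ^ 7 ≤ (t ^ 8 / (4 * y ^ 20)) * (4 / y ^ 4) := by
      have h6 : (t ^ 8 / (4 * y ^ 20)) * (4 / y ^ 4) = t ^ 8 / y ^ 24 := by field_simp
      rw [h6, le_div_iff₀ (by positivity)]
      have h7 : y ^ 30 ≤ t := hpow 30 (by norm_num)
      calc y ^ 6 * t ^ 7 * y ^ 24 = y ^ 30 * t ^ 7 := by ring
        _ ≤ t * t ^ 7 := by gcongr
        _ = t ^ 8 := by ring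
    calc K ^ 2 * (4 * C ^ 6 * c * (y ^ 6 * t ^ 7)) ≤
        K ^ 2 * (4 * C ^ 6 * c * ((t ^ 8 / (4 * y ^ 20)) * (4 / y ^ 4))) := by gcongr
      _ ≤ K ^ 2 * (4 * C ^ 6 * c * (K ^ 2 * (4 / y ^ 4))) := by gcongr
      _ = K ^ 4 * (16 * C ^ 6 * c / y ^ 4) := by ring
  have hN'0 : 0 < N' := by linarith
  have hE1 := hE N r hN0.le (hNN.trans hN') hr0 hr
  have hE2 := hE N' r' hN'0.le hN' hr0' hr'
  -- the boundary term
  have hE3 : 4 * K ^ 3 * M * (C * y + U) ≤ K ^ 4 * (8 * (C + 1) / y ^ 4) := by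
    have h1 : 4 * K ^ 3 * M * (C * y + U) ≤ 4 * K ^ 3 * y * (C * y + y) := by
      have : U ≤ y := hUu.trans huy
      gcongr
    have h2 : 4 * K ^ 3 * y * (C * y + y) = K ^ 3 * (4 * (C + 1) * y ^ 2) := by ring
    have h3 : 4 * (C + 1) * y ^ 2 ≤ K * (8 * (C + 1) / y ^ 4) := by
      have h4 : t ^ 4 / (2 * y ^ 10) * (8 * (C + 1) / y ^ 4) ≤ K * (8 * (C + 1) / y ^ 4) :=
        mul_le_mul_of_nonneg_right hK1 (by positivity)
      have h5 : t ^ 4 / (2 * y ^ 10) * (8 * (C + 1) / y ^ 4) =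
          4 * (C + 1) * (t ^ 4 / y ^ 14) := by field_simp; norm_num
      rw [h5] at h4
      refine le_trans ?_ h4
      have h6 : y ^ 2 ≤ t ^ 4 / y ^ 14 := by
        rw [le_div_iff₀ (by positivity)]
        calc y ^ 2 * y ^ 14 = y ^ 16 := by ring
          _ ≤ t := hpow 16 (by norm_num)
          _ ≤ t ^ 4 := le_self_pow₀ ht1 (by norm_num)
      exact mul_le_mul_of_nonneg_left h6 (by positivity)
    calc 4 * K ^ 3 * M * (C * y + U) ≤ K ^ 3 * (4 * (C + 1) * y ^ 2) := h1.trans h2.le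
      _ ≤ K ^ 3 * (K * (8 * (C + 1) / y ^ 4)) := mul_le_mul_of_nonneg_left h3 (by positivity)
      _ = K ^ 4 * (8 * (C + 1) / y ^ 4) := by ring
  have hEB : ((C * y) ^ 6 * (2 * K ^ 3 + K ^ 2 * N) * (4 / 3 * r ^ 3 * c) +
      4 * K ^ 3 * M * (C * y + U)) * S ≤ K ^ 4 * ((16 * C ^ 6 * c + 8 * (C + 1)) / y ^ 3) := by
    calc _ ≤ (K ^ 4 * (16 * C ^ 6 * c / y ^ 4) + K ^ 4 * (8 * (C + 1) / y ^ 4)) * y := by
          apply mul_le_mul (add_le_add hE1 hE3) hS hS0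
          positivity
      _ = K ^ 4 * ((16 * C ^ 6 * c + 8 * (C + 1)) / y ^ 3) := by field_simp
  have hE2' : (C * y) ^ 6 * (2 * K ^ 3 + K ^ 2 * N') * (4 / 3 * r' ^ 3 * c) ≤
      K ^ 4 * (16 * C ^ 6 * c / y ^ 3) := by
    refine hE2.trans ?_
    apply mul_le_mul_of_nonneg_left _ (by positivity)
    apply div_le_div_of_nonneg_left (by positivity) (by positivity)
    exact pow_le_pow_right₀ hy1 (by norm_num)
  have hDc : (N' - N) * ((C * y) ^ 2 / N) ≤ 18 * C ^ 2 / y ^ 3 := by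
    calc (N' - N) * ((C * y) ^ 2 / N) ≤ (9 * K * W) * ((C * y) ^ 2 / (t ^ 4 / 2)) := by
          apply mul_le_mul hNs _ (by positivity) (by positivity)
          apply div_le_div_of_nonneg_left (by positivity) (by positivity) hN
      _ ≤ (9 * (t ^ 4 / y ^ 10) * y) * ((C * y) ^ 2 / (t ^ 4 / 2)) := by gcongr
      _ = 18 * C ^ 2 / y ^ 7 := by field_simp; norm_num
      _ ≤ 18 * C ^ 2 / y ^ 3 := by
          apply div_le_div_of_nonneg_left (by positivity) (by positivity)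
          exact pow_le_pow_right₀ hy1 (by norm_num)
  have hDc' : K ^ 4 * ((N' - N) * ((C * y) ^ 2 / N)) ≤ K ^ 4 * (18 * C ^ 2 / y ^ 3) :=
    mul_le_mul_of_nonneg_left hDc (by positivity)
  -- the main term
  have hmt : 5 / 32 / y ^ 2 ≤ MT * p - 2 * U * e := by
    have h1 : 3 / (16 * q) * p ≤ MT * p := mul_le_mul_of_nonneg_right hMT hp0.le
    have h2 : 2 * U * e ≤ p / (32 * q) := by
      rw [le_div_iff₀ (by positivity)]
      calc 2 * U * e * (32 * q) ≤ 2 * u * e * (32 * q) := by gcongr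
        _ = 64 * u * e * q := by ring
        _ ≤ p := hep
    have h3 : 3 / (16 * q) * p - p / (32 * q) = 5 / 32 * (p / q) := by field_simp; ring
    have h4 : 1 / y ^ 2 ≤ p / q := by
      rw [div_le_div_iff₀ (by positivity) hq0]
      have h5 : 1 ≤ p * y := by
        rw [div_le_iff₀ hy0] at hp
        exact hp
      calc 1 * q ≤ 1 * y := by linarith
        _ ≤ (p * y) * y := by gcongr
        _ = p * y ^ 2 := by ring
    have h6 : 5 / 32 / y ^ 2 = 5 / 32 * (1 / y ^ 2) := by ring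
    rw [h6]
    linarith
  have hmt' : K ^ 4 * (5 / 32 / y ^ 2) ≤ K ^ 4 * (MT * p - 2 * U * e) :=
    mul_le_mul_of_nonneg_left hmt (by positivity)
  have hMy3 : M0 / y ^ 3 ≤ 3 / 32 / y ^ 2 := by
    rw [div_le_div_iff₀ (by positivity) (by positivity)]
    have h1 : M0 ≤ 3 / 32 * y := by linarith
    calc M0 * y ^ 2 ≤ (3 / 32 * y) * y ^ 2 := by gcongr
      _ = 3 / 32 * y ^ 3 := by ring
  have hsum : K ^ 4 * ((16 * C ^ 6 * c + 8 * (C + 1)) / y ^ 3) + K ^ 4 * (18 * C ^ 2 / y ^ 3) +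
      K ^ 4 * (16 * C ^ 6 * c / y ^ 3) ≤ K ^ 4 * (3 / 32 / y ^ 2) := by
    calc _ = K ^ 4 * (M0 / y ^ 3) := by rw [hM0d]; ring
      _ ≤ _ := mul_le_mul_of_nonneg_left hMy3 (by positivity)
  have hcomb : K ^ 4 * (1 / (16 * y ^ 2)) ≤ C * y * G := by
    have h1 : K ^ 4 * (1 / (16 * y ^ 2)) = K ^ 4 * (5 / 32 / y ^ 2) - K ^ 4 * (3 / 32 / y ^ 2) := by
      field_simp
      norm_num
    rw [h1]
    linarith
  have hC0 : 0 < C := by linarith
  have h6 : K ^ 2 / (16 * C * y ^ 3) ≤ G / K ^ 2 := by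
    rw [div_le_div_iff₀ (by positivity) (by positivity)]
    have h7 : K ^ 4 ≤ C * y * G * (16 * y ^ 2) := by
      have := mul_le_mul_of_nonneg_right hcomb (by positivity : 0 ≤ 16 * y ^ 2)
      calc K ^ 4 = K ^ 4 * (1 / (16 * y ^ 2)) * (16 * y ^ 2) := by field_simp
        _ ≤ _ := this
    calc K ^ 2 * K ^ 2 = K ^ 4 := by ring
      _ ≤ C * y * G * (16 * y ^ 2) := h7
      _ = G * (16 * C * y ^ 3) := by ring
  refine le_trans ?_ h6
  calc t ^ 8 / y ^ 30 ≤ t ^ 8 / (4 * y ^ 20) / (16 * C * y ^ 3) := by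
        rw [div_div]
        apply div_le_div_of_nonneg_left (by positivity) (by positivity)
        calc 4 * y ^ 20 * (16 * C * y ^ 3) = (64 * C) * y ^ 23 := by ring
          _ ≤ y * y ^ 23 := by gcongr
          _ = y ^ 24 := by ring
          _ ≤ y ^ 30 := pow_le_pow_right₀ hy1 (by norm_num)
    _ ≤ K ^ 2 / (16 * C * y ^ 3) := by gcongr

/-- powers of the logarithm -/
private lemma dst_log (j : ℕ) : ∃ y₃ : ℝ, 2 ≤ y₃ ∧ ∀ y : ℝ, y₃ ≤ y → ∀ n : ℕ,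
    (n : ℝ) = y ^ (8 * j) → (1 + Real.log n) ^ 4 ≤ y := by
  have h0 : 0 < (1 : ℝ) / ((8 * j + 1 : ℕ) : ℝ) ^ 4 := by positivity
  have h1 := (Real.isLittleO_pow_log_id_atTop (n := 4)).bound h0
  have h2 : ∀ᶠ y : ℝ in Filter.atTop, (1 + (8 * j : ℕ) * Real.log y) ^ 4 ≤ y := by
    filter_upwards [h1, Filter.eventually_ge_atTop (1 : ℝ),
      Real.tendsto_log_atTop.eventually_ge_atTop 1] with y hy hy1 hyl
    have h3 : (1 + (8 * j : ℕ) * Real.log y) ≤ ((8 * j + 1 : ℕ) : ℝ) * Real.log y := by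
      push_cast
      nlinarith
    have h4 : (0 : ℝ) ≤ 1 + (8 * j : ℕ) * Real.log y := by positivity
    have h5 := pow_le_pow_left₀ h4 h3 4
    refine h5.trans ?_
    rw [mul_pow]
    rw [Real.norm_of_nonneg (by positivity), id, Real.norm_of_nonneg (by linarith)] at hy
    have h6 : (0 : ℝ) < ((8 * j + 1 : ℕ) : ℝ) ^ 4 := by positivity
    calc ((8 * j + 1 : ℕ) : ℝ) ^ 4 * Real.log y ^ 4
        ≤ ((8 * j + 1 : ℕ) : ℝ) ^ 4 * (1 / ((8 * j + 1 : ℕ) : ℝ) ^ 4 * y) :=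
          mul_le_mul_of_nonneg_left hy h6.le
      _ = y := by field_simp
  obtain ⟨y₃, hy₃⟩ := Filter.eventually_atTop.1 h2
  refine ⟨max 2 y₃, le_max_left _ _, fun y hy n hn => ?_⟩
  have h7 := hy₃ y (le_trans (le_max_right _ _) hy)
  rw [hn, Real.log_pow]
  exact h7

/-- at most `K²` indices give the same point -/
private lemma dst_card (G : Finset ((ℕ × ℕ) × (ℕ × ℕ))) (K a₀ b₀ W : ℕ) (hW : 0 < W)
    (hG : G ⊆ ibox K) :
    G.card ≤ K ^ 2 * (G.image (fun w => (bpt a₀ W w.1, bpt b₀ W w.2))).card := by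
  classical
  apply Finset.card_le_mul_card_image
  intro p _
  calc _ ≤ (range K ×ˢ range K).card := by
        apply Finset.card_le_card_of_injOn (fun w => (w.1.1, w.2.1))
        · intro w hw
          rw [mem_coe, mem_filter] at hw
          have h1 : w ∈ ibox K := hG hw.1
          unfold ibox at h1
          rw [mem_product, mem_product, mem_product] at h1
          rw [mem_coe, mem_product]
          exact ⟨h1.1.1, h1.2.1⟩
        · intro w hw w' hw' h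
          rw [mem_coe, mem_filter] at hw hw'
          have e1 : w.1.1 = w'.1.1 := (Prod.mk.inj h).1
          have e2 : w.2.1 = w'.2.1 := (Prod.mk.inj h).2
          have e3 := hw.2.trans hw'.2.symm
          rw [Prod.mk.injEq] at e3
          unfold bpt at e3
          have e4 : w.1.1 + w.1.2 = w'.1.1 + w'.1.2 :=
            Nat.eq_of_mul_eq_mul_left hW (Nat.add_left_cancel e3.1)
          have e5 : w.2.1 + w.2.2 = w'.2.1 + w'.2.2 :=
            Nat.eq_of_mul_eq_mul_left hW (Nat.add_left_cancel e3.2)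
          exact Prod.ext (Prod.ext e1 (by omega)) (Prod.ext e2 (by omega))
    _ = K ^ 2 := by rw [card_product, card_range]; ring

set_option maxHeartbeats 4000000 in
theorem p_dst (hs : S_siv) (hc : S_cor) (hm : S_mt) (hl : S_lp) (hu : S_uu) : S_dst := by
  classical
  intro j hj
  have hsiv := hs
  have hcor := hc
  clear hs hc
  obtain ⟨C, hC1, hCdiv⟩ := exists_card_divisors_le (12 * j + 1) (by omega)
  obtain ⟨y₁, hy₁, hnum1⟩ := dst_mt C C32 hC1 C32_nonneg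
  obtain ⟨y₂, hy₂, hnum2⟩ := dst_num C C32 hC1 C32_nonneg
  obtain ⟨y₃, hy₃, hnum3⟩ := dst_log j
  refine ⟨max (max y₁ y₂) (max y₃ 10), le_trans hy₁ (le_trans (le_max_left _ _) (le_max_left _ _)),
    ?_⟩
  intro y hy n hn W hW hW2 hWy α β hres R B k hR1 hR2 hR3 hRM hRS hAA hP hR4 hR5
  have hyy₁ : y₁ ≤ y := le_trans (le_trans (le_max_left _ _) (le_max_left _ _)) hy
  have hyy₂ : y₂ ≤ y := le_trans (le_trans (le_max_right _ _) (le_max_left _ _)) hy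
  have hyy₃ : y₃ ≤ y := le_trans (le_trans (le_max_left _ _) (le_max_right _ _)) hy
  have hy10 : 10 ≤ y := le_trans (le_trans (le_max_right _ _) (le_max_right _ _)) hy
  have hy0 : 0 < y := by linarith
  have hy1 : 1 ≤ y := by linarith
  set t : ℝ := y ^ j with ht
  have hty1 : y ^ 100 ≤ t := pow_le_pow_right₀ hy1 hj
  have hty : y ^ 50 ≤ t := (pow_le_pow_right₀ hy1 (by norm_num)).trans hty1
  have ht0 : 0 < t := by positivity
  have ht1 : 1 ≤ t := one_le_pow₀ hy1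
  have hn8 : (n : ℝ) = t ^ 8 := by rw [hn, ht, ← pow_mul, mul_comm]
  have hW0 : (0 : ℝ) < W := by exact_mod_cast hW
  have hW1 : (1 : ℝ) ≤ W := by exact_mod_cast hW
  have hW22 : (2 : ℝ) ≤ W := by
    have : 2 ≤ W := by omega
    exact_mod_cast this
  -- size of t⁴
  set s : ℝ := t ^ 4 with hs
  have hs0 : 0 < s := by positivity
  have hss : s * s = n := by rw [hn8, hs]; ring
  have hsy : y ^ 50 ≤ s := hty.trans (le_self_pow₀ ht1 (by norm_num))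
  have hs11 : y ^ 11 ≤ s := (pow_le_pow_right₀ hy1 (by norm_num)).trans hsy
  have hbig : 10000 * y ≤ s := by
    have h1 : (10000 : ℝ) ≤ y ^ 4 := by
      calc (10000 : ℝ) = 10 ^ 4 := by norm_num
        _ ≤ y ^ 4 := pow_le_pow_left₀ (by norm_num) hy10 4
    calc 10000 * y ≤ y ^ 4 * y := by gcongr
      _ = y ^ 5 := by ring
      _ ≤ y ^ 50 := pow_le_pow_right₀ hy1 (by norm_num)
      _ ≤ s := hsy
  -- K
  obtain ⟨K, hK⟩ : ∃ K, K = ⌊s / y ^ 10⌋₊ := ⟨_, rfl⟩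
  have hKle : (K : ℝ) ≤ s / y ^ 10 := by rw [hK]; exact Nat.floor_le (by positivity)
  have hKge : s / (2 * y ^ 10) ≤ K := by
    have h1 : s / y ^ 10 < K + 1 := by rw [hK]; exact Nat.lt_floor_add_one _
    have h2 : 1 ≤ s / (2 * y ^ 10) := by
      rw [le_div_iff₀ (by positivity), one_mul]
      calc 2 * y ^ 10 ≤ y * y ^ 10 := by gcongr; linarith
        _ = y ^ 11 := by ring
        _ ≤ s := hs11
    have h3 : s / y ^ 10 = 2 * (s / (2 * y ^ 10)) := by field_simp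
    linarith
  have hK1 : (1 : ℝ) ≤ K := by
    refine le_trans ?_ hKge
    rw [le_div_iff₀ (by positivity), one_mul]
    calc 2 * y ^ 10 ≤ y * y ^ 10 := by gcongr; linarith
      _ = y ^ 11 := by ring
      _ ≤ s := hs11
  have hKW : (K : ℝ) * W ≤ s / 10 ^ 9 := by
    calc (K : ℝ) * W ≤ (s / y ^ 10) * y := by gcongr
      _ = s / y ^ 9 := by field_simp
      _ ≤ s / 10 ^ 9 := by
          apply div_le_div_of_nonneg_left hs0.le (by positivity)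
          exact pow_le_pow_left₀ (by norm_num) hy10 9
  -- starting points
  set A : ℕ := ⌈(17 / 20 : ℝ) * s⌉₊ with hA
  have hA1 : (17 / 20 : ℝ) * s ≤ A := Nat.le_ceil _
  have hA2 : (A : ℝ) ≤ 17 / 20 * s + 1 := (Nat.ceil_lt_add_one (by positivity)).le
  obtain ⟨a₀, ha1, ha2, ha3⟩ := exists_modEq_ge A W α hW
  obtain ⟨b₀, hb1, hb2, hb3⟩ := exists_modEq_ge A W β hW
  have hstart : ∀ c : ℕ, A ≤ c → c < A + W → (17 / 20 : ℝ) * s ≤ c ∧
      ((c + 2 * K * W : ℕ) : ℝ) ≤ 43 / 50 * s := by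
    intro c h1 h2
    have h3 : (A : ℝ) ≤ c := by exact_mod_cast h1
    have h4 : (c : ℝ) ≤ A + W := by exact_mod_cast h2.le
    refine ⟨hA1.trans h3, ?_⟩
    push_cast
    have h5 : 2 * (K : ℝ) * W ≤ 2 * (s / 10 ^ 9) := by linarith
    have h6 : 1 + y ≤ s / 1000 := by
      have : 1000 * (1 + y) ≤ s := by linarith
      linarith
    norm_num at h5
    linarith
  obtain ⟨ha4, ha5⟩ := hstart a₀ ha1 ha2
  obtain ⟨hb4, hb5⟩ := hstart b₀ hb1 hb2
  set Ba : ℕ := a₀ + 2 * K * W with hBa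
  set Bb : ℕ := b₀ + 2 * K * W with hBb
  have hBn : Ba ^ 2 + Bb ^ 2 < 2 * n := by
    have h1 : ((Ba ^ 2 + Bb ^ 2 : ℕ) : ℝ) < ((2 * n : ℕ) : ℝ) := by
      push_cast
      rw [← hss]
      have h2 : (Ba : ℝ) ^ 2 ≤ (43 / 50 * s) ^ 2 := pow_le_pow_left₀ (by positivity) ha5 2
      have h3 : (Bb : ℝ) ^ 2 ≤ (43 / 50 * s) ^ 2 := pow_le_pow_left₀ (by positivity) hb5 2
      have h4 : 0 < s * s := by positivity
      have e2 : (43 / 50 * s) ^ 2 = 1849 / 2500 * (s * s) := by ring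
      rw [e2] at h2 h3
      linarith
    exact_mod_cast h1
  -- Qmin, Qmax
  obtain ⟨Qmin, hQmin⟩ : ∃ Q, Q = 2 * n - (Ba ^ 2 + Bb ^ 2) := ⟨_, rfl⟩
  obtain ⟨Qmax, hQmax⟩ : ∃ Q, Q = 2 * n - (a₀ ^ 2 + b₀ ^ 2) := ⟨_, rfl⟩
  have haB : a₀ ≤ Ba := Nat.le_add_right _ _
  have hbB : b₀ ≤ Bb := Nat.le_add_right _ _
  have ha0n : a₀ ^ 2 + b₀ ^ 2 ≤ 2 * n := by
    have h1 := Nat.pow_le_pow_left haB 2
    have h2 := Nat.pow_le_pow_left hbB 2
    omega
  have hQminR : (Qmin : ℝ) = 2 * (s * s) - ((Ba : ℝ) ^ 2 + (Bb : ℝ) ^ 2) := by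
    rw [hQmin, Nat.cast_sub hBn.le]; push_cast; rw [hss]
  have hQmaxR : (Qmax : ℝ) = 2 * (s * s) - ((a₀ : ℝ) ^ 2 + (b₀ : ℝ) ^ 2) := by
    rw [hQmax, Nat.cast_sub ha0n]; push_cast; rw [hss]
  have hQmin0 : 0 < Qmin := by omega
  have hbox : ∀ (c : ℕ) (w : ℕ × ℕ), w ∈ range K ×ˢ range K →
      c ≤ bpt c W w ∧ bpt c W w ≤ c + 2 * K * W := by
    intro c w hw
    rw [mem_product, mem_range, mem_range] at hw
    unfold bpt
    refine ⟨Nat.le_add_right _ _, ?_⟩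
    have : w.1 + w.2 ≤ 2 * K := by omega
    calc c + W * (w.1 + w.2) ≤ c + W * (2 * K) := by gcongr
      _ = c + 2 * K * W := by ring
  have hibox : ∀ w ∈ ibox K, (a₀ ≤ bpt a₀ W w.1 ∧ bpt a₀ W w.1 ≤ Ba) ∧
      (b₀ ≤ bpt b₀ W w.2 ∧ bpt b₀ W w.2 ≤ Bb) := by
    intro w hw
    unfold ibox at hw
    rw [mem_product] at hw
    exact ⟨hbox a₀ w.1 hw.1, hbox b₀ w.2 hw.2⟩
  have hle2 : ∀ w ∈ ibox K, bpt a₀ W w.1 ^ 2 + bpt b₀ W w.2 ^ 2 ≤ Ba ^ 2 + Bb ^ 2 := by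
    intro w hw
    obtain ⟨⟨_, h1⟩, ⟨_, h2⟩⟩ := hibox w hw
    exact Nat.add_le_add (Nat.pow_le_pow_left h1 2) (Nat.pow_le_pow_left h2 2)
  have hge2 : ∀ w ∈ ibox K, a₀ ^ 2 + b₀ ^ 2 ≤ bpt a₀ W w.1 ^ 2 + bpt b₀ W w.2 ^ 2 := by
    intro w hw
    obtain ⟨⟨h1, _⟩, ⟨h2, _⟩⟩ := hibox w hw
    exact Nat.add_le_add (Nat.pow_le_pow_left h1 2) (Nat.pow_le_pow_left h2 2)
  have hle : ∀ w ∈ ibox K, bpt a₀ W w.1 ^ 2 + bpt b₀ W w.2 ^ 2 ≤ 2 * n :=
    fun w hw => (hle2 w hw).trans hBn.le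
  have hQw1 : ∀ w ∈ ibox K, Qmin ≤ Qw (2 * n) a₀ b₀ W w := by
    intro w hw
    rw [hQmin]
    exact Nat.sub_le_sub_left (hle2 w hw) _
  have hQw2 : ∀ w ∈ ibox K, Qw (2 * n) a₀ b₀ W w ≤ Qmax := by
    intro w hw
    rw [hQmax]
    exact Nat.sub_le_sub_left (hge2 w hw) _
  have hmod : ∀ w ∈ ibox K, bpt a₀ W w.1 ≡ α [MOD W] ∧ bpt b₀ W w.2 ≡ β [MOD W] :=
    fun w _ => ⟨(bpt_modEq a₀ W w.1).trans ha3, (bpt_modEq b₀ W w.2).trans hb3⟩
  have hres' : ∀ w ∈ ibox K, Qw (2 * n) a₀ b₀ W w % 4 = 1 ∧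
      Nat.Coprime (Qw (2 * n) a₀ b₀ W w) W := by
    intro w hw
    exact hres _ _ (hmod w hw).1 (hmod w hw).2 (hle w hw)
  -- D and D'
  obtain ⟨D, hD⟩ : ∃ D, D = Nat.sqrt (Qmin - 1) := ⟨_, rfl⟩
  obtain ⟨D', hD'⟩ : ∃ D', D' = Nat.sqrt Qmax + 1 := ⟨_, rfl⟩
  have hDD1 : D * D < Qmin := by
    have := Nat.sqrt_le (Qmin - 1)
    rw [← hD] at this
    omega
  have hDD2 : Qmin ≤ (D + 1) * (D + 1) := by
    have := Nat.lt_succ_sqrt (Qmin - 1)
    rw [← hD] at this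
    simp only [Nat.succ_eq_add_one] at this
    omega
  have hDD3 : Qmax < D' * D' := by
    have := Nat.lt_succ_sqrt Qmax
    rw [hD']
    exact this
  have hDD4 : (Nat.sqrt Qmax) * (Nat.sqrt Qmax) ≤ Qmax := Nat.sqrt_le Qmax
  have hQmm : Qmin ≤ Qmax := by
    rw [hQmin, hQmax]
    apply Nat.sub_le_sub_left
    exact Nat.add_le_add (Nat.pow_le_pow_left haB 2) (Nat.pow_le_pow_left hbB 2)
  have hDleD' : D ≤ D' := by
    rw [hD, hD']
    have := Nat.sqrt_le_sqrt (show Qmin - 1 ≤ Qmax by omega)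
    omega
  have hs2 : (10000 : ℝ) ≤ s := by linarith
  have hDreal : s / 2 ≤ D := by
    have h1 : (Qmin : ℝ) ≤ ((D : ℝ) + 1) ^ 2 := by
      have : ((Qmin : ℕ) : ℝ) ≤ (((D + 1) * (D + 1) : ℕ) : ℝ) := by exact_mod_cast hDD2
      push_cast at this
      linarith
    have h2 : (Ba : ℝ) ^ 2 ≤ (43 / 50 * s) ^ 2 := pow_le_pow_left₀ (by positivity) ha5 2
    have h3 : (Bb : ℝ) ^ 2 ≤ (43 / 50 * s) ^ 2 := pow_le_pow_left₀ (by positivity) hb5 2
    have h4 : (18 / 25 * s) ^ 2 ≤ ((D : ℝ) + 1) ^ 2 := by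
      rw [hQminR] at h1
      have e1 : (18 / 25 * s) ^ 2 = 324 / 625 * (s * s) := by ring
      have e2 : (43 / 50 * s) ^ 2 = 1849 / 2500 * (s * s) := by ring
      rw [e2] at h2 h3
      rw [e1]
      have e3 := mul_pos hs0 hs0
      linarith
    have h5 : 18 / 25 * s ≤ (D : ℝ) + 1 := by
      exact le_of_sq_le_sq h4 (by positivity)
    linarith
  have hD1 : 1 ≤ D := by
    have : (1 : ℝ) ≤ D := by linarith
    exact_mod_cast this
  have hD'real : (D' : ℝ) ≤ 3 / 4 * s + 1 := by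
    have h1 : (Nat.sqrt Qmax : ℝ) ^ 2 ≤ Qmax := by
      have : (((Nat.sqrt Qmax) * (Nat.sqrt Qmax) : ℕ) : ℝ) ≤ ((Qmax : ℕ) : ℝ) := by
        exact_mod_cast hDD4
      push_cast at this
      linarith
    have h2 : (17 / 20 * s) ^ 2 ≤ (a₀ : ℝ) ^ 2 := pow_le_pow_left₀ (by positivity) ha4 2
    have h3 : (17 / 20 * s) ^ 2 ≤ (b₀ : ℝ) ^ 2 := pow_le_pow_left₀ (by positivity) hb4 2
    have h4 : (Nat.sqrt Qmax : ℝ) ^ 2 ≤ (3 / 4 * s) ^ 2 := by
      rw [hQmaxR] at h1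
      have e1 : (3 / 4 * s) ^ 2 = 9 / 16 * (s * s) := by ring
      have e2 : (17 / 20 * s) ^ 2 = 289 / 400 * (s * s) := by ring
      rw [e2] at h2 h3
      rw [e1]
      have e3 := mul_pos hs0 hs0
      linarith
    have h5 : (Nat.sqrt Qmax : ℝ) ≤ 3 / 4 * s := le_of_sq_le_sq h4 (by positivity)
    rw [hD']
    push_cast
    linarith
  have hD's : (D' : ℝ) ≤ s := by linarith
  have hDDs : (D' : ℝ) - D ≤ 9 * K * W := by
    have hKW2 : (2 : ℝ) ≤ K * W := by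
      calc (2 : ℝ) = 1 * 2 := by norm_num
        _ ≤ K * W := mul_le_mul hK1 hW22 (by norm_num) (by positivity)
    have hKW9 : 9 * (K : ℝ) * W = 9 * (K * W) := by ring
    rw [hKW9]
    by_cases hc : (D' : ℝ) - D ≤ 2
    · linarith
    push Not at hc
    have h1 : ((D' : ℝ) - 1) ^ 2 - ((D : ℝ) + 1) ^ 2 ≤ (Qmax : ℝ) - Qmin := by
      have e1 : (Nat.sqrt Qmax : ℝ) ^ 2 ≤ Qmax := by
        have : (((Nat.sqrt Qmax) * (Nat.sqrt Qmax) : ℕ) : ℝ) ≤ ((Qmax : ℕ) : ℝ) := by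
          exact_mod_cast hDD4
        push_cast at this
        linarith
      have e2 : (D' : ℝ) - 1 = Nat.sqrt Qmax := by rw [hD']; push_cast; ring
      have e3 : (Qmin : ℝ) ≤ ((D : ℝ) + 1) ^ 2 := by
        have : ((Qmin : ℕ) : ℝ) ≤ (((D + 1) * (D + 1) : ℕ) : ℝ) := by exact_mod_cast hDD2
        push_cast at this
        linarith
      rw [e2]
      linarith
    have h2 : (Qmax : ℝ) - Qmin ≤ 2 * (K * W) * (172 / 50 * s) := by
      rw [hQmaxR, hQminR]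
      have e1 : (Ba : ℝ) = a₀ + 2 * K * W := by rw [hBa]; push_cast; ring
      have e2 : (Bb : ℝ) = b₀ + 2 * K * W := by rw [hBb]; push_cast; ring
      have e3 : (a₀ : ℝ) ≤ 43 / 50 * s := by
        refine le_trans ?_ ha5
        exact_mod_cast haB
      have e4 : (b₀ : ℝ) ≤ 43 / 50 * s := by
        refine le_trans ?_ hb5
        exact_mod_cast hbB
      have e5 : 2 * (s * s) - ((a₀ : ℝ) ^ 2 + (b₀ : ℝ) ^ 2) -
          (2 * (s * s) - ((Ba : ℝ) ^ 2 + (Bb : ℝ) ^ 2)) =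
          2 * (K * W) * (Ba + a₀) + 2 * (K * W) * (Bb + b₀) := by
        rw [e1, e2]; ring
      rw [e5]
      have e6 : 0 ≤ 2 * ((K : ℝ) * W) := by positivity
      calc _ = 2 * ((K : ℝ) * W) * ((Ba : ℝ) + a₀ + (Bb + b₀)) := by ring
        _ ≤ 2 * ((K : ℝ) * W) * (172 / 50 * s) := by
            apply mul_le_mul_of_nonneg_left _ e6
            linarith
    have h3 : ((D' : ℝ) - D - 2) * s ≤ ((D' : ℝ) - 1) ^ 2 - ((D : ℝ) + 1) ^ 2 := by
      have e1 : ((D' : ℝ) - 1) ^ 2 - ((D : ℝ) + 1) ^ 2 = ((D' : ℝ) - D - 2) * (D' + D) := by ring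
      rw [e1]
      apply mul_le_mul_of_nonneg_left _ (by linarith)
      linarith
    have h4 : ((D' : ℝ) - D - 2) * s ≤ (2 * (K * W) * (172 / 50)) * s := by
      calc _ ≤ _ := h3
        _ ≤ _ := h1
        _ ≤ _ := h2
        _ = _ := by ring
    have h5 : (D' : ℝ) - D - 2 ≤ 2 * (K * W) * (172 / 50) := le_of_mul_le_mul_right h4 hs0
    linarith
  -- divisor bound
  have hT : ∀ k, 0 < k → k ≤ 2 * n * D' → (k.divisors.card : ℝ) ≤ C * y := by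
    intro k _ hk
    apply hCdiv y hy1
    have h1 : (k : ℝ) ≤ 2 * n * D' := by exact_mod_cast hk
    calc (k : ℝ) ≤ 2 * n * D' := h1
      _ ≤ y * t ^ 8 * t ^ 4 := by
          rw [hn8]
          apply mul_le_mul _ hD's (by positivity) (by positivity)
          gcongr
          linarith
      _ = y ^ (12 * j + 1) := by
          rw [ht, ← pow_mul, ← pow_mul]
          ring
  -- r4
  have hr4 : r4 (D' : ℝ) ≤ t := by
    have h1 : r4 (D' : ℝ) ^ 4 ≤ t ^ 4 := by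
      rw [r4_pow (by positivity)]; exact hD's
    exact le_of_pow_le_pow_left₀ (by norm_num) ht0.le h1
  have hr40 : 0 ≤ r4 (D' : ℝ) := r4_nonneg (by positivity)
  have hn0 : 0 < 2 * n := by omega
  have hstrict : ∀ w ∈ ibox K, bpt a₀ W w.1 ^ 2 + bpt b₀ W w.2 ^ 2 < 2 * n :=
    fun w hw => lt_of_le_of_lt (hle2 w hw) hBn
  -- the modulus `V`
  obtain ⟨V, hV⟩ : ∃ V, V = VV W R := ⟨_, rfl⟩
  have hRpos : 0 < ∏ r ∈ R, r := Finset.prod_pos (fun r hr => (hR1 r hr).1.pos)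
  have hV0 : 0 < V := by rw [hV]; exact Nat.mul_pos hW hRpos
  have hV2 : V % 2 = 0 := by
    rw [hV]
    unfold VV
    rw [Nat.mul_mod, hW2]
    simp
  rw [← hV] at hAA hP hR4
  have hVp : ∀ p ∈ V.primeFactors, p.Prime := fun p hp => Nat.prime_of_mem_primeFactors hp
  obtain ⟨hl1, -⟩ := hl V.primeFactors hVp
  -- the main term
  have hr4N : t / 2 ≤ r4 (D : ℝ) := by
    have hD0 : (0 : ℝ) ≤ (D : ℝ) := Nat.cast_nonneg _
    have h1 : (t / 2) ^ 4 ≤ r4 (D : ℝ) ^ 4 := by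
      rw [r4_pow hD0]
      refine le_trans ?_ hDreal
      calc (t / 2) ^ 4 = s / 16 := by rw [hs]; ring
        _ ≤ s / 2 := by linarith
    exact le_of_pow_le_pow_left₀ (by norm_num) (r4_nonneg hD0) h1
  have hAA0 : 0 ≤ AA V.primeFactors := by
    unfold AA
    exact Finset.prod_nonneg (fun p _ => by positivity)
  have hq1 : (1 : ℝ) ≤ (V.primeFactors.card : ℝ) + 1 := by
    have : (0 : ℝ) ≤ (V.primeFactors.card : ℝ) := Nat.cast_nonneg _
    linarith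
  have hτ : (((2 * n).divisors.card : ℕ) : ℝ) ≤ C * y :=
    hT (2 * n) hn0 (Nat.le_mul_of_pos_right _ (by omega))
  have hmt := hnum1 y hyy₁ t hty1 (D : ℝ) (r4 (D : ℝ)) (AA V.primeFactors) (LP V.primeFactors)
    ((V.primeFactors.card : ℝ) + 1) ((2 * n).divisors.card : ℝ) (MT (Fchi V) (2 * n) D)
    hDreal hr4N hAA0 hAA hq1 hP hl1 (Nat.cast_nonneg _) hτ
    (hm (2 * n) V D hn0.ne' hV0 hV2 hD1)
  -- the absolute main term
  have hUU0 : 0 ≤ UU (2 * n) D := by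
    unfold UU
    exact Finset.sum_nonneg (fun d _ => by positivity)
  have hn1 : (1 : ℝ) ≤ n := by rw [hn8]; exact one_le_pow₀ ht1
  have hDn : (D : ℝ) ≤ n := by
    have h1 : (D : ℝ) ≤ D' := by exact_mod_cast hDleD'
    have h2 : s ≤ n := by
      rw [← hss]
      exact le_mul_of_one_le_right hs0.le (by linarith)
    linarith
  have hUU : UU (2 * n) D ≤ (1 + Real.log n) ^ 4 := by
    have hD1r : (1 : ℝ) ≤ (D : ℝ) := by exact_mod_cast hD1
    refine (hu (2 * n) D hD1).trans ?_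
    have h1 := Real.log_nonneg hD1r
    apply pow_le_pow_left₀ (by linarith)
    have := Real.log_le_log (by linarith) hDn
    linarith
  -- the sieve
  have hM0 : ((⌊y⌋₊ : ℕ) : ℝ) ≤ y := Nat.floor_le hy0.le
  have h1 := hsiv (2 * n) D W K a₀ b₀ k ⌊y⌋₊ (C * y) R B hn0 hW hW2 hD1 hR1 hR2 hstrict
    (fun l hl1 hl2 => hT l hl1 (hl2.trans (Nat.mul_le_mul_left _ hDleD')))
    (fun X hX hXk => Nat.le_floor (hRM X hX hXk))
  have h2 := hcor (2 * n) D D' W K a₀ b₀ (C * y) R B hn0 hW hW2 hD1 hDleD'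
    (fun r hr => (hR1 r hr).1) hR3 hstrict (fun w hw => (hres' w hw).1)
    (fun w hw => (hres' w hw).2) (fun w hw => lt_of_lt_of_le hDD1 (hQw1 w hw))
    (fun w hw => (hQw2 w hw).trans hDD3.le) hT
  obtain ⟨G, hG⟩ : ∃ G : Finset ((ℕ × ℕ) × (ℕ × ℕ)), G = (gbox R B K a₀ b₀ W).filter
      (fun w => ∃ u v : ℕ, Qw (2 * n) a₀ b₀ W w = u ^ 2 + v ^ 2) := ⟨_, rfl⟩
  have hGsub : ∀ w ∈ G, w ∈ ibox K ∧
      (∀ r ∈ R, ¬ (bpt a₀ W w.1 % r, bpt b₀ W w.2 % r) ∈ B r) ∧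
      ∃ u v : ℕ, Qw (2 * n) a₀ b₀ W w = u ^ 2 + v ^ 2 := by
    intro w hw
    rw [hG, mem_filter] at hw
    unfold gbox at hw
    rw [mem_filter] at hw
    exact ⟨hw.1.1, hw.1.2, hw.2⟩
  have hGc : ((gbox R B K a₀ b₀ W).filter
      (fun w => ∃ u v : ℕ, Qw (2 * n) a₀ b₀ W w = u ^ 2 + v ^ 2)).card = G.card := by rw [hG]
  have h3 := h1.trans h2
  rw [← hV] at h3
  unfold EB at h3
  have hr41 : r4 (D : ℝ) ≤ t :=
    (r4_mono (Nat.cast_nonneg _) (by exact_mod_cast hDleD')).trans hr4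
  have hE0 : 0 ≤ ∑ X ∈ R.powersetCard (k + 1), ∏ r ∈ X, om B r := by
    apply Finset.sum_nonneg
    intro X _
    apply Finset.prod_nonneg
    intro r _
    unfold om
    positivity
  have hS0 : 0 ≤ ∑ X ∈ R.powerset.filter (fun X => X.card ≤ k + 1), ∏ r ∈ X, ((B r).card : ℝ) := by
    apply Finset.sum_nonneg
    intro X _
    apply Finset.prod_nonneg
    intro r _
    positivity
  have h4 : (K : ℝ) ^ 4 * (MT (Fchi V) (2 * n) D * ∏ r ∈ R, (1 - om B r) -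
      2 * UU (2 * n) D * ∑ X ∈ R.powersetCard (k + 1), ∏ r ∈ X, om B r) -
      ((C * y) ^ 6 * (2 * (K : ℝ) ^ 3 + (K : ℝ) ^ 2 * D) * (4 / 3 * r4 (D : ℝ) ^ 3 * C32) +
        4 * (K : ℝ) ^ 3 * ((⌊y⌋₊ : ℕ) : ℝ) * (C * y + UU (2 * n) D)) *
        ∑ X ∈ R.powerset.filter (fun X => X.card ≤ k + 1), ∏ r ∈ X, ((B r).card : ℝ) ≤
      (C * y) * (G.card : ℝ) + ((K : ℝ) ^ 4 * ((D' - D : ℝ) * ((C * y) ^ 2 / D)) +
        (C * y) ^ 6 * (2 * (K : ℝ) ^ 3 + (K : ℝ) ^ 2 * D') * (4 / 3 * r4 (D' : ℝ) ^ 3 * C32)) := by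
    rw [← hGc]
    convert h3 using 4
  have hfin := hnum2 y hyy₂ t hty1 (K : ℝ) W D D' (G.card : ℝ) (r4 (D : ℝ)) (r4 (D' : ℝ))
    ((V.primeFactors.card : ℝ) + 1) (UU (2 * n) D) ((1 + Real.log n) ^ 4) ((⌊y⌋₊ : ℕ) : ℝ)
    (∏ r ∈ R, (1 - om B r)) (∑ X ∈ R.powersetCard (k + 1), ∏ r ∈ X, om B r)
    (∑ X ∈ R.powerset.filter (fun X => X.card ≤ k + 1), ∏ r ∈ X, ((B r).card : ℝ))
    (MT (Fchi V) (2 * n) D)
    hKge hKle hW1 hWy hDreal (by exact_mod_cast hDleD') hD's hDDs (r4_nonneg (Nat.cast_nonneg _))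
    hr41 hr40 hr4 hq1 hP hUU0 hUU (hnum3 y hyy₃ n hn) (Nat.cast_nonneg _) hM0 hR5 hE0 hS0 hRS
    hR4 hmt h4
  refine ⟨G.image (fun w => (bpt a₀ W w.1, bpt b₀ W w.2)), ?_, ?_⟩
  · rw [hn8]
    refine hfin.trans ?_
    have h5 := dst_card G K a₀ b₀ W hW (fun w hw => (hGsub w hw).1)
    rw [div_le_iff₀ (by positivity)]
    have h6 : (G.card : ℝ) ≤ ((K ^ 2 * (G.image
      (fun w => (bpt a₀ W w.1, bpt b₀ W w.2))).card : ℕ) : ℝ) := by exact_mod_cast h5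
    push_cast at h6
    linarith
  · intro p hp
    rw [mem_image] at hp
    obtain ⟨w, hw, rfl⟩ := hp
    obtain ⟨hw1, hwB, u, v, huv⟩ := hGsub w hw
    obtain ⟨⟨hwa, _⟩, ⟨hwb, _⟩⟩ := hibox w hw1
    refine ⟨(hmod w hw1).1, (hmod w hw1).2, ?_, hwB, u, v, ?_, ?_⟩
    · have h1 : (0 : ℝ) < b₀ := lt_of_lt_of_le (by positivity) hb4
      have h2 : 0 < b₀ := by exact_mod_cast h1
      exact lt_of_lt_of_le h2 hwb
    · have h1 := hle w hw1
      have h2 : Qw (2 * n) a₀ b₀ W w = 2 * n - (bpt a₀ W w.1 ^ 2 + bpt b₀ W w.2 ^ 2) := rfl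
      rw [h2] at huv
      simp only
      omega
    · have h1 : (17 / 20 * s) ^ 2 ≤ (a₀ : ℝ) ^ 2 := pow_le_pow_left₀ (by positivity) ha4 2
      have h2 : (17 / 20 * s) ^ 2 ≤ (b₀ : ℝ) ^ 2 := pow_le_pow_left₀ (by positivity) hb4 2
      have h3 : Qmax ≤ a₀ ^ 2 := by
        have : (Qmax : ℝ) ≤ ((a₀ ^ 2 : ℕ) : ℝ) := by
          rw [hQmaxR]
          push_cast
          have e2 : (17 / 20 * s) ^ 2 = 289 / 400 * (s * s) := by ring
          rw [e2] at h1 h2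
          have e3 := mul_pos hs0 hs0
          linarith
        exact_mod_cast this
      have h4 : Qmax ≤ b₀ ^ 2 := by
        have : (Qmax : ℝ) ≤ ((b₀ ^ 2 : ℕ) : ℝ) := by
          rw [hQmaxR]
          push_cast
          have e2 : (17 / 20 * s) ^ 2 = 289 / 400 * (s * s) := by ring
          rw [e2] at h1 h2
          have e3 := mul_pos hs0 hs0
          linarith
        exact_mod_cast this
      have h5 := hQw2 w hw1
      rw [huv] at h5
      have hu : u ^ 2 ≤ Qmax := le_trans (Nat.le_add_right _ _) h5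
      have hv : v ^ 2 ≤ Qmax := le_trans (Nat.le_add_left _ _) h5
      have key : ∀ c d e : ℕ, c ^ 2 ≤ Qmax → Qmax ≤ d ^ 2 → d ≤ e → c ≤ e := by
        intro c d e h1 h2 h3
        exact (Nat.pow_le_pow_iff_left two_ne_zero).mp (h1.trans h2) |>.trans h3
      exact ⟨key u a₀ _ hu h3 hwa, key u b₀ _ hu h4 hwb, key v a₀ _ hv h3 hwa,
        key v b₀ _ hv h4 hwb⟩

end Pool.Agent.Lib.MP1e1427.LG
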