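import Pool.Agent.Lib.MP_1e1427_nt.LG.Stm

/-! Piece `lp` of project LG (helper16): product over primes. -/

set_option autoImplicit false

namespace Pool.Agent.Lib.MP1e1427.LG

open Finset ArithmeticFunction
open Pool.Agent.Lib.MP1e1427

theorem lp_chi_abs (n : ℕ) : |((chi n : ℤ) : ℝ)| ≤ 1 := by
  have h1 : ∀ m : ZMod 4, |ZMod.χ₄ m| ≤ 1 := by decide
  have h : |(chi n : ℤ)| ≤ 1 := by
    have := h1 (n : ZMod 4)
    simpa [chi] using this
  exact_mod_cast h

theorem lp_prod (k : ℕ) : ∀ P : Finset ℕ, P.card = k → (∀ p ∈ P, 2 ≤ p) →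
    1 / ((k : ℝ) + 1) ≤ ∏ p ∈ P, (1 - 1 / (p : ℝ)) := by
  induction k with
  | zero =>
    intro P hP _
    rw [Finset.card_eq_zero] at hP
    subst hP
    simp
  | succ k ih =>
    intro P hP h2
    have hne : P.Nonempty := by
      rw [← Finset.card_pos]; omega
    set q := P.max' hne with hq
    have hqP : q ∈ P := P.max'_mem hne
    have hcard : (P.erase q).card = k := by
      rw [Finset.card_erase_of_mem hqP]; omega
    have hsub : P ⊆ Finset.Icc 2 q := by
      intro p hp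
      rw [Finset.mem_Icc]
      exact ⟨h2 p hp, P.le_max' p hp⟩
    have hle := Finset.card_le_card hsub
    rw [Nat.card_Icc, hP] at hle
    have hq2 : k + 2 ≤ q := by
      have := h2 q hqP
      omega
    have hi := ih (P.erase q) hcard (fun p hp => h2 p (Finset.mem_of_mem_erase hp))
    have hqR : ((k : ℝ) + 2) ≤ (q : ℝ) := by exact_mod_cast hq2
    have hk0 : (0 : ℝ) ≤ (k : ℝ) := Nat.cast_nonneg k
    have h3 : ((k : ℝ) + 1) / ((k : ℝ) + 2) ≤ 1 - 1 / (q : ℝ) := by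
      have h4 : 1 / (q : ℝ) ≤ 1 / ((k : ℝ) + 2) :=
        one_div_le_one_div_of_le (by linarith) hqR
      have h5 : ((k : ℝ) + 1) / ((k : ℝ) + 2) = 1 - 1 / ((k : ℝ) + 2) := by
        field_simp
        ring
      rw [h5]
      linarith
    rw [← Finset.prod_erase_mul P (fun p => (1 - 1 / (p : ℝ))) hqP]
    have h6 : (1 : ℝ) / (((k + 1 : ℕ) : ℝ) + 1) =
        (1 / ((k : ℝ) + 1)) * (((k : ℝ) + 1) / ((k : ℝ) + 2)) := by
      push_cast
      field_simp
      ring
    rw [h6]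
    apply mul_le_mul hi h3
    · positivity
    · exact le_trans (by positivity) hi

theorem p_lp : S_lp := by
  intro P hP
  have hge : ∀ p ∈ P, 1 - 1 / (p : ℝ) ≤ 1 - (chi p : ℝ) / p := by
    intro p hp
    have h1 := lp_chi_abs p
    have h2 : (chi p : ℝ) / p ≤ 1 / (p : ℝ) := by
      apply div_le_div_of_nonneg_right _ (Nat.cast_nonneg p)
      exact le_trans (le_abs_self _) h1
    linarith
  have h0 : ∀ p ∈ P, (0 : ℝ) ≤ 1 - 1 / (p : ℝ) := by
    intro p hp
    have h1 : (1 : ℝ) ≤ (p : ℝ) := by exact_mod_cast (hP p hp).one_lt.le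
    have h2 : 1 / (p : ℝ) ≤ 1 := by
      rw [div_le_one (by linarith)]
      exact h1
    linarith
  have hpr : 1 / ((P.card : ℝ) + 1) ≤ ∏ p ∈ P, (1 - (chi p : ℝ) / p) :=
    le_trans (lp_prod P.card P rfl (fun p hp => (hP p hp).two_le))
      (Finset.prod_le_prod h0 hge)
  have hpi3 : (3 : ℝ) / 4 ≤ Real.pi / 4 := by linarith [Real.pi_gt_three]
  have hpi4 : Real.pi / 4 ≤ 1 := by linarith [Real.pi_le_four]
  have hcpos : (0 : ℝ) < (P.card : ℝ) + 1 := by positivity
  have hprod0 : (0 : ℝ) ≤ ∏ p ∈ P, (1 - (chi p : ℝ) / p) :=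
    Finset.prod_nonneg (fun p hp => le_trans (h0 p hp) (hge p hp))
  constructor
  · have h7 : (3 : ℝ) / (4 * ((P.card : ℝ) + 1)) = 3 / 4 * (1 / ((P.card : ℝ) + 1)) := by
      field_simp
    rw [h7, LP]
    apply mul_le_mul hpi3 hpr
    · positivity
    · linarith
  · have hup : ∏ p ∈ P, (1 - (chi p : ℝ) / p) ≤ AA P := by
      rw [AA]
      apply Finset.prod_le_prod (fun p hp => le_trans (h0 p hp) (hge p hp))
      intro p hp
      have hp1 : (1 : ℝ) ≤ (p : ℝ) := by exact_mod_cast (hP p hp).one_lt.le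
      have h1 := lp_chi_abs p
      have h2 : -(1 / (p : ℝ)) ≤ (chi p : ℝ) / p := by
        rw [← neg_div]
        apply div_le_div_of_nonneg_right _ (Nat.cast_nonneg p)
        exact neg_le_of_abs_le h1
      have h3 : 1 / (p : ℝ) ≤ (p : ℝ) ^ (-(3 / 4) : ℝ) := by
        have h4 : (p : ℝ) ^ (-1 : ℝ) ≤ (p : ℝ) ^ (-(3 / 4) : ℝ) :=
          Real.rpow_le_rpow_of_exponent_le hp1 (by norm_num)
        rw [Real.rpow_neg_one] at h4
        rw [one_div]
        exact h4
      linarith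
    rw [LP]
    calc Real.pi / 4 * ∏ p ∈ P, (1 - (chi p : ℝ) / p)
        ≤ 1 * ∏ p ∈ P, (1 - (chi p : ℝ) / p) := mul_le_mul_of_nonneg_right hpi4 hprod0
      _ = ∏ p ∈ P, (1 - (chi p : ℝ) / p) := one_mul _
      _ ≤ AA P := hup

end Pool.Agent.Lib.MP1e1427.LG
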