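import Pool.Agent.Lib.MP_1e1427_nt.LG.Stm

/-!
# MP_1e1427_nt, project LG, piece mt: lower bound of the main term (helper98)
-/

set_option autoImplicit false

namespace Pool.Agent.Lib.MP1e1427.LG

open Finset ArithmeticFunction
open Pool.Agent.Lib.MP1e1427

theorem mt_one_le_AA (P : Finset ℕ) : 1 ≤ AA P := by
  unfold AA
  have h0 : ∏ p ∈ P, (1 : ℝ) ≤ ∏ p ∈ P, (1 + (p : ℝ) ^ (-(3 / 4) : ℝ)) := by
    apply Finset.prod_le_prod
    · intro p _
      exact zero_le_one
    · intro p _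
      have h : 0 ≤ (p : ℝ) ^ (-(3 / 4) : ℝ) := Real.rpow_nonneg (Nat.cast_nonneg p) _
      linarith
  rwa [Finset.prod_const_one] at h0

theorem mt_one_le_r4 {x : ℝ} (hx : 1 ≤ x) : 1 ≤ r4 x := by
  have h := r4_mono (by norm_num : (0 : ℝ) ≤ 1) hx
  rwa [r4_one] at h

/-- `e^(-2) r4 e ≤ e^(-3/2)` -/
theorem mt_term {e : ℕ} (he : 1 ≤ e) : ((e : ℝ) ^ 2)⁻¹ * r4 e ≤ 1 / (e : ℝ) ^ (3 / 2 : ℝ) := by
  have he1 : (1 : ℝ) ≤ e := by exact_mod_cast he
  have he0 : (0 : ℝ) < e := by linarith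
  have h1 : r4 e ≤ (e : ℝ) ^ (1 / 2 : ℝ) := by
    unfold r4
    exact Real.rpow_le_rpow_of_exponent_le he1 (by norm_num)
  have h2 : ((e : ℝ) ^ 2)⁻¹ * (e : ℝ) ^ (1 / 2 : ℝ) = 1 / (e : ℝ) ^ (3 / 2 : ℝ) := by
    have h3 : (e : ℝ) ^ 2 = (e : ℝ) ^ (1 / 2 : ℝ) * (e : ℝ) ^ (3 / 2 : ℝ) := by
      rw [← Real.rpow_add he0, ← Real.rpow_natCast]
      norm_num
    rw [h3]
    have h4 : (e : ℝ) ^ (1 / 2 : ℝ) ≠ 0 := (Real.rpow_pos_of_pos he0 _).ne'
    have h5 : (e : ℝ) ^ (3 / 2 : ℝ) ≠ 0 := (Real.rpow_pos_of_pos he0 _).ne'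
    field_simp
  rw [← h2]
  exact mul_le_mul_of_nonneg_left h1 (by positivity)

theorem mt_YW_sub (hx : S_xp) (V : ℕ) {M : ℕ} (hM : 1 ≤ M) :
    |YW V M - LP V.primeFactors * ∑ e ∈ Ioc 0 M, EW V e| ≤
      AA V.primeFactors * C32 / r4 M := by
  have hM0 : (0 : ℝ) < M := by exact_mod_cast hM
  have hA := mt_one_le_AA V.primeFactors
  have h1 : YW V M - LP V.primeFactors * ∑ e ∈ Ioc 0 M, EW V e =
      ∑ e ∈ Ioc 0 M, EW V e * (XP V.primeFactors (M / e) - LP V.primeFactors) := by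
    unfold YW
    rw [mul_sum, ← sum_sub_distrib]
    apply Finset.sum_congr rfl
    intro e _
    ring
  have hr4M : 0 < r4 M := r4_pos hM0
  rw [h1]
  calc _ ≤ ∑ e ∈ Ioc 0 M, |EW V e * (XP V.primeFactors (M / e) - LP V.primeFactors)| :=
        Finset.abs_sum_le_sum_abs _ _
    _ ≤ ∑ e ∈ Ioc 0 M, AA V.primeFactors / r4 M * (1 / (e : ℝ) ^ (3 / 2 : ℝ)) := by
        apply Finset.sum_le_sum
        intro e he
        rw [mem_Ioc] at he
        have he0 : (0 : ℝ) < e := by exact_mod_cast he.1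
        rw [abs_mul]
        have h3 := hx V.primeFactors (fun p hp => Nat.prime_of_mem_primeFactors hp) (M / e)
        have hpos : (0 : ℝ) < ((M / e : ℕ) : ℝ) + 1 := by positivity
        have hr : 0 < r4 (((M / e : ℕ) : ℝ) + 1) := r4_pos hpos
        have h4 : AA V.primeFactors / r4 (((M / e : ℕ) : ℝ) + 1) ≤
            AA V.primeFactors * r4 e / r4 M := by
          have h5 : M ≤ e * (M / e + 1) := by
            have := Nat.lt_mul_div_succ M he.1
            omega
          have h6 : (M : ℝ) ≤ e * (((M / e : ℕ) : ℝ) + 1) := by exact_mod_cast h5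
          have h7 : r4 M ≤ r4 e * r4 (((M / e : ℕ) : ℝ) + 1) := by
            rw [← r4_mul he0.le hpos.le]
            exact r4_mono hM0.le h6
          rw [div_le_div_iff₀ hr hr4M]
          calc AA V.primeFactors * r4 M ≤
              AA V.primeFactors * (r4 e * r4 (((M / e : ℕ) : ℝ) + 1)) :=
                mul_le_mul_of_nonneg_left h7 (by linarith)
            _ = _ := by ring
        calc _ ≤ ((e : ℝ) ^ 2)⁻¹ * (AA V.primeFactors * r4 e / r4 M) :=
              mul_le_mul (abs_EW_le V e) (h3.trans h4) (abs_nonneg _) (by positivity)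
          _ = AA V.primeFactors / r4 M * (((e : ℝ) ^ 2)⁻¹ * r4 e) := by ring
          _ ≤ _ := mul_le_mul_of_nonneg_left (mt_term he.1) (by positivity)
    _ = AA V.primeFactors / r4 M * ∑ e ∈ Ioc 0 M, 1 / (e : ℝ) ^ (3 / 2 : ℝ) := by rw [mul_sum]
    _ ≤ AA V.primeFactors / r4 M * C32 :=
        mul_le_mul_of_nonneg_left (sum_le_C32 _) (by positivity)
    _ = _ := by ring

theorem mt_YW_ge (hx : S_xp) (V : ℕ) (hV2 : V % 2 = 0) (hL : 0 ≤ LP V.primeFactors) {M : ℕ}
    (hM : 1 ≤ M) :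
    LP V.primeFactors / 2 - AA V.primeFactors * C32 / r4 M ≤ YW V M := by
  have h2 := mt_YW_sub hx V hM
  have h3 := sum_EW_ge V hV2 hM
  have h4 : LP V.primeFactors * (1 / 2) ≤ LP V.primeFactors * ∑ e ∈ Ioc 0 M, EW V e :=
    mul_le_mul_of_nonneg_left h3 hL
  rw [abs_le] at h2
  linarith [h2.1]

theorem mt_abs_YW (hx : S_xp) (hl : S_lp) (V M : ℕ) : |YW V M| ≤ 4 * AA V.primeFactors := by
  have hA := mt_one_le_AA V.primeFactors
  obtain ⟨hL1, hL2⟩ := hl V.primeFactors (fun p hp => Nat.prime_of_mem_primeFactors hp)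
  have hL0 : 0 ≤ LP V.primeFactors := le_trans (by positivity) hL1
  have hX : ∀ N : ℕ, |XP V.primeFactors N| ≤ 2 * AA V.primeFactors := by
    intro N
    have h1 := hx V.primeFactors (fun p hp => Nat.prime_of_mem_primeFactors hp) N
    have h2 : AA V.primeFactors / r4 ((N : ℝ) + 1) ≤ AA V.primeFactors := by
      apply div_le_self (by linarith)
      apply mt_one_le_r4
      have : (0 : ℝ) ≤ N := Nat.cast_nonneg N
      linarith
    calc |XP V.primeFactors N| =
        |(XP V.primeFactors N - LP V.primeFactors) + LP V.primeFactors| := by ring_nf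
      _ ≤ |XP V.primeFactors N - LP V.primeFactors| + |LP V.primeFactors| := abs_add_le _ _
      _ ≤ AA V.primeFactors + AA V.primeFactors := by
          rw [abs_of_nonneg hL0]
          exact add_le_add (h1.trans h2) hL2
      _ = 2 * AA V.primeFactors := by ring
  unfold YW
  calc _ ≤ ∑ e ∈ Ioc 0 M, |EW V e * XP V.primeFactors (M / e)| :=
        Finset.abs_sum_le_sum_abs _ _
    _ ≤ ∑ e ∈ Ioc 0 M, ((e : ℝ) ^ 2)⁻¹ * (2 * AA V.primeFactors) := by
        apply Finset.sum_le_sum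
        intro e _
        rw [abs_mul]
        exact mul_le_mul (abs_EW_le V e) (hX _) (abs_nonneg _) (by positivity)
    _ = (∑ e ∈ Ioc 0 M, ((e : ℝ) ^ 2)⁻¹) * (2 * AA V.primeFactors) := by rw [Finset.sum_mul]
    _ ≤ 2 * (2 * AA V.primeFactors) :=
        mul_le_mul_of_nonneg_right (sum_inv_sq_le M) (by positivity)
    _ = 4 * AA V.primeFactors := by ring

theorem mt_MT (m V N : ℕ) : MT (Fchi V) m N = ∑ d ∈ Ioc 0 N, FW m V d := by
  unfold MT
  apply Finset.sum_congr rfl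
  intro d _
  rw [FW_apply]
  unfold Fchi
  split_ifs
  · rfl
  · rw [zero_mul, zero_div]

/-- PIECE mt -/
theorem p_mt (hx : S_xp) (hl : S_lp) : S_mt := by
  intro m V N hm hV hV2 hN
  have hN0 : (0 : ℝ) < N := by exact_mod_cast hN
  have hA := mt_one_le_AA V.primeFactors
  obtain ⟨hL1, hL2⟩ := hl V.primeFactors (fun p hp => Nat.prime_of_mem_primeFactors hp)
  have hL0 : 0 < LP V.primeFactors := lt_of_lt_of_le (by positivity) hL1
  have hC := C32_nonneg
  rw [mt_MT]
  have hexp : ∑ d ∈ Ioc 0 N, FW m V d = ∑ δ ∈ Ioc 0 N, GW m V δ * YW V (N / δ) := by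
    rw [← CW_mul_AW m V hV2, ← GW_mul_EW, mul_assoc, sum_Ioc_mul_eq_sum_sum]
    apply Finset.sum_congr rfl
    intro δ _
    rw [sum_Ioc_mul_eq_sum_sum]
    unfold YW
    congr 1
    apply Finset.sum_congr rfl
    intro e _
    rw [sum_AW V hV.ne']
  obtain ⟨A, hAd⟩ : ∃ A, A = AA V.primeFactors := ⟨_, rfl⟩
  obtain ⟨L, hLd⟩ : ∃ L, L = LP V.primeFactors := ⟨_, rfl⟩
  obtain ⟨X, hXd⟩ : ∃ X, X = (2 * A * C32 / L) ^ 4 := ⟨_, rfl⟩
  have hX0 : 0 ≤ X := by rw [hXd]; positivity
  have hYpos : ∀ M : ℕ, 1 ≤ M → X ≤ M → 0 ≤ YW V M := by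
    intro M hM1 hM
    have h1 := mt_YW_ge hx V hV2 hL0.le hM1
    rw [← hAd, ← hLd] at h1
    rw [← hLd] at hL0
    rw [← hAd] at hA
    have hM0 : (0 : ℝ) < M := by exact_mod_cast hM1
    have hq : 0 ≤ 2 * A * C32 / L := by positivity
    have h2 : 2 * A * C32 / L ≤ r4 M := by
      have h3 := r4_pow hM0.le
      rw [← h3, hXd] at hM
      exact le_of_pow_le_pow_left₀ (by norm_num) (r4_nonneg hM0.le) hM
    have hr : 0 < r4 M := r4_pos hM0
    have h3 : A * C32 / r4 M ≤ L / 2 := by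
      rw [div_le_iff₀ hL0] at h2
      rw [div_le_div_iff₀ hr two_pos]
      linarith
    linarith
  have hsplit : Ioc 0 N = insert 1 (Ioc 1 N) := by
    ext x; simp only [mem_Ioc, mem_insert]; omega
  rw [hexp, hsplit, sum_insert (by simp)]
  have h1 : GW m V 1 = 1 := by
    rw [GW_apply, if_pos ⟨Nat.coprime_one_left V, one_dvd m⟩]; simp
  rw [h1, one_mul, Nat.div_one]
  have h2 := mt_YW_ge hx V hV2 hL0.le hN
  have h3 : -(4 * A * (X + 1) * m.divisors.card / N) ≤
      ∑ δ ∈ Ioc 1 N, GW m V δ * YW V (N / δ) := by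
    rw [← hAd] at hA
    have h6 : 0 ≤ 4 * A * (X + 1) / N := by positivity
    have h4 : ∀ δ ∈ Ioc 1 N, -(if δ ∣ m then 4 * A * (X + 1) / N else 0) ≤
        GW m V δ * YW V (N / δ) := by
      intro δ hδ
      rw [mem_Ioc] at hδ
      have hδ0 : (0 : ℝ) < δ := by
        have : 0 < δ := by omega
        exact_mod_cast this
      by_cases hc : Nat.Coprime δ V ∧ δ ∣ m
      · rw [GW_apply, if_pos hc, if_pos hc.2]
        have hM1 : 1 ≤ N / δ := (Nat.one_le_div_iff (by omega)).2 hδ.2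
        by_cases hbig : X ≤ ((N / δ : ℕ) : ℝ)
        · have := hYpos _ hM1 hbig
          have h5 : 0 ≤ 1 / (δ : ℝ) * YW V (N / δ) := by positivity
          linarith
        · rw [not_le] at hbig
          have h5 : N ≤ δ * (N / δ + 1) := by
            have := Nat.lt_mul_div_succ N (show 0 < δ by omega)
            omega
          have h5' : (N : ℝ) ≤ δ * (((N / δ : ℕ) : ℝ) + 1) := by exact_mod_cast h5
          have h7 : 1 / (δ : ℝ) ≤ (X + 1) / N := by
            rw [div_le_div_iff₀ hδ0 hN0, one_mul]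
            calc (N : ℝ) ≤ δ * (((N / δ : ℕ) : ℝ) + 1) := h5'
              _ ≤ δ * (X + 1) := mul_le_mul_of_nonneg_left (by linarith) hδ0.le
              _ = (X + 1) * δ := by ring
          have h9 : |1 / (δ : ℝ) * YW V (N / δ)| ≤ (X + 1) / N * (4 * A) := by
            rw [abs_mul, abs_of_pos (by positivity : 0 < 1 / (δ : ℝ))]
            have := mt_abs_YW hx hl V (N / δ)
            rw [← hAd] at this
            exact mul_le_mul h7 this (abs_nonneg _) (by positivity)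
          rw [abs_le] at h9
          calc _ = -((X + 1) / N * (4 * A)) := by ring
            _ ≤ _ := h9.1
      · rw [GW_apply, if_neg hc, zero_mul]
        split_ifs
        · linarith
        · simp
    calc _ ≤ ∑ δ ∈ Ioc 1 N, -(if δ ∣ m then 4 * A * (X + 1) / N else 0) := by
          rw [Finset.sum_neg_distrib, neg_le_neg_iff, ← Finset.sum_filter, Finset.sum_const,
            nsmul_eq_mul]
          have h5 : ((Ioc 1 N).filter (fun δ => δ ∣ m)).card ≤ m.divisors.card := by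
            apply Finset.card_le_card
            intro δ hδ
            rw [mem_filter] at hδ
            exact Nat.mem_divisors.mpr ⟨hδ.2, hm⟩
          have h7 : (((Ioc 1 N).filter (fun δ => δ ∣ m)).card : ℝ) ≤ m.divisors.card := by
            exact_mod_cast h5
          calc _ ≤ (m.divisors.card : ℝ) * (4 * A * (X + 1) / N) :=
                mul_le_mul_of_nonneg_right h7 h6
            _ = _ := by ring
      _ ≤ _ := Finset.sum_le_sum h4
  rw [← hAd, ← hLd] at h2 ⊢
  rw [← hXd]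
  linarith

end Pool.Agent.Lib.MP1e1427.LG
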