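import Pool.Agent.Lib.MP_1e1427_nt.LG.Stm

/-!
# Piece `nof`: no small prime factors
-/

set_option autoImplicit false

namespace Pool.Agent.Lib.MP1e1427.LG

open Finset
open Pool.Agent.Lib.MP1e1427

private lemma nof_dvd_lcmUpto {m T : ℕ} (h0 : 0 < m) (h : m ≤ T) : m ∣ Nat.lcmUpto T := by
  unfold Nat.lcmUpto
  exact Finset.dvd_lcm (f := id) (Finset.mem_Icc.2 ⟨h0, h⟩)

private lemma nof_smooth {h T : ℕ} (h0 : 0 < h) (hT : h < T ^ 2)
    (hq : ∀ q : ℕ, q.Prime → q ∣ h → q ≤ T) : h ∣ Nat.lcmUpto T ^ 3 := by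
  have hΛ : Nat.lcmUpto T ^ 3 ≠ 0 := pow_ne_zero _ (Nat.lcmUpto_ne_zero T)
  rw [← Nat.factorization_prime_le_iff_dvd h0.ne' hΛ]
  intro q hqp
  rw [Nat.factorization_pow, Finsupp.smul_apply, smul_eq_mul, Nat.factorization_lcmUpto T hqp]
  by_cases hqh : q ∣ h
  · have hqT := hq q hqp hqh
    have h1 : 1 ≤ Nat.log q T := Nat.log_pos hqp.one_lt hqT
    have h2 : T < q ^ (Nat.log q T + 1) := Nat.lt_pow_succ_log_self hqp.one_lt T
    have h3 : q ^ h.factorization q ≤ h := Nat.le_of_dvd h0 (Nat.ordProj_dvd h q)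
    have h4 : T ^ 2 ≤ (q ^ (Nat.log q T + 1)) ^ 2 := Nat.pow_le_pow_left h2.le 2
    rw [← pow_mul] at h4
    have h5 : q ^ h.factorization q < q ^ ((Nat.log q T + 1) * 2) :=
      lt_of_le_of_lt h3 (lt_of_lt_of_le hT h4)
    have h6 := (Nat.pow_lt_pow_iff_right hqp.one_lt).1 h5
    omega
  · rw [Nat.factorization_eq_zero_of_not_dvd hqh]
    exact Nat.zero_le _

theorem p_nof : S_nof := by
  intro n z T₀ Wu W ν W₁ α a b hWu hz hW hWν hW₁ hα ha hb ha0 hb0 hbad p hp hpz hdiv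
  have hΛ0 := Nat.lcmUpto_pos T₀
  have hW0 : 0 < W := by
    rw [hW]
    positivity
  have hp2 : p ≠ 2 := by
    rintro rfl
    have h1 : 2 ∣ 2 ^ a := dvd_pow_self 2 ha0.ne'
    have h2 : 2 ∣ 2 ^ b := dvd_pow_self 2 hb0.ne'
    omega
  have hp3 : 3 ≤ p := by
    have := hp.two_le
    omega
  have : Fact p.Prime := ⟨hp⟩
  have h2ne : (2 : ZMod p) ≠ 0 := Ring.two_ne_zero (R := ZMod p) (by rwa [ZMod.ringChar_zmod_n])
  have hT4 : 4 ≤ T₀ := by
    by_contra hlt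
    have h1 : T₀ ≤ 3 := by omega
    have h2 : T₀ ^ 2 ≤ 3 ^ 2 := Nat.pow_le_pow_left h1 2
    omega
  set h := orderOf (2 : ZMod p) with hh
  have hhd : h ∣ p - 1 := ZMod.orderOf_dvd_card_sub_one h2ne
  have hh0 : 0 < h := Nat.pos_of_dvd_of_pos hhd (by omega)
  have hhp : h ≤ p - 1 := Nat.le_of_dvd (by omega) hhd
  have hhT : h < T₀ ^ 2 := by omega
  -- the order does not divide `W`
  have hnot : ¬ h ∣ W := by
    intro hhW
    have h1 : (2 : ZMod p) ^ W = 1 := orderOf_dvd_iff_pow_eq_one.1 hhW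
    have hpW : p ∣ 2 ^ W - 1 := by
      rw [← ZMod.natCast_eq_zero_iff, Nat.cast_sub Nat.one_le_two_pow]
      push_cast
      rw [h1, sub_self]
    have hνW : 2 ^ ν ∣ W := ⟨W₁, hWν⟩
    exact not_dvd_of_residue hW0 hWν hW₁ ha0 ((ha.of_dvd hνW).trans hα) hb hp hpW hdiv
  have hΛW : Nat.lcmUpto T₀ ∣ W := by
    rw [hW, pow_succ, ← mul_assoc]
    exact Dvd.intro_left _ rfl
  by_cases hsm : ∀ q : ℕ, q.Prime → q ∣ h → q ≤ T₀
  · apply hnot
    have h1 : h ∣ Nat.lcmUpto T₀ ^ 3 := nof_smooth hh0 hhT hsm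
    rw [hW]
    exact h1.trans (Dvd.intro_left _ rfl)
  · push Not at hsm
    obtain ⟨r, hr, hrh, hrT⟩ := hsm
    obtain ⟨h', hh'⟩ := hrh
    have hh'0 : 0 < h' := by
      rcases Nat.eq_zero_or_pos h' with h1 | h1
      · rw [h1, mul_zero] at hh'
        omega
      · exact h1
    have hh'T : h' ≤ T₀ := by
      by_contra hlt
      have h1 : T₀ + 1 ≤ h' := by omega
      have h2 : (T₀ + 1) * (T₀ + 1) ≤ r * h' := Nat.mul_le_mul hrT h1
      have h3 : T₀ ^ 2 ≤ (T₀ + 1) * (T₀ + 1) := by nlinarith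
      omega
    have hh'Λ : h' ∣ Nat.lcmUpto T₀ := nof_dvd_lcmUpto hh'0 hh'T
    by_cases hrW : r ∣ W
    · apply hnot
      have hrΛ : ¬ r ∣ Nat.lcmUpto T₀ := by
        intro h1
        have h2 := Nat.factorization_lcmUpto T₀ hr
        rw [Nat.log_of_lt hrT] at h2
        have h3 := hr.factorization_pos_of_dvd hΛ0.ne' h1
        omega
      have hrWu : r ∣ Wu := by
        rw [hW] at hrW
        rcases hr.dvd_mul.1 hrW with h1 | h1
        · rcases hr.dvd_mul.1 h1 with h2 | h2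
          · have := Nat.le_of_dvd (by norm_num) h2
            omega
          · exact h2
        · exact absurd (hr.dvd_of_dvd_pow h1) hrΛ
      rw [hh', hW]
      have h1 : r * h' ∣ Wu * Nat.lcmUpto T₀ := mul_dvd_mul hrWu hh'Λ
      refine h1.trans ⟨2 * Nat.lcmUpto T₀ ^ 2, ?_⟩
      ring
    · refine hbad r hr hrT ?_ hrW ?_
      · have h1 : r ≤ h := by
          rw [hh']
          exact Nat.le_mul_of_pos_right _ hh'0
        omega
      · classical
        unfold bad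
        rw [Finset.mem_filter]
        refine ⟨?_, Or.inl ⟨p, a, b, hp, hpz, hp2, ⟨h', hh'⟩, ?_, ha, hb, ?_, ?_, hdiv⟩⟩
        · rw [Finset.mem_product, Finset.mem_range, Finset.mem_range]
          exact ⟨Nat.mod_lt _ hr.pos, Nat.mod_lt _ hr.pos⟩
        · show h ∣ W * r
          rw [hh', mul_comm r h']
          exact mul_dvd_mul (hh'Λ.trans hΛW) dvd_rfl
        · exact (Nat.mod_modEq a r).symm
        · exact (Nat.mod_modEq b r).symm

end Pool.Agent.Lib.MP1e1427.LG
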