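import Pool.Agent.Lib.MP_1e1427_nt.LG.Stm

/-!
Piece ps: sums over primes.
-/

set_option autoImplicit false

namespace Pool.Agent.Lib.MP1e1427.LG

open Finset ArithmeticFunction
open Pool.Agent.Lib.MP1e1427

/-- Chebyshev's function at natural numbers. -/
noncomputable def ps_A (z : ℕ) : ℝ := ∑ r ∈ (Ioc 0 z).filter Nat.Prime, Real.log r

lemma ps_A_le (z : ℕ) : ps_A z ≤ Real.log 4 * z := by
  have h := Chebyshev.theta_le_log4_mul_x (x := (z : ℝ)) (Nat.cast_nonneg z)
  have h2 : Chebyshev.theta (z : ℝ) = ps_A z := by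
    unfold Chebyshev.theta ps_A
    rw [Nat.floor_natCast]
  rwa [h2] at h

lemma ps_A_nonneg (z : ℕ) : 0 ≤ ps_A z :=
  Finset.sum_nonneg fun r _ => Real.log_natCast_nonneg r

lemma ps_A_succ (z : ℕ) : ps_A (z + 1) = ps_A z + (if (z + 1).Prime then Real.log ((z : ℝ) + 1) else 0) := by
  unfold ps_A
  rw [Finset.sum_filter, Finset.sum_filter, sum_Ioc_succ_top (Nat.zero_le z)]
  push_cast
  rfl

lemma ps_S_succ (g : ℕ → ℝ) {T z : ℕ} (hTz : T ≤ z) :
    ∑ r ∈ (Ioc T (z + 1)).filter Nat.Prime, Real.log r * g r =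
      ∑ r ∈ (Ioc T z).filter Nat.Prime, Real.log r * g r +
        (if (z + 1).Prime then Real.log ((z : ℝ) + 1) else 0) * g (z + 1) := by
  rw [Finset.sum_filter, Finset.sum_filter, sum_Ioc_succ_top hTz]
  congr 1
  push_cast
  split_ifs <;> simp

lemma ps_S_succ' (g : ℕ → ℝ) {T z : ℕ} (hTz : T ≤ z) :
    ∑ r ∈ (Ioc T (z + 1)).filter Nat.Prime, Real.log r * g r =
      ∑ r ∈ (Ioc T z).filter Nat.Prime, Real.log r * g r +
        (ps_A (z + 1) - ps_A z) * g (z + 1) := by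
  rw [ps_S_succ g hTz, ps_A_succ z]
  ring

lemma ps_two {T : ℕ} (hT : 1 ≤ T) (z : ℕ) (hz : T ≤ z) :
    ∑ r ∈ (Ioc T z).filter Nat.Prime, Real.log r * (1 / (r : ℝ) ^ 2) ≤
      ps_A z / (z : ℝ) ^ 2 + 2 * Real.log 4 * (1 / (T : ℝ) - 1 / z) := by
  have hc : 0 ≤ Real.log 4 := Real.log_nonneg (by norm_num)
  induction z, hz using Nat.le_induction with
  | base =>
    have : 0 ≤ ps_A T / (T : ℝ) ^ 2 := div_nonneg (ps_A_nonneg T) (by positivity)
    simp only [Finset.Ioc_self, Finset.filter_empty, Finset.sum_empty, sub_self, mul_zero, add_zero]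
    exact this
  | succ z hz ih =>
    rw [ps_S_succ' (fun r => 1 / (r : ℝ) ^ 2) hz]
    have hz0 : (0 : ℝ) < z := by
      have : 0 < z := by omega
      exact_mod_cast this
    have hA := ps_A_le z
    have key : ps_A z * (1 / (z : ℝ) ^ 2 - 1 / ((z : ℝ) + 1) ^ 2) ≤
        2 * Real.log 4 * (1 / (z : ℝ) - 1 / ((z : ℝ) + 1)) := by
      have h1 : 1 / (z : ℝ) ^ 2 - 1 / ((z : ℝ) + 1) ^ 2 = (2 * z + 1) / ((z : ℝ) ^ 2 * ((z : ℝ) + 1) ^ 2) := by
        field_simp
        ring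
      have h2 : 1 / (z : ℝ) - 1 / ((z : ℝ) + 1) = 1 / ((z : ℝ) * ((z : ℝ) + 1)) := by
        field_simp
        ring
      rw [h1, h2]
      have h3 : 0 ≤ (2 * (z : ℝ) + 1) / ((z : ℝ) ^ 2 * ((z : ℝ) + 1) ^ 2) := by positivity
      calc ps_A z * ((2 * z + 1) / ((z : ℝ) ^ 2 * ((z : ℝ) + 1) ^ 2))
          ≤ (Real.log 4 * z) * ((2 * z + 1) / ((z : ℝ) ^ 2 * ((z : ℝ) + 1) ^ 2)) :=
            mul_le_mul_of_nonneg_right hA h3
        _ = Real.log 4 * ((2 * z + 1) / ((z : ℝ) * ((z : ℝ) + 1) ^ 2)) := by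
            field_simp
        _ ≤ Real.log 4 * (2 * (1 / ((z : ℝ) * ((z : ℝ) + 1)))) := by
            refine mul_le_mul_of_nonneg_left ?_ hc
            rw [mul_one_div, div_le_div_iff₀ (by positivity) (by positivity)]
            have : 0 ≤ (z : ℝ) * ((z : ℝ) + 1) := by positivity
            nlinarith
        _ = _ := by ring
    push_cast
    have e1 : ps_A (z + 1) / ((z : ℝ) + 1) ^ 2 = ps_A (z + 1) * (1 / ((z : ℝ) + 1) ^ 2) := by ring
    have e2 : ps_A z / (z : ℝ) ^ 2 = ps_A z * (1 / (z : ℝ) ^ 2) := by ring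
    rw [e1]
    rw [e2] at ih
    nlinarith [ih, key]

lemma ps_one {T : ℕ} (hT : 1 ≤ T) (z : ℕ) (hz : T ≤ z) :
    ∑ r ∈ (Ioc T z).filter Nat.Prime, Real.log r * (1 / (r : ℝ)) ≤
      ps_A z / (z : ℝ) + Real.log 4 * (Real.log z - Real.log T) := by
  have hc : 0 ≤ Real.log 4 := Real.log_nonneg (by norm_num)
  induction z, hz using Nat.le_induction with
  | base =>
    have : 0 ≤ ps_A T / (T : ℝ) := div_nonneg (ps_A_nonneg T) (by positivity)
    simp only [Finset.Ioc_self, Finset.filter_empty, Finset.sum_empty, sub_self, mul_zero, add_zero]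
    exact this
  | succ z hz ih =>
    rw [ps_S_succ' (fun r => 1 / (r : ℝ)) hz]
    have hz0 : (0 : ℝ) < z := by
      have : 0 < z := by omega
      exact_mod_cast this
    have hA := ps_A_le z
    have key : ps_A z * (1 / (z : ℝ) - 1 / ((z : ℝ) + 1)) ≤
        Real.log 4 * (Real.log ((z : ℝ) + 1) - Real.log z) := by
      have h2 : 1 / (z : ℝ) - 1 / ((z : ℝ) + 1) = 1 / ((z : ℝ) * ((z : ℝ) + 1)) := by
        field_simp
        ring
      rw [h2]
      have h3 : 0 ≤ 1 / ((z : ℝ) * ((z : ℝ) + 1)) := by positivity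
      have h4 : 1 / ((z : ℝ) + 1) ≤ Real.log ((z : ℝ) + 1) - Real.log z := by
        rw [← Real.log_div (by positivity) (by positivity)]
        have h5 := Real.one_sub_inv_le_log_of_pos (x := ((z : ℝ) + 1) / z) (by positivity)
        have h6 : 1 - (((z : ℝ) + 1) / z)⁻¹ = 1 / ((z : ℝ) + 1) := by
          field_simp
          ring
        rwa [h6] at h5
      calc ps_A z * (1 / ((z : ℝ) * ((z : ℝ) + 1)))
          ≤ (Real.log 4 * z) * (1 / ((z : ℝ) * ((z : ℝ) + 1))) :=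
            mul_le_mul_of_nonneg_right hA h3
        _ = Real.log 4 * (1 / ((z : ℝ) + 1)) := by
            field_simp
        _ ≤ _ := mul_le_mul_of_nonneg_left h4 hc
    push_cast
    have e1 : ps_A (z + 1) / ((z : ℝ) + 1) = ps_A (z + 1) * (1 / ((z : ℝ) + 1)) := by ring
    have e2 : ps_A z / (z : ℝ) = ps_A z * (1 / (z : ℝ)) := by ring
    rw [e1]
    rw [e2] at ih
    nlinarith [ih, key]

theorem p_ps : S_ps := by
  have hc1 : (1 : ℝ) ≤ Real.log 4 := by
    have : (4 : ℝ) = 2 ^ 2 := by norm_num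
    rw [this, Real.log_pow]
    have := Real.log_two_gt_d9
    push_cast
    linarith
  refine ⟨9 * Real.log 4, by linarith, ?_⟩
  intro T z hT hz
  set c := Real.log 4 with hc
  have hc0 : 0 ≤ c := by linarith
  have hT2 : (2 : ℝ) ≤ T := by exact_mod_cast hT
  have hT0 : (0 : ℝ) < T := by linarith
  have hlT : 0 < Real.log T := Real.log_pos (by linarith)
  rcases Nat.lt_or_ge z T with hlt | hge
  · rw [Finset.Ioc_eq_empty (by omega)]
    simp only [Finset.filter_empty, Finset.sum_empty]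
    positivity
  have hz0 : (0 : ℝ) < z := by
    have : 0 < z := by omega
    exact_mod_cast this
  have hzT : (z : ℝ) ≤ (T : ℝ) ^ 2 := by exact_mod_cast hz
  have h1 := ps_one (by omega : 1 ≤ T) z hge
  have h2 := ps_two (by omega : 1 ≤ T) z hge
  have hA := ps_A_le z
  rw [le_div_iff₀ hlT]
  have h3 : (∑ r ∈ (Ioc T z).filter Nat.Prime, ((z : ℝ) / (r : ℝ) ^ 2 + 2 / r)) * Real.log T ≤
      z * (∑ r ∈ (Ioc T z).filter Nat.Prime, Real.log r * (1 / (r : ℝ) ^ 2)) +
        2 * (∑ r ∈ (Ioc T z).filter Nat.Prime, Real.log r * (1 / (r : ℝ))) := by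
    rw [Finset.sum_mul, Finset.mul_sum, Finset.mul_sum, ← Finset.sum_add_distrib]
    refine Finset.sum_le_sum fun r hr => ?_
    have hr' := (Finset.mem_Ioc.1 (Finset.mem_filter.1 hr).1).1
    have hrT : (T : ℝ) ≤ r := by exact_mod_cast hr'.le
    have hl : Real.log T ≤ Real.log r := Real.log_le_log hT0 hrT
    have hr0 : (0 : ℝ) < r := by linarith
    have h4 : 0 ≤ (z : ℝ) / (r : ℝ) ^ 2 + 2 / r := by positivity
    calc ((z : ℝ) / (r : ℝ) ^ 2 + 2 / r) * Real.log T
        ≤ ((z : ℝ) / (r : ℝ) ^ 2 + 2 / r) * Real.log r := mul_le_mul_of_nonneg_left hl h4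
      _ = _ := by ring
  have h5 : z * (ps_A z / (z : ℝ) ^ 2 + 2 * c * (1 / (T : ℝ) - 1 / z)) ≤ c + 2 * c * T := by
    have e : z * (ps_A z / (z : ℝ) ^ 2 + 2 * c * (1 / (T : ℝ) - 1 / z)) =
        ps_A z / z + 2 * c * (z / T) - 2 * c := by
      field_simp
      ring
    rw [e]
    have h6 : ps_A z / z ≤ c := by
      rw [div_le_iff₀ hz0]
      exact hA
    have h7 : (z : ℝ) / T ≤ T := by
      rw [div_le_iff₀ hT0]
      nlinarith
    nlinarith
  have h8 : ps_A z / (z : ℝ) + c * (Real.log z - Real.log T) ≤ c + c * T := by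
    have h6 : ps_A z / z ≤ c := by
      rw [div_le_iff₀ hz0]
      exact hA
    have h9 : Real.log z ≤ 2 * Real.log T := by
      have := Real.log_le_log hz0 hzT
      rw [Real.log_pow] at this
      exact_mod_cast this
    have h10 : Real.log T ≤ T := (Real.log_le_sub_one_of_pos hT0).trans (by linarith)
    nlinarith
  have h11 := mul_le_mul_of_nonneg_left h2 hz0.le
  nlinarith

end Pool.Agent.Lib.MP1e1427.LG
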