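import Pool.Agent.Lib.MP_1e1427_nt.LG.Stm

/-!
# MP_1e1427_nt, project LG: the sieve inequality
-/

set_option autoImplicit false

namespace Pool.Agent.Lib.MP1e1427.LG

open Finset ArithmeticFunction
open Pool.Agent.Lib.MP1e1427

lemma siv_UU_nonneg (m N : ℕ) : 0 ≤ UU m N :=
  sum_nonneg fun d _ => by positivity

lemma siv_abs_MT (F : ℕ → ℝ) (hF : ∀ d, |F d| ≤ 1) (m N : ℕ) : |MT F m N| ≤ UU m N := by
  rw [MT, UU]
  refine (abs_sum_le_sum_abs _ _).trans (sum_le_sum fun d _ => ?_)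
  rw [abs_div, abs_mul, abs_of_nonneg (by positivity : (0 : ℝ) ≤ (d : ℝ) ^ 2)]
  have h1 : |F d| * |((rfun m d : ℤ) : ℝ)| ≤ 1 * |((rfun m d : ℤ) : ℝ)| :=
    mul_le_mul_of_nonneg_right (hF d) (abs_nonneg _)
  rw [one_mul] at h1
  exact div_le_div_of_nonneg_right h1 (by positivity)

lemma siv_abs_chi (V d : ℕ) : |Fchi V d| ≤ Fone V d := by
  rw [Fchi, Fone]
  split_ifs
  · exact_mod_cast abs_chi_le d
  · simp

lemma siv_one_le (V d : ℕ) : |Fone V d| ≤ 1 := by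
  rw [Fone]
  split_ifs <;> simp

lemma siv_one_nonneg (V d : ℕ) : 0 ≤ Fone V d := by
  rw [Fone]
  split_ifs <;> norm_num

lemma siv_gs_abs (V N Q : ℕ) : |gs (Fchi V) N Q| ≤ gs (Fone V) N Q := by
  rw [gs, gs]
  exact (abs_sum_le_sum_abs _ _).trans (sum_le_sum fun d _ => siv_abs_chi V d)

lemma siv_EB_mono (T : ℝ) (hT : 0 ≤ T) (m K N D D' : ℕ) (h : D ≤ D') :
    EB T m K N D ≤ EB T m K N D' := by
  rw [EB, EB]
  have h1 : (D : ℝ) ≤ D' := by exact_mod_cast h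
  have h2 : 0 ≤ T + UU m N := add_nonneg hT (siv_UU_nonneg m N)
  have h3 : 4 * (K : ℝ) ^ 3 * D ≤ 4 * (K : ℝ) ^ 3 * D' :=
    mul_le_mul_of_nonneg_left h1 (by positivity)
  have h4 := mul_le_mul_of_nonneg_right h3 h2
  linarith

/-- the indices whose point lies in the bad classes for all `r ∈ D` -/
def siv_box (D : Finset ℕ) (B : ℕ → Finset (ℕ × ℕ)) (K a₀ b₀ W : ℕ) :
    Finset ((ℕ × ℕ) × (ℕ × ℕ)) :=
  (ibox K).filter (fun w => ∀ r ∈ D, (bpt a₀ W w.1 % r, bpt b₀ W w.2 % r) ∈ B r)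

lemma siv_one (hc : S_cls) (hr : S_crt) (m N W K a₀ b₀ M : ℕ) (T : ℝ) (R : Finset ℕ)
    (B : ℕ → Finset (ℕ × ℕ)) (hm : 0 < m) (hW : 0 < W) (hW2 : W % 2 = 0) (hN : 1 ≤ N)
    (hR : ∀ r ∈ R, r.Prime ∧ ¬ r ∣ W) (hB : ∀ r ∈ R, B r ⊆ range r ×ˢ range r)
    (hbox : ∀ w ∈ ibox K, bpt a₀ W w.1 ^ 2 + bpt b₀ W w.2 ^ 2 < m)
    (hT : ∀ l, 0 < l → l ≤ m * N → (l.divisors.card : ℝ) ≤ T)
    (F : ℕ → ℝ) (hF : ∀ d, |F d| ≤ 1) (hF0 : ∀ d, ¬ Nat.Coprime d (VV W R) → F d = 0)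
    (D : Finset ℕ) (hD : D ⊆ R) (hM : ∏ r ∈ D, r ≤ M) :
    |∑ w ∈ siv_box D B K a₀ b₀ W, gs F N (Qw m a₀ b₀ W w) -
        (K : ℝ) ^ 4 * (∏ r ∈ D, om B r) * MT F m N| ≤
      (∏ r ∈ D, ((B r).card : ℝ)) * EB T m K N M := by
  classical
  have hT0 : 0 ≤ T := by
    have h1 := hT 1 one_pos (Nat.mul_pos hm hN)
    have h2 : (0 : ℝ) ≤ ((Nat.divisors 1).card : ℝ) := Nat.cast_nonneg _
    linarith
  have hDp : ∀ r ∈ D, r.Prime := fun r h => (hR r (hD h)).1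
  set P := ∏ r ∈ D, r with hP
  have hP0 : 0 < P := Finset.prod_pos fun r h => (hDp r h).pos
  have hcop : Nat.Coprime W P := by
    rw [hP]
    exact Nat.Coprime.prod_right fun r h =>
      ((Nat.Prime.coprime_iff_not_dvd (hDp r h)).2 (hR r (hD h)).2).symm
  have hdvd : ∀ r ∈ D, r ∣ P := fun r h => Finset.dvd_prod_of_mem (fun r => r) h
  have hVdvd : W * P ∣ VV W R := by
    rw [VV]
    exact Nat.mul_dvd_mul_left W (Finset.prod_dvd_prod_of_subset _ _ _ hD)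
  have hF1 : ∀ d, ¬ Nat.Coprime d (W * P) → F d = 0 := fun d h =>
    hF0 d fun h' => h (Nat.Coprime.coprime_dvd_right hVdvd h')
  set S := (range P ×ˢ range P).filter (fun st : ℕ × ℕ => ∀ r ∈ D, (st.1 % r, st.2 % r) ∈ B r)
    with hS
  have hScard : S.card = ∏ r ∈ D, (B r).card := hr D B hDp fun r h => hB r (hD h)
  have hmap : ∀ w ∈ siv_box D B K a₀ b₀ W, (bpt a₀ W w.1 % P, bpt b₀ W w.2 % P) ∈ S := by
    intro w hw
    rw [siv_box, mem_filter] at hw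
    rw [hS, mem_filter, mem_product, mem_range, mem_range]
    refine ⟨⟨Nat.mod_lt _ hP0, Nat.mod_lt _ hP0⟩, fun r h => ?_⟩
    rw [Nat.mod_mod_of_dvd _ (hdvd r h), Nat.mod_mod_of_dvd _ (hdvd r h)]
    exact hw.2 r h
  rw [← sum_fiberwise_of_maps_to hmap]
  have hfib : ∀ st ∈ S, ∑ w ∈ (siv_box D B K a₀ b₀ W).filter
      (fun w => (bpt a₀ W w.1 % P, bpt b₀ W w.2 % P) = st), gs F N (Qw m a₀ b₀ W w) =
      ∑ w ∈ (ibox K).filter (fun w => bpt a₀ W w.1 ≡ st.1 [MOD P] ∧ bpt b₀ W w.2 ≡ st.2 [MOD P]),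
        gs F N (Qw m a₀ b₀ W w) := by
    intro st hst
    rw [hS, mem_filter, mem_product, mem_range, mem_range] at hst
    obtain ⟨⟨h1, h2⟩, h3⟩ := hst
    refine sum_congr ?_ fun _ _ => rfl
    ext w
    rw [mem_filter, siv_box, mem_filter, mem_filter]
    have e1 : (bpt a₀ W w.1 ≡ st.1 [MOD P]) ↔ bpt a₀ W w.1 % P = st.1 := by
      rw [Nat.ModEq, Nat.mod_eq_of_lt h1]
    have e2 : (bpt b₀ W w.2 ≡ st.2 [MOD P]) ↔ bpt b₀ W w.2 % P = st.2 := by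
      rw [Nat.ModEq, Nat.mod_eq_of_lt h2]
    rw [e1, e2, Prod.ext_iff]
    constructor
    · rintro ⟨⟨h4, -⟩, h5⟩
      exact ⟨h4, h5⟩
    · rintro ⟨h4, h5⟩
      refine ⟨⟨h4, fun r h => ?_⟩, h5⟩
      have h6 := h3 r h
      rw [← h5.1, ← h5.2, Nat.mod_mod_of_dvd _ (hdvd r h), Nat.mod_mod_of_dvd _ (hdvd r h)] at h6
      exact h6
  rw [sum_congr rfl hfib]
  have hcls : ∀ st ∈ S, |∑ w ∈ (ibox K).filter (fun w => bpt a₀ W w.1 ≡ st.1 [MOD P] ∧
      bpt b₀ W w.2 ≡ st.2 [MOD P]), gs F N (Qw m a₀ b₀ W w) -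
        (K : ℝ) ^ 4 / (P : ℝ) ^ 2 * MT F m N| ≤ EB T m K N M := fun st _ =>
    (hc m N W K P a₀ b₀ F T hm hW hW2 hN hP0 hcop hF hF1 hbox hT st.1 st.2).trans
      (siv_EB_mono T hT0 m K N P M hM)
  have hmain : (K : ℝ) ^ 4 * (∏ r ∈ D, om B r) * MT F m N =
      ∑ _st ∈ S, (K : ℝ) ^ 4 / (P : ℝ) ^ 2 * MT F m N := by
    rw [sum_const, hScard, nsmul_eq_mul]
    have h1 : ∏ r ∈ D, om B r = ((∏ r ∈ D, (B r).card : ℕ) : ℝ) / (P : ℝ) ^ 2 := by
      rw [hP]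
      push_cast
      rw [← Finset.prod_pow, ← Finset.prod_div_distrib]
      rfl
    rw [h1]
    ring
  rw [hmain, ← sum_sub_distrib]
  refine (abs_sum_le_sum_abs _ _).trans ((sum_le_sum hcls).trans_eq ?_)
  rw [sum_const, hScard, nsmul_eq_mul]
  push_cast
  rfl

theorem p_siv (hc : S_cls) (hb : S_bon) (hr : S_crt) : S_siv := by
  classical
  intro m N W K a₀ b₀ k M T R B hm hW hW2 hN hR hB hbox hT hM
  set V := VV W R with hV
  set g : (ℕ × ℕ) × (ℕ × ℕ) → ℝ := fun w => gs (Fchi V) N (Qw m a₀ b₀ W w) with hg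
  set G : (ℕ × ℕ) × (ℕ × ℕ) → ℝ := fun w => gs (Fone V) N (Qw m a₀ b₀ W w) with hG
  set E := EB T m K N M with hE
  have habs : ∀ w, |g w| ≤ G w := fun w => siv_gs_abs V N _
  have hFc : ∀ d, |Fchi V d| ≤ 1 := fun d =>
    (siv_abs_chi V d).trans ((le_abs_self _).trans (siv_one_le V d))
  have hFc0 : ∀ d, ¬ Nat.Coprime d V → Fchi V d = 0 := fun d h => by rw [Fchi, if_neg h]
  have hFo0 : ∀ d, ¬ Nat.Coprime d V → Fone V d = 0 := fun d h => by rw [Fone, if_neg h]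
  -- the indicator functions
  set I : (ℕ × ℕ) × (ℕ × ℕ) → ℕ → ℝ := fun w r =>
    if (bpt a₀ W w.1 % r, bpt b₀ W w.2 % r) ∈ B r then 1 else 0 with hI
  have hI01 : ∀ w, ∀ r ∈ R, 0 ≤ I w r ∧ I w r ≤ 1 := fun w r _ => by
    rw [hI]
    dsimp only
    split_ifs <;> norm_num
  have hID : ∀ (D : Finset ℕ) (f : (ℕ × ℕ) × (ℕ × ℕ) → ℝ),
      ∑ w ∈ ibox K, (∏ r ∈ D, I w r) * f w = ∑ w ∈ siv_box D B K a₀ b₀ W, f w := by
    intro D f
    rw [siv_box, sum_filter]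
    refine sum_congr rfl fun w _ => ?_
    rw [hI]
    dsimp only
    rw [Finset.prod_ite_zero]
    split_ifs with h1
    · simp
    · simp
  have hX : ∑ w ∈ gbox R B K a₀ b₀ W, g w = ∑ w ∈ ibox K, (∏ r ∈ R, (1 - I w r)) * g w := by
    rw [gbox, sum_filter]
    refine sum_congr rfl fun w _ => ?_
    have h1 : ∏ r ∈ R, (1 - I w r) =
        if ∀ r ∈ R, ¬ (bpt a₀ W w.1 % r, bpt b₀ W w.2 % r) ∈ B r then 1 else 0 := by
      have h2 : ∀ r ∈ R, 1 - I w r =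
          if ¬ (bpt a₀ W w.1 % r, bpt b₀ W w.2 % r) ∈ B r then 1 else 0 := fun r _ => by
        rw [hI]
        dsimp only
        by_cases h : (bpt a₀ W w.1 % r, bpt b₀ W w.2 % r) ∈ B r
        · rw [if_pos h, if_neg (not_not.2 h), sub_self]
        · rw [if_neg h, if_pos h, sub_zero]
      rw [prod_congr rfl h2, Finset.prod_ite_zero]
      simp
    rw [h1]
    split_ifs <;> simp
  -- the lower bound
  have hlow : ∑ D ∈ R.powerset.filter (fun D => D.card ≤ k), (-1 : ℝ) ^ D.card *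
      (∑ w ∈ siv_box D B K a₀ b₀ W, g w) -
      ∑ D ∈ R.powersetCard (k + 1), ∑ w ∈ siv_box D B K a₀ b₀ W, G w ≤
        ∑ w ∈ gbox R B K a₀ b₀ W, g w := by
    have e1 : ∑ D ∈ R.powerset.filter (fun D => D.card ≤ k), (-1 : ℝ) ^ D.card *
        (∑ w ∈ siv_box D B K a₀ b₀ W, g w) = ∑ w ∈ ibox K,
          (∑ D ∈ R.powerset.filter (fun D => D.card ≤ k), (-1 : ℝ) ^ D.card * ∏ r ∈ D, I w r) *
            g w := by
      simp only [← hID, mul_sum, sum_mul]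
      rw [sum_comm]
      refine sum_congr rfl fun w _ => sum_congr rfl fun D _ => ?_
      ring
    have e2 : ∑ D ∈ R.powersetCard (k + 1), ∑ w ∈ siv_box D B K a₀ b₀ W, G w =
        ∑ w ∈ ibox K, (∑ D ∈ R.powersetCard (k + 1), ∏ r ∈ D, I w r) * G w := by
      simp only [← hID, sum_mul]
      rw [sum_comm]
    rw [e1, e2, hX, ← sum_sub_distrib]
    refine sum_le_sum fun w _ => ?_
    have h1 := hb R (I w) k (hI01 w)
    have h2 : |(∑ D ∈ R.powerset.filter (fun D => D.card ≤ k), (-1 : ℝ) ^ D.card *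
        ∏ r ∈ D, I w r - ∏ r ∈ R, (1 - I w r)) * g w| ≤
          (∑ D ∈ R.powersetCard (k + 1), ∏ r ∈ D, I w r) * G w := by
      rw [abs_mul]
      exact mul_le_mul h1 (habs w) (abs_nonneg _) ((abs_nonneg _).trans h1)
    have h3 := (abs_le.1 h2).2
    rw [sub_mul] at h3
    linarith
  -- the sums over the classes
  have hg1 : ∀ D ∈ R.powerset.filter (fun D => D.card ≤ k),
      (-1 : ℝ) ^ D.card * ((K : ℝ) ^ 4 * (∏ r ∈ D, om B r) * MT (Fchi V) m N) -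
        (∏ r ∈ D, ((B r).card : ℝ)) * E ≤
      (-1 : ℝ) ^ D.card * (∑ w ∈ siv_box D B K a₀ b₀ W, g w) := by
    intro D hD
    rw [mem_filter] at hD
    have h1 := siv_one hc hr m N W K a₀ b₀ M T R B hm hW hW2 hN hR hB hbox hT (Fchi V) hFc hFc0
      D (mem_powerset.1 hD.1) (hM D hD.1 (by omega))
    have h2 : |(-1 : ℝ) ^ D.card * (∑ w ∈ siv_box D B K a₀ b₀ W, g w -
        (K : ℝ) ^ 4 * (∏ r ∈ D, om B r) * MT (Fchi V) m N)| ≤
          (∏ r ∈ D, ((B r).card : ℝ)) * E := by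
      rw [abs_mul, abs_pow, abs_neg, abs_one, one_pow, one_mul]
      exact h1
    have h3 := (abs_le.1 h2).1
    rw [mul_sub] at h3
    linarith
  have hG1 : ∀ D ∈ R.powersetCard (k + 1), ∑ w ∈ siv_box D B K a₀ b₀ W, G w ≤
      (K : ℝ) ^ 4 * (∏ r ∈ D, om B r) * UU m N + (∏ r ∈ D, ((B r).card : ℝ)) * E := by
    intro D hD
    rw [mem_powersetCard] at hD
    have h1 := siv_one hc hr m N W K a₀ b₀ M T R B hm hW hW2 hN hR hB hbox hT (Fone V)
      (siv_one_le V) hFo0 D hD.1 (hM D (mem_powerset.2 hD.1) (by omega))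
    have h2 := (abs_le.1 h1).2
    have h3 : (K : ℝ) ^ 4 * (∏ r ∈ D, om B r) * MT (Fone V) m N ≤
        (K : ℝ) ^ 4 * (∏ r ∈ D, om B r) * UU m N := by
      refine mul_le_mul_of_nonneg_left ((le_abs_self _).trans (siv_abs_MT _ (siv_one_le V) m N)) ?_
      refine mul_nonneg (by positivity) (prod_nonneg fun r _ => ?_)
      rw [om]
      positivity
    linarith
  have hom : ∀ r ∈ R, 0 ≤ om B r ∧ om B r ≤ 1 := by
    intro r h
    rw [om]
    have h1 : (B r).card ≤ r ^ 2 := by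
      refine (card_le_card (hB r h)).trans_eq ?_
      rw [card_product, card_range, sq]
    have h2 : (0 : ℝ) < (r : ℝ) ^ 2 := by
      have : (0 : ℝ) < r := by exact_mod_cast (hR r h).1.pos
      positivity
    refine ⟨by positivity, ?_⟩
    rw [div_le_one h2]
    exact_mod_cast h1
  have hbon := hb R (om B) k hom
  -- the assembly
  set A := ∑ D ∈ R.powerset.filter (fun D => D.card ≤ k), (-1 : ℝ) ^ D.card *
    ∏ r ∈ D, om B r with hA
  set Pi := ∏ r ∈ R, (1 - om B r) with hPi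
  set e := ∑ D ∈ R.powersetCard (k + 1), ∏ r ∈ D, om B r with he
  have s1 := sum_le_sum hg1
  have s2 := sum_le_sum hG1
  rw [sum_sub_distrib, ← sum_mul] at s1
  rw [sum_add_distrib, ← sum_mul, ← sum_mul, ← mul_sum, ← he] at s2
  have s3 : ∑ D ∈ R.powerset.filter (fun D => D.card ≤ k), (-1 : ℝ) ^ D.card *
      ((K : ℝ) ^ 4 * (∏ r ∈ D, om B r) * MT (Fchi V) m N) =
        (K : ℝ) ^ 4 * MT (Fchi V) m N * A := by
    rw [hA, mul_sum]
    refine sum_congr rfl fun D _ => ?_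
    ring
  rw [s3] at s1
  have s4 : ∑ D ∈ R.powerset.filter (fun D => D.card ≤ k + 1), ∏ r ∈ D, ((B r).card : ℝ) =
      ∑ D ∈ R.powerset.filter (fun D => D.card ≤ k), ∏ r ∈ D, ((B r).card : ℝ) +
        ∑ D ∈ R.powersetCard (k + 1), ∏ r ∈ D, ((B r).card : ℝ) := by
    rw [← sum_union]
    · refine sum_congr ?_ fun _ _ => rfl
      ext D
      rw [mem_union, mem_filter, mem_filter, mem_powersetCard, mem_powerset]
      constructor
      · rintro ⟨h1, h2⟩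
        rcases Nat.lt_or_ge D.card (k + 1) with h3 | h3
        · exact Or.inl ⟨h1, by omega⟩
        · exact Or.inr ⟨h1, by omega⟩
      · rintro (⟨h1, h2⟩ | ⟨h1, h2⟩)
        · exact ⟨h1, by omega⟩
        · exact ⟨h1, by omega⟩
    · rw [disjoint_left]
      intro D h1 h2
      rw [mem_filter] at h1
      rw [mem_powersetCard] at h2
      omega
  have s5 : (K : ℝ) ^ 4 * (MT (Fchi V) m N * Pi - UU m N * e) ≤
      (K : ℝ) ^ 4 * MT (Fchi V) m N * A := by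
    rw [mul_assoc]
    refine mul_le_mul_of_nonneg_left ?_ (by positivity)
    have h1 : |MT (Fchi V) m N * (A - Pi)| ≤ UU m N * e := by
      rw [abs_mul]
      exact mul_le_mul (siv_abs_MT _ hFc m N) hbon (abs_nonneg _) (siv_UU_nonneg m N)
    have h2 := (abs_le.1 h1).1
    rw [mul_sub] at h2
    linarith
  rw [s4]
  have s6 : (K : ℝ) ^ 4 * (MT (Fchi V) m N * Pi - 2 * UU m N * e) =
      (K : ℝ) ^ 4 * (MT (Fchi V) m N * Pi - UU m N * e) - (K : ℝ) ^ 4 * e * UU m N := by ring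
  rw [s6, mul_add]
  rw [mul_comm E, mul_comm E]
  linarith

end Pool.Agent.Lib.MP1e1427.LG
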