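import Pool.Agent.Lib.MP_1e1427_nt.LG.Stm

/-!
# MP_1e1427_nt, project LG, piece sym: elementary symmetric sums
-/

set_option autoImplicit false

namespace Pool.Agent.Lib.MP1e1427.LG

open Finset

theorem sym_pow (S b : ℝ) (hS : 0 ≤ S) (hb : 0 ≤ b) (K : ℕ) :
    S ^ (K + 1) + ((K : ℝ) + 1) * (b * S ^ K) ≤ (S + b) ^ (K + 1) := by
  induction K with
  | zero => simp
  | succ K ih =>
    have h1 : (S + b) * (S ^ (K + 1) + ((K : ℝ) + 1) * (b * S ^ K)) ≤ (S + b) ^ (K + 1 + 1) := by
      rw [pow_succ (S + b) (K + 1), mul_comm ((S + b) ^ (K + 1))]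
      exact mul_le_mul_of_nonneg_left ih (by positivity)
    refine le_trans ?_ h1
    have h2 : 0 ≤ ((K : ℝ) + 1) * (b * b * S ^ K) := by positivity
    push_cast
    have e : (S + b) * (S ^ (K + 1) + ((K : ℝ) + 1) * (b * S ^ K)) =
        S ^ (K + 1 + 1) + ((K : ℝ) + 1 + 1) * (b * S ^ (K + 1)) +
          ((K : ℝ) + 1) * (b * b * S ^ K) := by ring
    rw [e]
    linarith

theorem sym_e (R : Finset ℕ) (b : ℕ → ℝ) (r : ℕ) (hr : r ∉ R) (K : ℕ) :
    (∑ D ∈ (insert r R).powersetCard (K + 1), ∏ i ∈ D, b i) =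
      (∑ D ∈ R.powersetCard (K + 1), ∏ i ∈ D, b i) +
        b r * ∑ D ∈ R.powersetCard K, ∏ i ∈ D, b i := by
  rw [powersetCard_eq_filter, powersetCard_eq_filter, powersetCard_eq_filter, sum_filter,
    sum_filter, sum_filter, sum_powerset_insert hr, mul_sum]
  congr 1
  refine sum_congr rfl fun D hD => ?_
  rw [mem_powerset] at hD
  have h : r ∉ D := fun h => hr (hD h)
  rw [card_insert_of_notMem h, prod_insert h]
  by_cases hc : D.card = K
  · rw [if_pos (by rw [hc]), if_pos hc]
  · rw [if_neg (by omega), if_neg hc, mul_zero]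

theorem sym_E (R : Finset ℕ) (b : ℕ → ℝ) (r : ℕ) (hr : r ∉ R) (K : ℕ) :
    (∑ D ∈ (insert r R).powerset.filter (fun D => D.card ≤ K + 1), ∏ i ∈ D, b i) =
      (∑ D ∈ R.powerset.filter (fun D => D.card ≤ K + 1), ∏ i ∈ D, b i) +
        b r * ∑ D ∈ R.powerset.filter (fun D => D.card ≤ K), ∏ i ∈ D, b i := by
  rw [sum_filter, sum_filter, sum_filter, sum_powerset_insert hr, mul_sum]
  congr 1
  refine sum_congr rfl fun D hD => ?_
  rw [mem_powerset] at hD
  have h : r ∉ D := fun h => hr (hD h)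
  rw [card_insert_of_notMem h, prod_insert h]
  by_cases hc : D.card ≤ K
  · rw [if_pos (by omega), if_pos hc]
  · rw [if_neg (by omega), if_neg hc, mul_zero]

theorem sym_zero (R : Finset ℕ) (b : ℕ → ℝ) :
    (∑ D ∈ R.powerset.filter (fun D => D.card ≤ 0), ∏ i ∈ D, b i) = 1 := by
  have h : R.powerset.filter (fun D => D.card ≤ 0) = {∅} := by
    ext D
    rw [mem_filter, mem_powerset, mem_singleton, Nat.le_zero, card_eq_zero]
    constructor
    · exact fun h => h.2
    · rintro rfl
      exact ⟨empty_subset _, rfl⟩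
  rw [h, sum_singleton, prod_empty]

theorem p_sym : S_sym := by
  intro R b
  induction R using Finset.induction_on with
  | empty =>
    intro K _
    constructor
    · cases K with
      | zero => simp
      | succ K =>
        rw [powersetCard_eq_empty.2 (by simp)]
        simp
    · rw [sum_empty, add_zero, one_pow, powerset_empty, filter_singleton]
      simp
  | insert r R hr ih =>
    intro K hb
    have hb' : ∀ i ∈ R, 0 ≤ b i := fun i hi => hb i (mem_insert_of_mem hi)
    have hbr : 0 ≤ b r := hb r (mem_insert_self r R)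
    have hS : 0 ≤ ∑ i ∈ R, b i := sum_nonneg hb'
    cases K with
    | zero =>
      rw [sym_zero, pow_zero, pow_zero, powersetCard_zero, sum_singleton, prod_empty]
      simp
    | succ K =>
      rw [sym_e R b r hr K, sym_E R b r hr K, sum_insert hr]
      obtain ⟨h1, h2⟩ := ih (K + 1) hb'
      obtain ⟨h3, h4⟩ := ih K hb'
      constructor
      · have hK : (0 : ℝ) < (K.factorial : ℝ) := by exact_mod_cast K.factorial_pos
        have hK1 : (((K + 1).factorial : ℕ) : ℝ) = ((K : ℝ) + 1) * (K.factorial : ℝ) := by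
          rw [Nat.factorial_succ]; push_cast; ring
        have h5 := sym_pow _ _ hS hbr K
        have h6 : b r * (∑ D ∈ R.powersetCard K, ∏ i ∈ D, b i) ≤
            b r * ((∑ i ∈ R, b i) ^ K / (K.factorial : ℝ)) := mul_le_mul_of_nonneg_left h3 hbr
        refine (add_le_add h1 h6).trans ?_
        have e : (∑ i ∈ R, b i) ^ (K + 1) / (((K + 1).factorial : ℕ) : ℝ) +
            b r * ((∑ i ∈ R, b i) ^ K / (K.factorial : ℝ)) =
            ((∑ i ∈ R, b i) ^ (K + 1) + ((K : ℝ) + 1) * (b r * (∑ i ∈ R, b i) ^ K)) /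
              (((K + 1).factorial : ℕ) : ℝ) := by
          rw [hK1]
          field_simp
        rw [e, add_comm (b r)]
        exact div_le_div_of_nonneg_right h5 (Nat.cast_nonneg _)
      · have h6 : b r * (∑ D ∈ R.powerset.filter (fun D => D.card ≤ K), ∏ i ∈ D, b i) ≤
            b r * (1 + ∑ i ∈ R, b i) ^ K := mul_le_mul_of_nonneg_left h4 hbr
        refine (add_le_add h2 h6).trans ?_
        have e : (1 + ∑ i ∈ R, b i) ^ (K + 1) + b r * (1 + ∑ i ∈ R, b i) ^ K =
            (1 + ∑ i ∈ R, b i) ^ K * (1 + (b r + ∑ i ∈ R, b i)) := by ring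
        rw [e, pow_succ]
        refine mul_le_mul_of_nonneg_right ?_ (by positivity)
        exact pow_le_pow_left₀ (by positivity) (by linarith) K

end Pool.Agent.Lib.MP1e1427.LG
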