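import Pool.Agent.Lib.MP_1e1427_nt.LG.Stm

/-!
Piece xp: `∑_{d ≤ N, (d,P)=1} χ₄(d)/d` for a set `P` of primes of any size.
-/

set_option autoImplicit false

namespace Pool.Agent.Lib.MP1e1427.LG

open Finset ArithmeticFunction
open Pool.Agent.Lib.MP1e1427

lemma xp_r4_le {x : ℝ} (hx : 1 ≤ x) : r4 x ≤ x := by
  unfold r4
  calc x ^ (1 / 4 : ℝ) ≤ x ^ (1 : ℝ) := Real.rpow_le_rpow_of_exponent_le hx (by norm_num)
    _ = x := Real.rpow_one x

lemma xp_inv_mul {x : ℝ} (hx : 0 < x) : 1 / x * r4 x = x ^ (-(3 / 4) : ℝ) := by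
  unfold r4
  rw [one_div, ← Real.rpow_neg_one, ← Real.rpow_add hx]
  norm_num

lemma xp_AA_nonneg (P : Finset ℕ) : 0 ≤ AA P := by
  unfold AA
  exact Finset.prod_nonneg fun p _ => by positivity

theorem p_xp : S_xp := by
  intro P
  induction P using Finset.induction_on with
  | empty =>
    intro _ N
    have h1 : XP ∅ N = leib ((N + 1) / 2) := by
      unfold XP
      rw [← sum_chi_eq_leib]
      apply Finset.sum_congr rfl
      intro d _
      rw [if_pos (by simp)]
    have h2 : LP ∅ = Real.pi / 4 := by simp [LP]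
    rw [h1, h2]
    refine (abs_leib_sub_le _).trans ?_
    have h3 : AA ∅ = 1 := by simp [AA]
    rw [h3]
    have hN1 : (1 : ℝ) ≤ (N : ℝ) + 1 := by
      have : (0 : ℝ) ≤ N := Nat.cast_nonneg N
      linarith
    apply one_div_le_one_div_of_le (r4_pos (by positivity))
    refine (xp_r4_le hN1).trans ?_
    have : N ≤ 2 * ((N + 1) / 2) := by omega
    have : (N : ℝ) ≤ 2 * (((N + 1) / 2 : ℕ) : ℝ) := by exact_mod_cast this
    linarith
  | insert p P hpP ih =>
    intro hP N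
    have hp : p.Prime := hP p (mem_insert_self _ _)
    have hP' : ∀ q ∈ P, q.Prime := fun q hq => hP q (mem_insert_of_mem hq)
    rw [XP_insert P hP' hp hpP]
    have hL : LP (insert p P) = LP P - (chi p : ℝ) / p * LP P := by
      unfold LP; rw [prod_insert hpP]; ring
    have hA : AA (insert p P) = (1 + (p : ℝ) ^ (-(3 / 4) : ℝ)) * AA P := by
      unfold AA; rw [prod_insert hpP]
    rw [hL, hA]
    have h1 := ih hP' N
    have h2 := ih hP' (N / p)
    have hp0 : (0 : ℝ) < p := by exact_mod_cast hp.pos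
    have h3 : |(chi p : ℝ) / p| ≤ 1 / p := by
      rw [abs_div, abs_of_pos hp0]
      have : |(chi p : ℝ)| ≤ 1 := by exact_mod_cast abs_chi_le p
      exact div_le_div_of_nonneg_right this hp0.le
    have hrN : 0 < r4 ((N : ℝ) + 1) := r4_pos (by positivity)
    have hrM : 0 < r4 (((N / p : ℕ) : ℝ) + 1) := r4_pos (by positivity)
    have hrp : 0 < r4 (p : ℝ) := r4_pos hp0
    have h4 : AA P / r4 (((N / p : ℕ) : ℝ) + 1) ≤ r4 (p : ℝ) * (AA P / r4 ((N : ℝ) + 1)) := by
      have h5 : N + 1 ≤ p * (N / p + 1) := by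
        have := Nat.lt_mul_div_succ N hp.pos
        omega
      have h6 : ((N : ℝ) + 1) ≤ p * (((N / p : ℕ) : ℝ) + 1) := by exact_mod_cast h5
      have h7 : r4 ((N : ℝ) + 1) ≤ r4 (p : ℝ) * r4 (((N / p : ℕ) : ℝ) + 1) := by
        rw [← r4_mul hp0.le (by positivity)]
        exact r4_mono (by positivity) h6
      rw [mul_div_assoc', div_le_div_iff₀ hrM hrN]
      calc AA P * r4 ((N : ℝ) + 1) ≤ AA P * (r4 (p : ℝ) * r4 (((N / p : ℕ) : ℝ) + 1)) :=
            mul_le_mul_of_nonneg_left h7 (xp_AA_nonneg P)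
        _ = _ := by ring
    calc |XP P N - (chi p : ℝ) / p * XP P (N / p) - (LP P - (chi p : ℝ) / p * LP P)|
        = |(XP P N - LP P) - (chi p : ℝ) / p * (XP P (N / p) - LP P)| := by ring_nf
      _ ≤ |XP P N - LP P| + |(chi p : ℝ) / p * (XP P (N / p) - LP P)| := abs_sub _ _
      _ ≤ AA P / r4 ((N : ℝ) + 1) + 1 / p * (r4 (p : ℝ) * (AA P / r4 ((N : ℝ) + 1))) := by
          rw [abs_mul]
          apply add_le_add h1
          exact mul_le_mul h3 (h2.trans h4) (abs_nonneg _) (by positivity)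
      _ = AA P / r4 ((N : ℝ) + 1) + (1 / p * r4 (p : ℝ)) * (AA P / r4 ((N : ℝ) + 1)) := by ring
      _ = (1 + (p : ℝ) ^ (-(3 / 4) : ℝ)) * AA P / r4 ((N : ℝ) + 1) := by
          rw [xp_inv_mul hp0]
          ring

end Pool.Agent.Lib.MP1e1427.LG
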