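import Pool.Agent.Lib.MP_1e1427_nt.LG.Stm

/-!
# MP_1e1427_nt, project LG, piece uu: `UU m N ≤ (1 + log N)^4`.
-/

set_option autoImplicit false

namespace Pool.Agent.Lib.MP1e1427.LG

open Finset ArithmeticFunction
open Pool.Agent.Lib.MP1e1427

lemma uu_conv (f g : ℕ → ℝ) (hf : ∀ n, 0 ≤ f n) (hg : ∀ n, 0 ≤ g n) (N : ℕ) :
    ∑ d ∈ Ioc 0 N, ∑ x ∈ d.divisorsAntidiagonal, f x.1 * g x.2 ≤
      (∑ a ∈ Ioc 0 N, f a) * ∑ b ∈ Ioc 0 N, g b := by
  rw [Finset.sum_mul_sum, ← Finset.sum_product']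
  have h1 : ∀ d ∈ Ioc 0 N, ∑ x ∈ d.divisorsAntidiagonal, f x.1 * g x.2 =
      ∑ x ∈ (Ioc 0 N ×ˢ Ioc 0 N).filter (fun x => x.1 * x.2 = d), f x.1 * g x.2 := by
    intro d hd
    apply Finset.sum_congr _ (fun _ _ => rfl)
    ext x
    simp only [Nat.mem_divisorsAntidiagonal, Finset.mem_filter, Finset.mem_product,
      Finset.mem_Ioc] at hd ⊢
    constructor
    · rintro ⟨h, h0⟩
      have p1 : 0 < x.1 := Nat.pos_of_ne_zero (by rintro e; rw [e] at h; simp at h; omega)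
      have p2 : 0 < x.2 := Nat.pos_of_ne_zero (by rintro e; rw [e] at h; simp at h; omega)
      have q1 : x.1 ≤ d := by rw [← h]; exact Nat.le_mul_of_pos_right _ p2
      have q2 : x.2 ≤ d := by rw [← h]; exact Nat.le_mul_of_pos_left _ p1
      exact ⟨⟨⟨p1, by omega⟩, ⟨p2, by omega⟩⟩, h⟩
    · rintro ⟨_, h⟩
      exact ⟨h, by omega⟩
  rw [Finset.sum_congr rfl h1]
  apply Finset.sum_fiberwise_le_sum_of_sum_fiber_nonneg
  intro y _
  apply Finset.sum_nonneg
  intro x _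
  exact mul_nonneg (hf _) (hg _)

lemma uu_tau (N : ℕ) :
    ∑ d ∈ Ioc 0 N, (d.divisors.card : ℝ) / d ≤ (∑ a ∈ Ioc 0 N, (1 : ℝ) / a) ^ 2 := by
  have h := uu_conv (fun n => (1 : ℝ) / n) (fun n => (1 : ℝ) / n) (fun n => by positivity)
    (fun n => by positivity) N
  rw [sq]
  refine le_trans (le_of_eq ?_) h
  apply Finset.sum_congr rfl
  intro d hd
  have h2 : ∀ x ∈ d.divisorsAntidiagonal, (1 : ℝ) / (x.1 : ℝ) * (1 / (x.2 : ℝ)) = 1 / d := by
    intro x hx
    rw [Nat.mem_divisorsAntidiagonal] at hx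
    rw [← hx.1]
    push_cast
    rw [div_mul_div_comm, one_mul]
  rw [Finset.sum_congr rfl h2, Finset.sum_const, nsmul_eq_mul]
  have : d.divisorsAntidiagonal.card = d.divisors.card := by
    rw [← Nat.map_div_right_divisors, Finset.card_map]
  rw [this]
  ring

lemma uu_submul (a b : ℕ) : (a * b).divisors.card ≤ a.divisors.card * b.divisors.card := by
  rw [Nat.divisors_mul]
  exact Finset.card_mul_le

lemma uu_tau2 (N : ℕ) :
    ∑ d ∈ Ioc 0 N, (d.divisors.card : ℝ) ^ 2 / d ≤ (∑ a ∈ Ioc 0 N, (1 : ℝ) / a) ^ 4 := by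
  have h := uu_conv (fun n => (n.divisors.card : ℝ) / n) (fun n => (n.divisors.card : ℝ) / n)
    (fun n => by positivity) (fun n => by positivity) N
  have h0 : 0 ≤ ∑ d ∈ Ioc 0 N, (d.divisors.card : ℝ) / d :=
    Finset.sum_nonneg fun _ _ => by positivity
  have h3 : (∑ d ∈ Ioc 0 N, (d.divisors.card : ℝ) / d) * ∑ d ∈ Ioc 0 N, (d.divisors.card : ℝ) / d ≤
      (∑ a ∈ Ioc 0 N, (1 : ℝ) / a) ^ 4 := by
    have := mul_self_le_mul_self h0 (uu_tau N)
    calc _ ≤ _ := this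
      _ = _ := by ring
  refine le_trans ?_ (le_trans h h3)
  apply Finset.sum_le_sum
  intro d hd
  have h2 : ∀ x ∈ d.divisorsAntidiagonal, (d.divisors.card : ℝ) / d ≤
      (x.1.divisors.card : ℝ) / x.1 * ((x.2.divisors.card : ℝ) / x.2) := by
    intro x hx
    rw [Nat.mem_divisorsAntidiagonal] at hx
    rw [← hx.1]
    push_cast
    rw [div_mul_div_comm]
    apply div_le_div_of_nonneg_right _ (by positivity)
    exact_mod_cast uu_submul x.1 x.2
  have h4 := Finset.sum_le_sum h2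
  rw [Finset.sum_const, nsmul_eq_mul] at h4
  have : d.divisorsAntidiagonal.card = d.divisors.card := by
    rw [← Nat.map_div_right_divisors, Finset.card_map]
  rw [this] at h4
  refine le_trans (le_of_eq ?_) h4
  ring

/-- PIECE `uu`. -/
theorem p_uu : S_uu := by
  intro m N hN
  have h1 : UU m N ≤ ∑ d ∈ Ioc 0 N, (d.divisors.card : ℝ) ^ 2 / d := by
    unfold UU
    apply Finset.sum_le_sum
    intro d hd
    rw [Finset.mem_Ioc] at hd
    have hd0 : (0 : ℝ) < d := by exact_mod_cast hd.1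
    rw [div_le_div_iff₀ (by positivity) hd0]
    have := abs_rfun_le m d
    calc |((rfun m d : ℤ) : ℝ)| * d ≤ (d * (d.divisors.card : ℝ) ^ 2) * d :=
          mul_le_mul_of_nonneg_right this hd0.le
      _ = _ := by ring
  have h2 : (∑ a ∈ Ioc 0 N, (1 : ℝ) / a) ≤ 1 + Real.log N := by
    have h := harmonic_le_one_add_log N
    have e : ((harmonic N : ℚ) : ℝ) = ∑ a ∈ Ioc 0 N, (1 : ℝ) / a := by
      rw [harmonic_eq_sum_Icc]
      push_cast
      apply Finset.sum_congr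
      · ext x
        simp only [Finset.mem_Icc, Finset.mem_Ioc]
        omega
      · intro x _
        rw [one_div]
    rw [← e]
    exact h
  have h3 : 0 ≤ ∑ a ∈ Ioc 0 N, (1 : ℝ) / a := Finset.sum_nonneg fun _ _ => by positivity
  exact h1.trans ((uu_tau2 N).trans (pow_le_pow_left₀ h3 h2 4))

end Pool.Agent.Lib.MP1e1427.LG
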